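import Pool.Agent.Lib_MP_f70651_al.Prime

/-!
# MP_f70651_al : PIECE ABSORB, a product of generic elements absorbs the unmarked diagonal entries
-/

namespace MPf70651

variable {P : Type} [CommRing P] {S : Sit P}

/-- The index map of the block `t`. -/
def absBlk (T t : ℕ) (j : ℕ) : ℕ := j * T + t

theorem absBlk_inj {T t : ℕ} (hT : 0 < T) : Function.Injective (absBlk T t) := by
  intro i j h
  unfold absBlk at h
  have h1 : i * T = j * T := by omega
  exact Nat.eq_of_mul_eq_mul_right hT h1

theorem absBlk_eq {T t t' i j : ℕ} (ht : t < T) (ht' : t' < T) (h : absBlk T t i = absBlk T t' j) :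
    t = t' := by
  unfold absBlk at h
  have h1 : (t + i * T) % T = (t' + j * T) % T := by rw [add_comm, h, add_comm]
  rw [Nat.add_mul_mod_self_right, Nat.add_mul_mod_self_right, Nat.mod_eq_of_lt ht,
    Nat.mod_eq_of_lt ht'] at h1
  exact h1

/-- `x` is in `A` modulo `B`. -/
def AbsQ (S : Sit P) (B : AddSubgroup P) (x : P) : Prop := ∃ c ∈ S.A, x - c ∈ B

theorem AbsQ.mul {w : ℕ} {b : Pos w → AddSubgroup P} (hb : IsFam S S.A' b) (φ : Pos w) {x y : P}
    (hx : AbsQ S (b φ) x) (hy : AbsQ S (b φ) y) : AbsQ S (b φ) (x * y) := by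
  obtain ⟨c, hc, hc'⟩ := hx
  obtain ⟨d, hd, hd'⟩ := hy
  refine ⟨c * d, S.A.mul_mem hc hd, ?_⟩
  have e : x * y - c * d = (x - c) * (y - d) + c * (y - d) + d * (x - c) := by ring
  rw [e]
  exact (b φ).add_mem ((b φ).add_mem (hb.smul φ _ _ (hb.le φ _ hc') hd')
    (hb.smul φ _ _ (S.A_le hc) hd')) (hb.smul φ _ _ (S.A_le hd) hc')

theorem abs_split {w : ℕ} (φ : Pos w) (l : List ℕ) :
    ∃ (e : Fin w → ℕ) (l' : List ℕ), (∀ k, e k ≤ l.length) ∧ l'.length ≤ l.length ∧
      (∀ i ∈ l', ∀ k, i ≠ φ k) ∧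
      (l.map (fun i => S.y i i)).prod =
        (∏ k, S.y (φ k) (φ k) ^ e k) * (l'.map (fun i => S.y i i)).prod := by
  induction l with
  | nil => exact ⟨fun _ => 0, [], by simp, by simp, by simp, by simp⟩
  | cons i l ih =>
    obtain ⟨e, l', h1, h2, h3, h4⟩ := ih
    by_cases hi : ∃ k, i = φ k
    · obtain ⟨k, rfl⟩ := hi
      refine ⟨fun j => e j + if j = k then 1 else 0, l', ?_, ?_, h3, ?_⟩
      · intro j
        have := h1 j
        simp only [List.length_cons]
        split_ifs <;> omega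
      · simp only [List.length_cons]
        omega
      · rw [List.map_cons, List.prod_cons, h4]
        simp only [pow_add, Finset.prod_mul_distrib]
        have e1 : ∏ j, S.y (φ j) (φ j) ^ (if j = k then 1 else 0) = S.y (φ k) (φ k) := by
          rw [Finset.prod_eq_single k]
          · simp
          · intro j _ hj
            simp [hj]
          · simp
        rw [e1]
        ring
    · push Not at hi
      refine ⟨e, i :: l', ?_, ?_, ?_, ?_⟩
      · intro j
        have := h1 j
        simp only [List.length_cons]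
        omega
      · simp only [List.length_cons]
        omega
      · intro j hj k
        rcases List.mem_cons.mp hj with rfl | hj
        · exact hi k
        · exact h3 j hj k
      · rw [List.map_cons, List.prod_cons, h4, List.map_cons, List.prod_cons]
        ring

theorem abs_rel {w : ℕ} {b : Pos w → AddSubgroup P} {m : ℕ} {Δ L : P} (hΔ : Supp S m Δ)
    (hL : L ∈ S.A) (hrel : S.y m m * Δ - L ∈ gid S b) (φ : Pos w) (α : ℕ → ℕ)
    (hα : Function.Injective α) (hav : ∀ i k, α i ≠ φ k) (i : ℕ) (hi : ∀ k, i ≠ φ k)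
    (hi' : ∀ j, j < m → i ≠ α j) : AbsQ S (b φ) (S.act α Δ * S.y i i) := by
  classical
  obtain ⟨θ, hθ, hθF, hθK⟩ := exists_inj_extend (Finset.range (m + 1))
    (Finset.univ.image fun k => φ k) (fun j => if j < m then α j else i) (by
      intro x hx y hy hxy
      simp only [Finset.coe_range, Set.mem_Iio] at hx hy
      by_cases h1 : x < m <;> by_cases h2 : y < m
      · simp only [h1, h2, if_true] at hxy
        exact hα hxy
      · simp only [h1, h2, if_true, if_false] at hxy
        exact absurd hxy.symm (hi' x h1)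
      · simp only [h1, h2, if_true, if_false] at hxy
        exact absurd hxy (hi' y h2)
      · omega) (by
      intro x _
      rw [Finset.mem_image]
      rintro ⟨k, -, hk⟩
      by_cases h1 : x < m
      · simp only [h1, if_true] at hk
        exact hav x k hk.symm
      · simp only [h1, if_false] at hk
        exact hi k hk.symm)
  have h1 := hrel.2 φ θ hθ (fun j k hjk => by
    apply hθK j
    rw [Finset.mem_image]
    exact ⟨k, Finset.mem_univ _, hjk.symm⟩)
  rw [map_sub, map_mul, S.act_y] at h1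
  have e1 : S.act θ Δ = S.act α Δ := by
    apply hΔ
    intro j hj
    rw [hθF j (Finset.mem_range.mpr (by omega))]
    simp [hj]
  have e2 : θ m = i := by
    rw [hθF m (Finset.mem_range.mpr (by omega))]
    simp
  rw [e1, e2] at h1
  refine ⟨S.act θ L, S.act_A θ hθ L hL, ?_⟩
  rwa [mul_comm (S.act α Δ)]

theorem abs_claim {w : ℕ} {b : Pos w → AddSubgroup P} (hb : IsFam S S.A' b) {m : ℕ} {Δ L : P}
    (hΔ : Supp S m Δ) (hΔA : Δ ∈ S.A) (hL : L ∈ S.A) (hrel : S.y m m * Δ - L ∈ gid S b)
    (φ : Pos w) (τ : ℕ → ℕ) (hτ : Function.Injective τ) (hav : ∀ i k, τ i ≠ φ k) (T : ℕ)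
    (hT : 0 < T) (l : List ℕ) (hl : ∀ i ∈ l, ∀ k, i ≠ φ k) (X : Finset (Fin T))
    (hX : l.length < X.card) :
    AbsQ S (b φ) ((∏ t ∈ X, S.act (fun j => τ (absBlk T t j)) Δ) *
      (l.map (fun i => S.y i i)).prod) := by
  classical
  induction l generalizing X with
  | nil =>
    refine ⟨∏ t ∈ X, S.act (fun j => τ (absBlk T t j)) Δ, ?_, ?_⟩
    · apply S.A.prod_mem
      intro t _
      exact S.act_A _ (hτ.comp (absBlk_inj hT)) Δ hΔA
    · simp only [List.map_nil, List.prod_nil, mul_one, sub_self]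
      exact (b φ).zero_mem
  | cons i l ih =>
    have hex : ∃ t ∈ X, ∀ j, j < m → i ≠ τ (absBlk T t j) := by
      have hc : 1 < X.card := by
        simp only [List.length_cons] at hX
        omega
      obtain ⟨t1, ht1, t2, ht2, hne⟩ := Finset.one_lt_card.mp hc
      by_contra hcon
      push Not at hcon
      obtain ⟨j1, _, e1⟩ := hcon t1 ht1
      obtain ⟨j2, _, e2⟩ := hcon t2 ht2
      rw [e1] at e2
      exact hne (Fin.ext (absBlk_eq t1.2 t2.2 (hτ e2)))
    obtain ⟨t, ht, hti⟩ := hex
    have h1 := ih (fun j hj => hl j (List.mem_cons_of_mem _ hj)) (X.erase t) (by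
      rw [Finset.card_erase_of_mem ht]
      simp only [List.length_cons] at hX
      omega)
    have h2 := abs_rel hΔ hL hrel φ (fun j => τ (absBlk T t j))
      (hτ.comp (absBlk_inj hT)) (fun j k => hav _ k) i (hl i (List.mem_cons_self ..)) hti
    have h3 := AbsQ.mul hb φ h2 h1
    have e : (∏ t ∈ X, S.act (fun j => τ (absBlk T t j)) Δ) *
        ((i :: l).map (fun i => S.y i i)).prod =
        S.act (fun j => τ (absBlk T t j)) Δ * S.y i i *
          ((∏ t ∈ X.erase t, S.act (fun j => τ (absBlk T t j)) Δ) *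
            (l.map (fun i => S.y i i)).prod) := by
      rw [← Finset.mul_prod_erase X _ ht, List.map_cons, List.prod_cons]
      ring
    rw [e]
    exact h3

theorem abs_closure_le {s : ℕ} {x : P} (hx : x ∈ AddSubgroup.closure
    {x | ∃ c ∈ S.A, ∃ l : List ℕ, l.length ≤ s ∧ x = c * (l.map (fun i => S.y i i)).prod}) :
    x ∈ S.A' := by
  have h : AddSubgroup.closure
      {x | ∃ c ∈ S.A, ∃ l : List ℕ, l.length ≤ s ∧ x = c * (l.map (fun i => S.y i i)).prod} ≤
      S.A'.toAddSubgroup := by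
    rw [AddSubgroup.closure_le]
    rintro _ ⟨c, hc, l, _, rfl⟩
    apply S.A'.mul_mem (S.A_le hc)
    apply S.A'.list_prod_mem
    intro z hz
    obtain ⟨i, _, rfl⟩ := List.mem_map.mp hz
    exact S.y_mem' i i
  exact h hx

theorem absorb {w : ℕ} {b : Pos w → AddSubgroup P} (hb : IsFam S S.A' b)
    (hg : SymPrime S (gid S b)) {s : ℕ} (hbd : Bdd S s) {m : ℕ} {Δ L : P} (hΔ : Supp S m Δ)
    (hΔA : Δ ∈ S.A) (hL : L ∈ S.A) (hΔg : Δ ∉ gid S b) (hrel : S.y m m * Δ - L ∈ gid S b) :
    ∃ b0 ∈ S.A, b0 ∉ gid S b ∧ ∀ (φ : Pos w) (τ : ℕ → ℕ), Function.Injective τ →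
      (∀ i k, τ i ≠ φ k) → ∀ a ∈ S.A', S.act τ b0 * a ∈ b φ ⊔ AddSubgroup.closure
        {x | ∃ c ∈ S.A, ∃ e : Fin w → ℕ, (∀ k, e k ≤ s) ∧
          x = c * ∏ k, S.y (φ k) (φ k) ^ e k} := by
  classical
  have hT : 0 < s + 1 := Nat.succ_pos s
  refine ⟨∏ t : Fin (s + 1), S.act (absBlk (s + 1) t) Δ, ?_, ?_, ?_⟩
  · apply S.A.prod_mem
    intro t _
    exact S.act_A _ (absBlk_inj hT) Δ hΔA
  · apply hg.prod_not_mem Finset.univ
      (fun t : Fin (s + 1) => (Finset.range m).image (absBlk (s + 1) t))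
    · intro t _
      exact S.act_A' _ (absBlk_inj hT) Δ (S.A_le hΔA)
    · intro t _
      exact hg.act_not_mem hΔg _ (absBlk_inj hT)
    · intro t _
      exact hΔ.suppOn.act _
    · intro t _ t' _ hne
      rw [Finset.disjoint_left]
      intro x hx hx'
      obtain ⟨i, _, rfl⟩ := Finset.mem_image.mp hx
      obtain ⟨j, _, hj⟩ := Finset.mem_image.mp hx'
      exact hne (Fin.ext (absBlk_eq t.2 t'.2 hj.symm))
  · intro φ τ hτ hav a ha
    have eb : S.act τ (∏ t : Fin (s + 1), S.act (absBlk (s + 1) t) Δ) =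
        ∏ t ∈ (Finset.univ : Finset (Fin (s + 1))),
          S.act (fun j => τ (absBlk (s + 1) t j)) Δ := by
      rw [map_prod]
      apply Finset.prod_congr rfl
      intro t _
      rw [act_comp_apply]
    rw [eb]
    set B0 := ∏ t ∈ (Finset.univ : Finset (Fin (s + 1))),
          S.act (fun j => τ (absBlk (s + 1) t j)) Δ with hB0
    have hmem := hbd a ha
    induction hmem using AddSubgroup.closure_induction with
    | mem x hx =>
      obtain ⟨c, hc, l, hl, rfl⟩ := hx
      obtain ⟨e, l', h1, h2, h3, h4⟩ := abs_split (S := S) φ l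
      obtain ⟨c', hc', hd⟩ := abs_claim hb hΔ hΔA hL hrel φ τ hτ hav (s + 1) hT l' h3
        Finset.univ (by rw [Finset.card_univ, Fintype.card_fin]; omega)
      rw [← hB0] at hd
      have hM : (∏ k, S.y (φ k) (φ k) ^ e k) ∈ S.A' :=
        S.A'.prod_mem fun k _ => S.A'.pow_mem (S.y_mem' _ _) _
      have e1 : B0 * (c * (l.map fun i => S.y i i).prod) =
          (c * ∏ k, S.y (φ k) (φ k) ^ e k) * (B0 * (l'.map fun i => S.y i i).prod - c') +
            (c * c') * ∏ k, S.y (φ k) (φ k) ^ e k := by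
        rw [h4]
        ring
      rw [e1]
      apply AddSubgroup.add_mem
      · exact AddSubgroup.mem_sup_left (hb.smul φ _ _ (S.A'.mul_mem (S.A_le hc) hM) hd)
      · apply AddSubgroup.mem_sup_right
        apply AddSubgroup.subset_closure
        exact ⟨c * c', S.A.mul_mem hc hc', e, fun k => (h1 k).trans hl, rfl⟩
    | zero =>
      rw [mul_zero]
      exact AddSubgroup.zero_mem _
    | add x y hx hy ihx ihy =>
      have hxA : x ∈ S.A' := abs_closure_le hx
      have hyA : y ∈ S.A' := abs_closure_le hy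
      rw [mul_add]
      exact AddSubgroup.add_mem _ (ihx hxA) (ihy hyA)
    | neg x hx ihx =>
      have hxA : x ∈ S.A' := abs_closure_le hx
      rw [mul_neg]
      exact AddSubgroup.neg_mem _ (ihx hxA)

end MPf70651
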