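import Pool.Agent.Lib_MP_f70651_al.Basic

/-!
# MP_f70651_al : ascending chains of `A'`-families stabilise
-/

namespace MPf70651

variable {P : Type} [CommRing P] {S : Sit P}

theorem acc (hN : NA S) (w : ℕ) :
    WellFounded (fun M N : {N : Pos w → AddSubgroup P // IsFam S S.A' N} => N.1 < M.1) := by
  rw [wellFounded_iff_isEmpty_descending_chain]
  refine ⟨fun ⟨c, hc⟩ => ?_⟩
  have hmono : Monotone (fun n => (c n).1) := monotone_nat_of_le_succ fun n => (hc n).le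
  have hmem : ∀ (φ : Pos w) (x : P), x ∈ (⨆ n, (c n).1 φ) ↔ ∃ n, x ∈ (c n).1 φ := by
    intro φ x
    refine AddSubgroup.mem_iSup_of_directed ?_
    exact Monotone.directed_le fun i j hij => hmono hij φ
  have hfam : IsFam S S.A' (fun φ => ⨆ n, (c n).1 φ) := by
    refine ⟨fun φ x hx => ?_, fun φ a x ha hx => ?_, fun φ τ x hx => ?_⟩
    · obtain ⟨n, hn⟩ := (hmem φ x).mp hx
      exact (c n).2.le φ x hn
    · obtain ⟨n, hn⟩ := (hmem φ x).mp hx
      exact (hmem _ _).mpr ⟨n, (c n).2.smul φ a x ha hn⟩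
    · obtain ⟨n, hn⟩ := (hmem φ x).mp hx
      exact (hmem _ _).mpr ⟨n, (c n).2.act φ τ x hn⟩
  obtain ⟨G, hGfin, hG, hle⟩ := hN w _ hfam
  have hK : ∃ K, ∀ g ∈ G, g.2 ∈ (c K).1 g.1 := by
    have h1 : ∀ g : Pos w × P, ∃ n, g ∈ G → g.2 ∈ (c n).1 g.1 := by
      intro g
      by_cases hg : g ∈ G
      · obtain ⟨n, hn⟩ := (hmem _ _).mp (hG g hg)
        exact ⟨n, fun _ => hn⟩
      · exact ⟨0, fun h => absurd h hg⟩
    choose k hk using h1
    refine ⟨hGfin.toFinset.sup k, fun g hg => ?_⟩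
    have h2 : k g ≤ hGfin.toFinset.sup k :=
      Finset.le_sup (f := k) (hGfin.mem_toFinset.mpr hg)
    exact hmono h2 g.1 (hk g hg)
  obtain ⟨K, hK⟩ := hK
  refine (hc K).not_ge fun φ => ?_
  have h3 : (c (K + 1)).1 φ ≤ ⨆ n, (c n).1 φ := le_iSup (fun n => (c n).1 φ) (K + 1)
  refine h3.trans ((hle φ).trans (sup_le bot_le ?_))
  exact gen_le (c K).2 hK φ

end MPf70651
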