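import Pool.Agent.Lib_MP_f70651_al.Defs

/-!
# MP_f70651_al : basic lemmas on families
-/

namespace MPf70651

variable {P : Type} [CommRing P] {S : Sit P}

theorem Supp.mono {n m : ℕ} {p : P} (h : Supp S n p) (hnm : n ≤ m) : Supp S m p :=
  fun σ τ hst => h σ τ (fun i hi => hst i (lt_of_lt_of_le hi hnm))

theorem exists_supp (p : P) : ∃ n, Supp S n p := S.supp p

theorem act_comp_apply (σ τ : ℕ → ℕ) (p : P) :
    S.act σ (S.act τ p) = S.act (fun i => σ (τ i)) p :=
  (S.act_comp σ τ p).symm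

theorem Supp.act {n m : ℕ} {p : P} (h : Supp S n p) (σ : ℕ → ℕ) (hσ : ∀ i, i < n → σ i < m) :
    Supp S m (S.act σ p) := by
  intro α β hab
  rw [act_comp_apply, act_comp_apply]
  exact h _ _ (fun i hi => hab _ (hσ i hi))

theorem Supp.mul {n : ℕ} {p q : P} (hp : Supp S n p) (hq : Supp S n q) : Supp S n (p * q) := by
  intro α β hab
  rw [map_mul, map_mul, hp α β hab, hq α β hab]

/-- A partial injection on a finite set extends to an injection avoiding a finite set. -/
theorem exists_inj_extend (F K : Finset ℕ) (g : ℕ → ℕ) (hg : Set.InjOn g F)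
    (hK : ∀ i ∈ F, g i ∉ K) :
    ∃ θ : ℕ → ℕ, Function.Injective θ ∧ (∀ i ∈ F, θ i = g i) ∧ ∀ i, θ i ∉ K := by
  classical
  set M := (F.image g ∪ K).sup id + 1 with hM
  have hb : ∀ x ∈ F.image g ∪ K, x < M := fun x hx =>
    Nat.lt_succ_of_le (Finset.le_sup (f := id) hx)
  refine ⟨fun i => if i ∈ F then g i else i + M, ?_, ?_, ?_⟩
  · intro i j hij
    by_cases hi : i ∈ F <;> by_cases hj : j ∈ F
    · simp only [hi, hj, if_true] at hij
      exact hg (by exact_mod_cast hi) (by exact_mod_cast hj) hij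
    · simp only [hi, hj, if_true, if_false] at hij
      have := hb (g i) (Finset.mem_union_left _ (Finset.mem_image_of_mem g hi))
      omega
    · simp only [hi, hj, if_true, if_false] at hij
      have := hb (g j) (Finset.mem_union_left _ (Finset.mem_image_of_mem g hj))
      omega
    · simp only [hi, hj, if_false] at hij
      omega
  · intro i hi
    simp [hi]
  · intro i
    by_cases hi : i ∈ F
    · simp only [hi, if_true]
      exact hK i hi
    · simp only [hi, if_false]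
      intro h
      have := hb (i + M) (Finset.mem_union_right _ h)
      omega

/-- Every finite set of at most `M` indices is covered by `ε [0, M)`. -/
theorem exists_cover (U : Finset ℕ) (M : ℕ) (hU : U.card ≤ M) :
    ∃ ε : ℕ ↪o ℕ, ∀ u ∈ U, ∃ i, i < M ∧ ε i = u := by
  classical
  refine ⟨ext (U.orderEmbOfFin rfl), fun u hu => ?_⟩
  have : u ∈ Set.range (U.orderEmbOfFin rfl) := by
    rw [Finset.range_orderEmbOfFin]
    exact_mod_cast hu
  obtain ⟨i, hi⟩ := this
  refine ⟨i, lt_of_lt_of_le i.2 hU, ?_⟩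
  rw [ext_apply _ _ i.2]
  exact hi

theorem IsFam.toA {w : ℕ} {N : Pos w → AddSubgroup P} (h : IsFam S S.A' N) : IsFam S S.A N where
  le := h.le
  smul := fun φ a x ha hx => h.smul φ a x (S.A_le ha) hx
  act := h.act

theorem IsFam.sup {B : Subring P} {w : ℕ} {M N : Pos w → AddSubgroup P} (hM : IsFam S B M)
    (hN : IsFam S B N) : IsFam S B (M ⊔ N) where
  le := fun φ x hx => by
    obtain ⟨y, hy, z, hz, rfl⟩ := AddSubgroup.mem_sup.mp hx
    exact S.A'.add_mem (hM.le φ y hy) (hN.le φ z hz)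
  smul := fun φ a x ha hx => by
    obtain ⟨y, hy, z, hz, rfl⟩ := AddSubgroup.mem_sup.mp hx
    rw [mul_add]
    exact AddSubgroup.mem_sup.mpr ⟨_, hM.smul φ a y ha hy, _, hN.smul φ a z ha hz, rfl⟩
  act := fun φ τ x hx => by
    obtain ⟨y, hy, z, hz, rfl⟩ := AddSubgroup.mem_sup.mp hx
    rw [map_add]
    exact AddSubgroup.mem_sup.mpr ⟨_, hM.act φ τ y hy, _, hN.act φ τ z hz, rfl⟩

theorem IsFam.inf {B : Subring P} {w : ℕ} {M N : Pos w → AddSubgroup P} (hM : IsFam S B M)
    (hN : IsFam S B N) : IsFam S B (M ⊓ N) where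
  le := fun φ x hx => hM.le φ x (AddSubgroup.mem_inf.mp hx).1
  smul := fun φ a x ha hx => AddSubgroup.mem_inf.mpr
    ⟨hM.smul φ a x ha (AddSubgroup.mem_inf.mp hx).1, hN.smul φ a x ha (AddSubgroup.mem_inf.mp hx).2⟩
  act := fun φ τ x hx => AddSubgroup.mem_inf.mpr
    ⟨hM.act φ τ x (AddSubgroup.mem_inf.mp hx).1, hN.act φ τ x (AddSubgroup.mem_inf.mp hx).2⟩

theorem isFam_bot (B : Subring P) (w : ℕ) : IsFam S B (⊥ : Pos w → AddSubgroup P) where
  le := fun φ x hx => by
    have : x = 0 := by simpa using hx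
    rw [this]
    exact S.A'.zero_mem
  smul := fun φ a x _ hx => by
    have : x = 0 := by simpa using hx
    rw [this, mul_zero]
    exact AddSubgroup.zero_mem _
  act := fun φ τ x hx => by
    have : x = 0 := by simpa using hx
    rw [this, map_zero]
    exact AddSubgroup.zero_mem _

theorem isFam_top (w : ℕ) : IsFam S S.A' (fun _ : Pos w => S.A'.toAddSubgroup) where
  le := fun _ _ hx => hx
  smul := fun _ _ _ ha hx => S.A'.mul_mem ha hx
  act := fun _ τ x hx => S.act_A' τ τ.injective x hx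

theorem isFam_gen {B : Subring P} (hB : B ≤ S.A') (hBact : ∀ (τ : ℕ ↪o ℕ), ∀ a ∈ B, S.act τ a ∈ B)
    {w : ℕ} (G : Set (Pos w × P)) (hG : ∀ g ∈ G, g.2 ∈ S.A') : IsFam S B (gen S B G) where
  le := fun φ x hx => by
    have : gen S B G φ ≤ S.A'.toAddSubgroup := by
      unfold gen
      rw [AddSubgroup.closure_le]
      rintro _ ⟨g, hg, τ, _, a, ha, rfl⟩
      exact S.A'.mul_mem (hB ha) (S.act_A' τ τ.injective _ (hG g hg))
    exact this hx
  smul := fun φ a x ha hx => by
    unfold gen at hx ⊢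
    induction hx using AddSubgroup.closure_induction with
    | mem x hx =>
      obtain ⟨g, hg, τ, hτ, c, hc, rfl⟩ := hx
      apply AddSubgroup.subset_closure
      exact ⟨g, hg, τ, hτ, a * c, B.mul_mem ha hc, by ring⟩
    | zero => rw [mul_zero]; exact AddSubgroup.zero_mem _
    | add x y _ _ hx hy => rw [mul_add]; exact AddSubgroup.add_mem _ hx hy
    | neg x _ hx => rw [mul_neg]; exact AddSubgroup.neg_mem _ hx
  act := fun φ σ x hx => by
    unfold gen at hx ⊢
    induction hx using AddSubgroup.closure_induction with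
    | mem x hx =>
      obtain ⟨g, hg, τ, hτ, c, hc, rfl⟩ := hx
      apply AddSubgroup.subset_closure
      refine ⟨g, hg, τ.trans σ, ?_, S.act σ c, hBact σ c hc, ?_⟩
      · rw [← hτ]
        rfl
      · rw [map_mul, act_comp_apply]
        rfl
    | zero => rw [map_zero]; exact AddSubgroup.zero_mem _
    | add x y _ _ hx hy => rw [map_add]; exact AddSubgroup.add_mem _ hx hy
    | neg x _ hx => rw [map_neg]; exact AddSubgroup.neg_mem _ hx

theorem isFam_genA {w : ℕ} (G : Set (Pos w × P)) (hG : ∀ g ∈ G, g.2 ∈ S.A') :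
    IsFam S S.A (gen S S.A G) :=
  isFam_gen S.A_le (fun τ a ha => S.act_A τ τ.injective a ha) G hG

theorem isFam_genA' {w : ℕ} (G : Set (Pos w × P)) (hG : ∀ g ∈ G, g.2 ∈ S.A') :
    IsFam S S.A' (gen S S.A' G) :=
  isFam_gen le_rfl (fun τ a ha => S.act_A' τ τ.injective a ha) G hG

theorem mem_gen {B : Subring P} {w : ℕ} {G : Set (Pos w × P)} {g : Pos w × P} (hg : g ∈ G)
    (τ : ℕ ↪o ℕ) (a : P) (ha : a ∈ B) : a * S.act τ g.2 ∈ gen S B G (g.1.trans τ) :=
  AddSubgroup.subset_closure ⟨g, hg, τ, rfl, a, ha, rfl⟩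

theorem mem_gen_self {B : Subring P} {w : ℕ} {G : Set (Pos w × P)} {g : Pos w × P} (hg : g ∈ G) :
    g.2 ∈ gen S B G g.1 := by
  have h := mem_gen (S := S) (B := B) hg (RelEmbedding.refl _) 1 B.one_mem
  rw [one_mul] at h
  have h1 : S.act (RelEmbedding.refl (· ≤ ·) : ℕ ↪o ℕ) g.2 = g.2 := S.act_id g.2
  rw [h1] at h
  exact h

theorem gen_le {B : Subring P} {w : ℕ} {G : Set (Pos w × P)} {N : Pos w → AddSubgroup P}
    (hN : IsFam S B N) (hG : ∀ g ∈ G, g.2 ∈ N g.1) : gen S B G ≤ N := by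
  intro φ
  unfold gen
  rw [AddSubgroup.closure_le]
  rintro _ ⟨g, hg, τ, hτ, a, ha, rfl⟩
  rw [← hτ]
  exact hN.smul _ a _ ha (hN.act _ τ _ (hG g hg))

theorem gen_mono {B : Subring P} {w : ℕ} {G H : Set (Pos w × P)} (h : G ⊆ H) :
    gen S B G ≤ gen S B H := by
  intro φ
  unfold gen
  apply AddSubgroup.closure_mono
  rintro _ ⟨g, hg, τ, hτ, a, ha, rfl⟩
  exact ⟨g, h hg, τ, hτ, a, ha, rfl⟩

theorem FG.mono {B : Subring P} {w : ℕ} {b c N : Pos w → AddSubgroup P} (h : FG S B b N)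
    (hbc : b ≤ c) : FG S B c N := by
  obtain ⟨G, hG, h1, h2⟩ := h
  exact ⟨G, hG, h1, fun φ => (h2 φ).trans (sup_le_sup_right (hbc φ) _)⟩

/-- Extension: if `J` is f.g. modulo `b` and `N` is f.g. modulo `J`, then `N` is f.g. modulo `b`. -/
theorem FG.trans {B : Subring P} {w : ℕ} {b J N : Pos w → AddSubgroup P} (h1 : FG S B b J)
    (h2 : FG S B J N) (hJN : J ≤ N) : FG S B b N := by
  obtain ⟨G, hG, hG1, hG2⟩ := h1
  obtain ⟨H, hH, hH1, hH2⟩ := h2
  refine ⟨G ∪ H, hG.union hH, ?_, fun φ => ?_⟩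
  · rintro g (hg | hg)
    · exact hJN _ (hG1 g hg)
    · exact hH1 g hg
  · refine (hH2 φ).trans (sup_le ((hG2 φ).trans (sup_le_sup_left ?_ _)) ?_)
    · exact gen_mono Set.subset_union_left φ
    · exact le_sup_of_le_right (gen_mono Set.subset_union_right φ)

/-- `b` is finitely generated modulo `b`. -/
theorem FG.of_le {B : Subring P} {w : ℕ} {b N : Pos w → AddSubgroup P} (h : N ≤ b) :
    FG S B b N :=
  ⟨∅, Set.finite_empty, fun g hg => absurd hg (Set.notMem_empty g),
    fun φ => (h φ).trans le_sup_left⟩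

/-- Two positions extended agree when composed with a position bounded by `n`. -/
theorem trans_ext_eq {w n : ℕ} (φ0 : Pos w) (hφ : ∀ k, φ0 k < n) (σ τ : ℕ ↪o ℕ)
    (h : ∀ i, i < n → σ i = τ i) : φ0.trans σ = φ0.trans τ := by
  ext k
  exact h _ (hφ k)

theorem exists_bound {w : ℕ} (φ0 : Pos w) : ∃ n, ∀ k, φ0 k < n :=
  ⟨Finset.univ.sup (fun k => φ0 k) + 1, fun k =>
    Nat.lt_succ_of_le (Finset.le_sup (f := fun k => (φ0 k : ℕ)) (Finset.mem_univ k))⟩

/-- An increasing map restricted to `[0, n)`. -/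
def res (n : ℕ) (τ : ℕ ↪o ℕ) : Pos n :=
  OrderEmbedding.ofStrictMono (fun i : Fin n => τ i) (fun _ _ h => τ.strictMono h)

@[simp] theorem res_apply (n : ℕ) (τ : ℕ ↪o ℕ) (i : Fin n) : res n τ i = τ i := rfl

theorem ext_res (n : ℕ) (τ : ℕ ↪o ℕ) (i : ℕ) (h : i < n) : ext (res n τ) i = τ i := by
  rw [ext_apply _ _ h]
  rfl

/-- `p` only depends on the indices in `F`. -/
def SuppOn (S : Sit P) (F : Finset ℕ) (p : P) : Prop :=
  ∀ σ τ : ℕ → ℕ, (∀ i ∈ F, σ i = τ i) → S.act σ p = S.act τ p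

theorem Supp.suppOn {n : ℕ} {p : P} (h : Supp S n p) : SuppOn S (Finset.range n) p :=
  fun σ τ hst => h σ τ (fun i hi => hst i (Finset.mem_range.mpr hi))

theorem SuppOn.act {F : Finset ℕ} {p : P} (h : SuppOn S F p) (θ : ℕ → ℕ) :
    SuppOn S (F.image θ) (S.act θ p) := by
  intro α β hab
  rw [act_comp_apply, act_comp_apply]
  exact h _ _ (fun i hi => hab _ (Finset.mem_image_of_mem θ hi))

end MPf70651
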