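import Pool.Agent.Lib_MP_f70651_al.Defs

/-!
# MP_f70651_al : piece DETLEM, bordered minors of a matrix of rank `ρ` off the diagonal
-/

namespace MPf70651

open Matrix Finset

section DetLem

variable {T : Type} [CommRing T]

/-- if all minors of size `ρ + 1` vanish, so do all larger ones -/
theorem det_big {ι κ : Type} (N : Matrix ι κ T) (ρ : ℕ)
    (hN : ∀ (r : Fin (ρ + 1) → ι) (c : Fin (ρ + 1) → κ), (N.submatrix r c).det = 0)
    (n : ℕ) (hn : ρ + 1 ≤ n) : ∀ (r : Fin n → ι) (c : Fin n → κ), (N.submatrix r c).det = 0 := by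
  induction n, hn using Nat.le_induction with
  | base => exact hN
  | succ n hn ih =>
    intro r c
    rw [det_succ_row_zero]
    refine Finset.sum_eq_zero fun j _ => ?_
    have h : ((N.submatrix r c).submatrix Fin.succ j.succAbove) =
        N.submatrix (r ∘ Fin.succ) (c ∘ j.succAbove) := rfl
    rw [h, ih, mul_zero]

theorem det_big' {ι α : Type} [Fintype α] [DecidableEq α] (N : Matrix ι ι T) (ρ : ℕ)
    (hN : ∀ r c : Fin (ρ + 1) → ι, (N.submatrix r c).det = 0)
    (h : ρ + 1 ≤ Fintype.card α) (r c : α → ι) : (N.submatrix r c).det = 0 := by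
  have e := (Fintype.equivFin α).symm
  rw [← Matrix.det_submatrix_equiv_self e, Matrix.submatrix_submatrix]
  exact det_big N ρ hN _ h _ _

/-- expansion of the determinant of the sum of a diagonal matrix and a matrix -/
theorem det_diag_add {ι : Type} [Fintype ι] [DecidableEq ι] (d : ι → T) (N : Matrix ι ι T) :
    (Matrix.diagonal d + N).det =
      ∑ s : Finset ι, (∏ i ∈ s, d i) * (toSquareBlockProp N (fun i => ¬ i ∈ s)).det := by
  have h := (detRowAlternating : (ι → T) [⋀^ι]→ₗ[T] T).map_add_univ (Matrix.diagonal d) N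
  refine h.trans (Finset.sum_congr rfl fun s _ => ?_)
  have h1 := twoBlockTriangular_det' (s.piecewise (Matrix.diagonal d) N : Matrix ι ι T)
    (fun i => i ∈ s) (by
      intro i hi j hj
      rw [Finset.piecewise_eq_of_mem _ _ _ hi]
      exact Matrix.diagonal_apply_ne _ (fun hij => hj (hij ▸ hi)))
  refine h1.trans ?_
  congr 1
  · have h2 : toSquareBlockProp (s.piecewise (Matrix.diagonal d) N : Matrix ι ι T) (fun i => i ∈ s) =
        Matrix.diagonal (fun i : {i // i ∈ s} => d i) := by
      ext i j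
      simp only [toSquareBlockProp_def, Matrix.of_apply]
      rw [Finset.piecewise_eq_of_mem _ _ _ i.2]
      by_cases hij : i = j
      · subst hij; simp
      · rw [Matrix.diagonal_apply_ne _ hij, Matrix.diagonal_apply_ne]
        exact fun h => hij (Subtype.ext h)
    have h3 : ∀ (F : Fintype {i // i ∈ s}),
        (Matrix.diagonal (fun i : {i // i ∈ s} => d i)).det = ∏ i ∈ s, d i := by
      intro F
      rw [Matrix.det_diagonal]
      exact (Finset.prod_subtype s (fun _ => Iff.rfl) d).symm
    rw [h2]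
    exact h3 _
  · congr 1
    ext i j
    simp only [toSquareBlockProp_def, Matrix.of_apply]
    rw [Finset.piecewise_eq_of_notMem _ _ _ i.2]

/-- the determinant of a product through a matrix whose maximal minors vanish -/
theorem det_mul_vanish {κ : Type} [Fintype κ] {n : ℕ} (A : Matrix (Fin n) κ T)
    (B : Matrix κ (Fin n) T) (hB : ∀ f : Fin n → κ, (B.submatrix f id).det = 0) :
    (A * B).det = 0 := by
  classical
  have h1 : (A * B) = fun a => ∑ k, A a k • B k := by
    ext a b
    simp [Matrix.mul_apply, Finset.sum_apply]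
  have h2 := (detRowAlternating : (Fin n → T) [⋀^Fin n]→ₗ[T] T).toMultilinearMap.map_sum
    (fun (a : Fin n) (k : κ) => A a k • B k)
  rw [h1]
  refine h2.trans (Finset.sum_eq_zero fun f _ => ?_)
  have h3 := Matrix.det_mul_column (fun a => A a (f a)) (B.submatrix f id)
  rw [hB, mul_zero] at h3
  exact h3

/-- the determinant of a matrix `diagonal + N` where the diagonal part has `q` nonzero entries and
`N` has rank at most `ρ` in the sense of minors -/
theorem det_diag_add_rank {q ρ : ℕ} (δ : Fin q → T) (N : Matrix (Fin q ⊕ Fin ρ) (Fin q ⊕ Fin ρ) T)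
    (hN : ∀ r c : Fin (ρ + 1) → Fin q ⊕ Fin ρ, (N.submatrix r c).det = 0) :
    (Matrix.diagonal (Sum.elim δ fun _ => 0) + N).det =
      (∏ p, δ p) * (N.submatrix Sum.inr Sum.inr).det := by
  classical
  rw [det_diag_add]
  set s0 : Finset (Fin q ⊕ Fin ρ) := Finset.univ.map Function.Embedding.inl with hs0
  have hmem : ∀ i, i ∈ s0 ↔ ∃ p, i = Sum.inl p := by
    intro i
    rw [hs0, Finset.mem_map]
    constructor
    · rintro ⟨p, -, rfl⟩; exact ⟨p, rfl⟩
    · rintro ⟨p, rfl⟩; exact ⟨p, Finset.mem_univ _, rfl⟩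
  rw [Finset.sum_eq_single s0]
  · congr 1
    · rw [hs0, Finset.prod_map]
      rfl
    · have hinr : ∀ a : Fin ρ, ¬ (Sum.inr a : Fin q ⊕ Fin ρ) ∈ s0 := by
        intro a h
        obtain ⟨p, hp⟩ := (hmem _).1 h
        exact Sum.inr_ne_inl hp
      let e : Fin ρ ≃ {i : Fin q ⊕ Fin ρ // ¬ i ∈ s0} := Equiv.ofBijective
        (fun a => ⟨Sum.inr a, hinr a⟩) ⟨fun a b h => by
          have := congrArg Subtype.val h
          exact Sum.inr_injective this, fun ⟨i, hi⟩ => by
          rcases i with p | a
          · exact absurd ((hmem _).2 ⟨p, rfl⟩) hi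
          · exact ⟨a, rfl⟩⟩
      rw [← Matrix.det_submatrix_equiv_self e]
      rfl
  · intro s _ hs
    by_cases hex : ∃ a : Fin ρ, (Sum.inr a : Fin q ⊕ Fin ρ) ∈ s
    · obtain ⟨a, ha⟩ := hex
      rw [Finset.prod_eq_zero ha rfl, zero_mul]
    · push Not at hex
      have hsub : s ⊂ s0 := by
        refine Finset.ssubset_iff_subset_ne.2 ⟨fun i hi => ?_, hs⟩
        rcases i with p | a
        · exact (hmem _).2 ⟨p, rfl⟩
        · exact absurd hi (hex a)
      have hcard : s.card < q := by
        have := Finset.card_lt_card hsub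
        rw [hs0, Finset.card_map, Finset.card_univ, Fintype.card_fin] at this
        exact this
      have h0 : (toSquareBlockProp N fun i => ¬ i ∈ s).det = 0 := by
        refine det_big' N ρ hN ?_ Subtype.val Subtype.val
        rw [Fintype.card_subtype_compl, Fintype.card_sum, Fintype.card_fin, Fintype.card_fin]
        simp only [Fintype.card_coe]
        omega
      rw [h0, mul_zero]
  · intro h
    exact absurd (Finset.mem_univ _) h

theorem det_lemma {T : Type} [CommRing T] (y : ℕ → ℕ → T) (ρ : ℕ)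
    (H : ∀ R C : Fin (ρ + 1) → ℕ, (∀ a b, R a ≠ C b) →
      (Matrix.of fun a b => y (R a) (C b)).det = 0)
    (q : ℕ) (k : Fin q → ℕ) (R C : Fin q → Fin ρ → ℕ) (Rs Cs : Fin ρ → ℕ)
    (hk : Function.Injective k) (h1 : ∀ p p' a, R p a ≠ k p') (h2 : ∀ p a b, R p a ≠ Cs b)
    (h3 : ∀ p b, k p ≠ C p b) (h4 : ∀ p a b, R p a ≠ C p b) (h5 : ∀ p a, Rs a ≠ k p)
    (h6 : ∀ p b, k p ≠ Cs b) (h7 : ∀ a b, Rs a ≠ Cs b) :
    (∏ p, (Matrix.of fun a b => y (R p a) (C p b)).det) *
      (Matrix.of fun a b : Fin q ⊕ Fin ρ => y (Sum.elim k Rs a) (Sum.elim k Cs b)).det =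
    (∏ p, (Matrix.of fun a b : Fin (ρ + 1) =>
      y ((Fin.cons (k p) (R p) : Fin (ρ + 1) → ℕ) a)
        ((Fin.cons (k p) (C p) : Fin (ρ + 1) → ℕ) b)).det) *
      (Matrix.of fun a b => y (Rs a) (Cs b)).det := by
  classical
  -- the bordered determinants as functions of the last column
  let Bm : Fin q → ℕ → Matrix (Fin (ρ + 1)) (Fin (ρ + 1)) T := fun p c =>
    Matrix.of fun a b : Fin (ρ + 1) => y ((Fin.cons (k p) (R p) : Fin (ρ + 1) → ℕ) a)
        ((Fin.cons c (C p) : Fin (ρ + 1) → ℕ) b)
  let Δ : Fin q → T := fun p => (Matrix.of fun a b => y (R p a) (C p b)).det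
  let δ : Fin q → T := fun p => (Bm p (k p)).det
  -- the cofactors
  let w : Fin q → Fin ρ → T := fun p a => (-1) ^ ((a.succ : Fin (ρ + 1)) : ℕ) *
    (Matrix.of fun (i : Fin ρ) (j : Fin ρ) =>
      y ((Fin.cons (k p) (R p) : Fin (ρ + 1) → ℕ) (a.succ.succAbove i)) (C p j)).det
  have hB : ∀ p c, (Bm p c).det = Δ p * y (k p) c + ∑ a, w p a * y (R p a) c := by
    intro p c
    rw [det_succ_column_zero, Fin.sum_univ_succ]
    congr 1
    · have e1 : (Bm p c).submatrix (Fin.succAbove 0) Fin.succ =
          Matrix.of fun a b => y (R p a) (C p b) := by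
        ext a b
        simp [Bm, Matrix.submatrix_apply]
      rw [e1]
      simp [Bm, Δ, mul_comm]
    · refine Finset.sum_congr rfl fun a _ => ?_
      have e1 : (Bm p c).submatrix (Fin.succAbove a.succ) Fin.succ =
          Matrix.of fun (i : Fin ρ) (j : Fin ρ) =>
            y ((Fin.cons (k p) (R p) : Fin (ρ + 1) → ℕ) (a.succ.succAbove i)) (C p j) := by
        ext i j
        simp [Bm, Matrix.submatrix_apply]
      rw [e1]
      simp only [Bm, w, Matrix.of_apply, Fin.cons_succ, Fin.cons_zero]
      ring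
  have hBzero : ∀ p c, (k p ≠ c) → (∀ a, R p a ≠ c) → (Bm p c).det = 0 := by
    intro p c hc1 hc2
    refine H _ _ fun a b => ?_
    refine Fin.cases ?_ (fun a => ?_) a
    · refine Fin.cases ?_ (fun b => ?_) b
      · simpa using hc1
      · simpa using h3 p b
    · refine Fin.cases ?_ (fun b => ?_) b
      · simpa using hc2 a
      · simpa using h4 p a b
  -- the low rank part
  let Y : Matrix ((Fin q × Fin ρ) ⊕ Fin ρ) (Fin q ⊕ Fin ρ) T := Matrix.of fun a b =>
    y (Sum.elim (fun x => R x.1 x.2) Rs a) (Sum.elim k Cs b)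
  let W : Matrix (Fin q ⊕ Fin ρ) ((Fin q × Fin ρ) ⊕ Fin ρ) T := Matrix.of fun i j =>
    Sum.elim (fun p => Sum.elim (fun x : Fin q × Fin ρ => if x.1 = p then -w p x.2 else 0)
      (fun _ => 0) j) (fun a => Sum.elim (fun _ => 0) (fun b => if b = a then 1 else 0) j) i
  have hWY1 : ∀ p b, (W * Y) (Sum.inl p) b = -∑ a, w p a * y (R p a) (Sum.elim k Cs b) := by
    intro p b
    rw [Matrix.mul_apply, Fintype.sum_sum_type, Fintype.sum_prod_type]
    simp only [W, Y, Matrix.of_apply, Sum.elim_inl, Sum.elim_inr, zero_mul, Finset.sum_const_zero,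
      add_zero]
    rw [Finset.sum_eq_single p]
    · simp
    · intro p' _ hp'
      simp [hp']
    · intro h; exact absurd (Finset.mem_univ _) h
  have hWY2 : ∀ a b, (W * Y) (Sum.inr a) b = y (Rs a) (Sum.elim k Cs b) := by
    intro a b
    rw [Matrix.mul_apply, Fintype.sum_sum_type]
    simp [W, Y]
  have hminor : ∀ r c : Fin (ρ + 1) → Fin q ⊕ Fin ρ, ((W * Y).submatrix r c).det = 0 := by
    intro r c
    have e1 : (W * Y).submatrix r c = W.submatrix r id * Y.submatrix id c := by
      rw [← Matrix.submatrix_mul_equiv W Y r (Equiv.refl _) c]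
      rfl
    rw [e1]
    refine det_mul_vanish _ _ fun f => ?_
    refine H (fun a => Sum.elim (fun x => R x.1 x.2) Rs (f a)) (fun b => Sum.elim k Cs (c b)) ?_
    intro a b
    rcases f a with ⟨p, a'⟩ | a'
    · rcases c b with p' | b'
      · exact h1 p p' a'
      · exact h2 p a' b'
    · rcases c b with p' | b'
      · exact h5 p' a'
      · exact h7 a' b'
  have hmain : (Matrix.of fun a b : Fin q ⊕ Fin ρ =>
      Sum.elim Δ (fun _ => (1:T)) a * (Matrix.of fun a b : Fin q ⊕ Fin ρ =>
        y (Sum.elim k Rs a) (Sum.elim k Cs b)) a b) =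
      Matrix.diagonal (Sum.elim δ fun _ => 0) + W * Y := by
    ext a b
    rw [Matrix.add_apply, Matrix.of_apply, Matrix.of_apply]
    rcases a with p | a
    · rw [hWY1]
      simp only [Sum.elim_inl]
      have hBp := hB p (Sum.elim k Cs b)
      by_cases hb : b = Sum.inl p
      · subst hb
        rw [Matrix.diagonal_apply_eq]
        simp only [Sum.elim_inl] at hBp ⊢
        change δ p = _ at hBp
        rw [hBp]; ring
      · rw [Matrix.diagonal_apply_ne _ (Ne.symm hb)]
        have hz : (Bm p (Sum.elim k Cs b)).det = 0 := by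
          refine hBzero p _ ?_ ?_
          · rcases b with p' | b'
            · intro h
              exact hb (congrArg Sum.inl (hk h).symm)
            · exact h6 p b'
          · intro a'
            rcases b with p' | b'
            · exact h1 p p' a'
            · exact h2 p a' b'
        rw [hz] at hBp
        linear_combination -hBp
    · rw [hWY2]
      simp only [Sum.elim_inr, one_mul]
      by_cases hb : b = Sum.inr a
      · subst hb
        simp
      · rw [Matrix.diagonal_apply_ne _ (Ne.symm hb), zero_add]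
  have hdet := Matrix.det_mul_column (Sum.elim Δ (fun _ => (1:T)))
    (Matrix.of fun a b : Fin q ⊕ Fin ρ => y (Sum.elim k Rs a) (Sum.elim k Cs b))
  rw [hmain, det_diag_add_rank δ (W * Y) hminor, Fintype.prod_sum_type] at hdet
  simp only [Sum.elim_inl, Sum.elim_inr, Finset.prod_const_one, mul_one] at hdet
  have hsub : (W * Y).submatrix Sum.inr Sum.inr = Matrix.of fun a b => y (Rs a) (Cs b) := by
    ext a b
    rw [Matrix.submatrix_apply, hWY2]
    rfl
  rw [hsub] at hdet
  exact hdet.symm

end DetLem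

end MPf70651
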