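import Pool.Agent.Lib_MP_f70651_al.Prime
import Pool.Agent.Lib_MP_f70651_al.DetLem

/-!
# MP_f70651_al : the block relation (piece BLOCK)
-/

namespace MPf70651

section abstractPart

variable {P : Type} [CommRing P] {S : Sit P}

/-! ### BLOCK -/

/-- The minor with rows `s` and columns `t`. -/
noncomputable def blkD (S : Sit P) {n : Type} [Fintype n] [DecidableEq n] (s t : n → ℕ) : P :=
  (Matrix.of fun a b => S.y (s a) (t b)).det

theorem blk_act {n : Type} [Fintype n] [DecidableEq n] (s t : n → ℕ) (σ : ℕ → ℕ) :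
    S.act σ (blkD S s t) = blkD S (fun a => σ (s a)) (fun b => σ (t b)) := by
  unfold blkD
  rw [RingHom.map_det]
  congr 1
  ext a b
  simp [S.act_y]

theorem blk_det_mem (B : Subring P) {n : Type} [Fintype n] [DecidableEq n] (M : Matrix n n P)
    (h : ∀ a b, M a b ∈ B) : M.det ∈ B := by
  rw [Matrix.det_apply]
  refine B.sum_mem fun σ _ => ?_
  rw [Units.smul_def]
  exact B.zsmul_mem (B.prod_mem fun i _ => h _ _) _

theorem blk_mem' {n : Type} [Fintype n] [DecidableEq n] (s t : n → ℕ) :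
    blkD S s t ∈ S.A' :=
  blk_det_mem _ _ fun _ _ => S.y_mem' _ _

theorem blk_mem {n : Type} [Fintype n] [DecidableEq n] (s t : n → ℕ) (h : ∀ a b, s a ≠ t b) :
    blkD S s t ∈ S.A :=
  blk_det_mem _ _ fun a b => S.y_mem _ _ (h a b)

theorem blk_inj {n : Type} [Fintype n] [DecidableEq n] (s t : n → ℕ) (h : blkD S s t ≠ 0) :
    Function.Injective s ∧ Function.Injective t := by
  constructor
  · intro a b hab
    by_contra hne
    apply h
    exact Matrix.det_zero_of_row_eq hne (by ext c; simp [hab])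
  · intro a b hab
    by_contra hne
    apply h
    exact Matrix.det_zero_of_column_eq hne (by intro c; simp [hab])

/-- The expansion of the bordered determinant. -/
theorem blk_expand {ρ : ℕ} (R0 C0 : Fin ρ → ℕ) (m : ℕ) (hR : ∀ a, R0 a < m) (hC : ∀ b, C0 b < m)
    (hRC : ∀ a b, R0 a ≠ C0 b) :
    S.y m m * blkD S R0 C0 -
      blkD S (Fin.cons m R0 : Fin (ρ + 1) → ℕ) (Fin.cons m C0 : Fin (ρ + 1) → ℕ) ∈ S.A := by
  unfold blkD
  rw [Matrix.det_succ_row_zero (Matrix.of fun a b : Fin (ρ + 1) => S.y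
    ((Fin.cons m R0 : Fin (ρ + 1) → ℕ) a) ((Fin.cons m C0 : Fin (ρ + 1) → ℕ) b)),
    Fin.sum_univ_succ]
  have h0 : (-1 : P) ^ ((0 : Fin (ρ + 1)) : ℕ) * (Matrix.of fun a b : Fin (ρ + 1) => S.y
    ((Fin.cons m R0 : Fin (ρ + 1) → ℕ) a) ((Fin.cons m C0 : Fin (ρ + 1) → ℕ) b)) 0 0 *
    ((Matrix.of fun a b : Fin (ρ + 1) => S.y
    ((Fin.cons m R0 : Fin (ρ + 1) → ℕ) a) ((Fin.cons m C0 : Fin (ρ + 1) → ℕ) b)).submatrix
      Fin.succ (Fin.succAbove 0)).det = S.y m m * (Matrix.of fun a b => S.y (R0 a) (C0 b)).det := by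
    congr 1
    · simp
  rw [h0, sub_add_cancel_left]
  apply S.A.neg_mem
  refine S.A.sum_mem fun j _ => ?_
  refine S.A.mul_mem (S.A.mul_mem (S.A.pow_mem (S.A.neg_mem S.A.one_mem) _) ?_) ?_
  · apply S.y_mem
    simpa using (hC j).ne'
  · apply blk_det_mem
    intro a b
    apply S.y_mem
    simp only [Fin.cons_succ]
    refine Fin.cases ?_ (fun c => ?_) (Fin.succAbove j.succ b)
    · simpa using (hR a).ne
    · simpa using hRC a c

theorem exists_block {r : ℕ} (hm : Minors S r) {g : AddSubgroup P} (hg : SymPrime S g) :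
    ∃ (m : ℕ) (Δ L : P), Supp S m Δ ∧ Δ ∈ S.A ∧ L ∈ S.A ∧ Δ ∉ g ∧ S.y m m * Δ - L ∈ g := by
  classical
  -- the number `ρ`
  let Q : ℕ → Prop := fun k => ∀ R C : Fin k → ℕ, (∀ a b, R a ≠ C b) → blkD S R C ∈ g
  have hQr : Q (r + 1) := by
    intro R C _
    have : blkD S R C = 0 := hm R C
    rw [this]
    exact g.zero_mem
  have hex : ∃ k, Q k := ⟨_, hQr⟩
  have hle : Nat.find hex ≤ r + 1 := Nat.find_min' hex hQr
  have hne : Nat.find hex ≠ 0 := by
    intro h0
    have h1 : Q 0 := h0 ▸ Nat.find_spec hex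
    have h2 := h1 Fin.elim0 Fin.elim0 (fun a => a.elim0)
    unfold blkD at h2
    rw [Matrix.det_isEmpty] at h2
    exact hg.one h2
  obtain ⟨ρ, hρ⟩ := Nat.exists_eq_succ_of_ne_zero hne
  have hQ1 : Q (ρ + 1) := by
    have := Nat.find_spec hex
    rwa [hρ] at this
  have hQ0 : ¬ Q ρ := Nat.find_min hex (by omega)
  have hρr : ρ ≤ r := by omega
  simp only [Q] at hQ0
  push Not at hQ0
  obtain ⟨R0, C0, hRC, hD⟩ := hQ0
  -- the index `m`
  obtain ⟨m, hRm, hCm⟩ : ∃ m, (∀ a, R0 a < m) ∧ ∀ b, C0 b < m := by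
    refine ⟨(Finset.univ.sup R0 ⊔ Finset.univ.sup C0) + 1, fun a => ?_, fun b => ?_⟩
    · exact Nat.lt_succ_of_le ((Finset.le_sup (Finset.mem_univ a)).trans le_sup_left)
    · exact Nat.lt_succ_of_le ((Finset.le_sup (Finset.mem_univ b)).trans le_sup_right)
  set δ := blkD S (Fin.cons m R0 : Fin (ρ + 1) → ℕ) (Fin.cons m C0 : Fin (ρ + 1) → ℕ) with hδ
  have hδA : δ ∈ S.A' := blk_mem' _ _
  have hsD : Supp S m (blkD S R0 C0) := by
    intro σ τ h
    rw [blk_act, blk_act]
    congr 1
    · ext a; exact h _ (hRm a)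
    · ext a; exact h _ (hCm a)
  have hsδ : Supp S (m + 1) δ := by
    intro σ τ h
    rw [hδ, blk_act, blk_act]
    congr 1
    · ext a
      refine Fin.cases ?_ (fun c => ?_) a
      · exact h _ (by simp)
      · exact h _ (by simpa using Nat.lt_succ_of_lt (hRm c))
    · ext a
      refine Fin.cases ?_ (fun c => ?_) a
      · exact h _ (by simp)
      · exact h _ (by simpa using Nat.lt_succ_of_lt (hCm c))
  refine ⟨m, blkD S R0 C0, S.y m m * blkD S R0 C0 - δ, hsD, blk_mem _ _ hRC,
    blk_expand R0 C0 m hRm hCm hRC, hD, ?_⟩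
  rw [sub_sub_cancel]
  by_contra hδg
  -- the quotient ring
  let I : Ideal S.A' :=
    { carrier := {a | (a : P) ∈ g}
      zero_mem' := g.zero_mem
      add_mem' := fun {a b} ha hb => g.add_mem ha hb
      smul_mem' := fun c a ha => hg.smul c c.2 a ha }
  let π : S.A' →+* (S.A' ⧸ I) := Ideal.Quotient.mk I
  have hπ : ∀ a : S.A', π a = 0 ↔ (a : P) ∈ g := fun a => Ideal.Quotient.eq_zero_iff_mem
  let yA : ℕ → ℕ → S.A' := fun i j => ⟨S.y i j, S.y_mem' i j⟩
  have hdet : ∀ {n : Type} [Fintype n] [DecidableEq n] (s t : n → ℕ),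
      (Matrix.of fun a b => π (yA (s a) (t b))).det = π ⟨blkD S s t, blk_mem' s t⟩ := by
    intro n _ _ s t
    have h1 : (⟨blkD S s t, blk_mem' s t⟩ : S.A') = (Matrix.of fun a b => yA (s a) (t b)).det := by
      apply Subtype.ext
      show blkD S s t = S.A'.subtype _
      rw [RingHom.map_det]
      rfl
    rw [h1, RingHom.map_det]
    rfl
  -- the placements
  set q := r + 1 - ρ with hq
  let θ : ℕ → ℕ → ℕ := fun p i => i * (q + 1) + p
  have hθ : ∀ p p' i i', p < q + 1 → p' < q + 1 → θ p i = θ p' i' → p = p' ∧ i = i' := by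
    intro p p' i i' hp hp' h
    simp only [θ] at h
    have h1 : p = p' := by
      have := congrArg (· % (q + 1)) h
      simpa [Nat.mul_add_mod_of_lt hp, Nat.mul_add_mod_of_lt hp', Nat.mod_eq_of_lt hp,
        Nat.mod_eq_of_lt hp'] using this
    subst h1
    refine ⟨rfl, ?_⟩
    have h2 : i * (q + 1) = i' * (q + 1) := by omega
    exact Nat.eq_of_mul_eq_mul_right (Nat.succ_pos q) h2
  have hθinj : ∀ p, p < q + 1 → Function.Injective (θ p) := fun p hp i i' h =>
    (hθ p p i i' hp hp h).2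
  have key := det_lemma (fun i j => π (yA i j)) ρ
    (fun R C h => by
      rw [hdet R C, hπ]
      exact hQ1 R C h) q (fun p => θ p m) (fun p a => θ p (R0 a)) (fun p b => θ p (C0 b))
    (fun a => θ q (R0 a)) (fun b => θ q (C0 b))
    (fun p p' h => Fin.ext (hθ p p' m m (by omega) (by omega) h).1)
    (fun p p' a h => by
      have := hθ p p' _ _ (by omega) (by omega) h
      have h1 := hRm a
      omega)
    (fun p a b h => by
      have := hθ p q _ _ (by omega) (by omega) h
      omega)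
    (fun p b h => by
      have := hθ p p _ _ (by omega) (by omega) h
      have h1 := hCm b
      omega)
    (fun p a b h => hRC a b (hθ p p _ _ (by omega) (by omega) h).2)
    (fun p a h => by
      have := hθ q p _ _ (by omega) (by omega) h
      omega)
    (fun p b h => by
      have := hθ p q _ _ (by omega) (by omega) h
      omega)
    (fun a b h => hRC a b (hθ q q _ _ (by omega) (by omega) h).2)
  -- the big determinant vanishes
  have hbig : (Matrix.of fun a b : Fin q ⊕ Fin ρ =>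
      π (yA (Sum.elim (fun p : Fin q => θ p m) (fun a => θ q (R0 a)) a)
        (Sum.elim (fun p : Fin q => θ p m) (fun b => θ q (C0 b)) b))).det = 0 := by
    rw [hdet, hπ]
    have e : Fin (r + 1) ≃ Fin q ⊕ Fin ρ :=
      (finCongr (by omega : r + 1 = q + ρ)).trans finSumFinEquiv.symm
    have h1 : blkD S (Sum.elim (fun p : Fin q => θ p m) (fun a : Fin ρ => θ q (R0 a)))
        (Sum.elim (fun p : Fin q => θ p m) (fun b : Fin ρ => θ q (C0 b))) = 0 := by
      unfold blkD
      rw [← Matrix.det_submatrix_equiv_self e]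
      exact hm (fun a => Sum.elim (fun p : Fin q => θ p m) (fun a => θ q (R0 a)) (e a))
        (fun a => Sum.elim (fun p : Fin q => θ p m) (fun b => θ q (C0 b)) (e a))
    show blkD S _ _ ∈ g
    rw [h1]
    exact g.zero_mem
  rw [hbig, mul_zero] at key
  -- the product
  let a : Fin (q + 1) → P := fun p =>
    if (p : ℕ) = q then S.act (θ p) (blkD S R0 C0) else S.act (θ p) δ
  have haA : ∀ p, a p ∈ S.A' := by
    intro p
    simp only [a]
    split_ifs
    · exact S.act_A' _ (hθinj p p.2) _ (blk_mem' _ _)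
    · exact S.act_A' _ (hθinj p p.2) _ hδA
  have hprod := hg.prod_not_mem (Finset.univ : Finset (Fin (q + 1)))
    (fun p => (Finset.range (m + 1)).image (θ p)) a (fun p _ => haA p) (fun p _ => by
      simp only [a]
      split_ifs
      · exact hg.act_not_mem hD _ (hθinj p p.2)
      · exact hg.act_not_mem hδg _ (hθinj p p.2)) (fun p _ => by
      simp only [a]
      split_ifs
      · exact SuppOn.act (hsD.mono (Nat.le_succ m)).suppOn _
      · exact SuppOn.act hsδ.suppOn _) (fun p _ p' _ hpp => by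
      rw [Finset.disjoint_left]
      intro x hx hx'
      rw [Finset.mem_image] at hx hx'
      obtain ⟨i, _, rfl⟩ := hx
      obtain ⟨i', _, h⟩ := hx'
      exact hpp (Fin.ext (hθ p' p _ _ p'.2 p.2 h).1.symm))
  apply hprod
  rw [Fin.prod_univ_castSucc]
  have h1 : ∀ p : Fin q, (Matrix.of fun a b : Fin (ρ + 1) =>
      π (yA ((Fin.cons (θ p m) (fun a => θ p (R0 a)) : Fin (ρ + 1) → ℕ) a)
        ((Fin.cons (θ p m) (fun b => θ p (C0 b)) : Fin (ρ + 1) → ℕ) b))).det =
      π ⟨a p.castSucc, haA _⟩ := by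
    intro p
    rw [hdet]
    congr 1
    apply Subtype.ext
    have h2 : ((p.castSucc : Fin (q + 1)) : ℕ) ≠ q := by simpa using p.2.ne
    show blkD S _ _ = a p.castSucc
    simp only [a, if_neg h2]
    rw [hδ, blk_act]
    congr 1
    · ext c
      refine Fin.cases ?_ (fun c => ?_) c <;> simp
    · ext c
      refine Fin.cases ?_ (fun c => ?_) c <;> simp
  have h2 : (Matrix.of fun a b => π (yA (θ q (R0 a)) (θ q (C0 b)))).det =
      π ⟨a (Fin.last q), haA _⟩ := by
    rw [hdet]
    congr 1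
    apply Subtype.ext
    show blkD S _ _ = a (Fin.last q)
    simp only [a, Fin.val_last, if_true]
    rw [blk_act]
  rw [Finset.prod_congr rfl (fun p _ => h1 p), h2, ← map_prod, ← map_mul] at key
  have h3 := (hπ _).mp key.symm
  have h4 : ((∏ p : Fin q, (⟨a p.castSucc, haA _⟩ : S.A') : S.A') : P) =
      ∏ p : Fin q, a p.castSucc := by
    show S.A'.subtype _ = _
    rw [map_prod]
    rfl
  rw [← h4]
  exact h3

end abstractPart

end MPf70651
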