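import Pool.Agent.Lib_MP_f70651_al.Defs

/-!
# MP_f70651_al : PIECE BOUND
-/

namespace MPf70651

variable {P : Type} [CommRing P] {S : Sit P}

/-- the span of the short monomials -/
def bdM (S : Sit P) (s : ℕ) : AddSubgroup P :=
  AddSubgroup.closure
    {x | ∃ c ∈ S.A, ∃ l : List ℕ, l.length ≤ s ∧ x = c * (l.map (fun i => S.y i i)).prod}

theorem bdM_smul {s : ℕ} {a x : P} (ha : a ∈ S.A) (hx : x ∈ bdM S s) : a * x ∈ bdM S s := by
  unfold bdM at hx ⊢
  induction hx using AddSubgroup.closure_induction with
  | mem x hx =>
    obtain ⟨c, hc, l, hl, rfl⟩ := hx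
    exact AddSubgroup.subset_closure ⟨a * c, S.A.mul_mem ha hc, l, hl, by ring⟩
  | zero => rw [mul_zero]; exact AddSubgroup.zero_mem _
  | add x y _ _ h1 h2 => rw [mul_add]; exact AddSubgroup.add_mem _ h1 h2
  | neg x _ h1 => rw [mul_neg]; exact AddSubgroup.neg_mem _ h1

theorem bd_int {E : ℕ} {c : Fin E → P} (hcA : ∀ k, c k ∈ S.A)
    (hint : S.y 0 0 ^ E = ∑ k, c k * S.y 0 0 ^ (k : ℕ)) (i : ℕ) :
    ∃ c' : Fin E → P, (∀ k, c' k ∈ S.A) ∧
      S.y i i ^ E = ∑ k, c' k * S.y i i ^ (k : ℕ) := by
  let σ : ℕ → ℕ := Equiv.swap 0 i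
  have hσ : Function.Injective σ := (Equiv.swap 0 i).injective
  have h0 : σ 0 = i := Equiv.swap_apply_left 0 i
  refine ⟨fun k => S.act σ (c k), fun k => S.act_A σ hσ _ (hcA k), ?_⟩
  have := congrArg (S.act σ) hint
  simpa only [map_pow, map_sum, map_mul, S.act_y, h0] using this

/-- expansion of the product of the diagonal entries when the minors vanish -/
theorem bd_det {r : ℕ} (hm : Minors S r) (K : Fin (r + 1) → ℕ) (hK : Function.Injective K) :
    ∏ a, S.y (K a) (K a) = - ∑ σ ∈ (Finset.univ : Finset (Equiv.Perm (Fin (r + 1)))).erase 1,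
      ((Equiv.Perm.sign σ : ℤ) : P) * (∏ a ∈ Finset.univ.filter (fun a => σ a ≠ a), S.y (K (σ a)) (K a))
        * ∏ a ∈ Finset.univ.filter (fun a => ¬ (σ a ≠ a)), S.y (K a) (K a) := by
  have h := hm K K
  rw [Matrix.det_apply'] at h
  rw [← Finset.add_sum_erase _ _ (Finset.mem_univ (1 : Equiv.Perm (Fin (r + 1))))] at h
  simp only [Equiv.Perm.sign_one, Units.val_one, Int.cast_one, one_mul, Matrix.of_apply,
    Equiv.Perm.coe_one, id_eq] at h
  rw [eq_neg_iff_add_eq_zero, ← h]
  congr 1
  apply Finset.sum_congr rfl
  intro σ _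
  rw [mul_assoc]
  congr 1
  rw [← Finset.prod_filter_mul_prod_filter_not Finset.univ (fun a => σ a ≠ a)]
  congr 1
  apply Finset.prod_congr rfl
  intro a ha
  rw [Finset.mem_filter, not_not] at ha
  rw [ha.2]

theorem bd_all {r : ℕ} (hm : Minors S r) {E : ℕ} {c : Fin E → P} (hcA : ∀ k, c k ∈ S.A)
    (hint : S.y 0 0 ^ E = ∑ k, c k * S.y 0 0 ^ (k : ℕ)) :
    ∀ (n : ℕ) (m : Multiset ℕ), Multiset.card m = n →
      (m.map (fun i => S.y i i)).prod ∈ bdM S (r * E) := by
  classical
  intro n
  induction n using Nat.strong_induction_on with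
  | _ n ih =>
  intro m hmn
  by_cases hle : n ≤ r * E
  · unfold bdM
    apply AddSubgroup.subset_closure
    refine ⟨1, S.A.one_mem, m.toList, ?_, ?_⟩
    · rw [Multiset.length_toList, hmn]
      exact hle
    · rw [one_mul]
      conv_lhs => rw [← Multiset.coe_toList m]
      rw [Multiset.map_coe, Multiset.prod_coe]
  · push Not at hle
    by_cases hcount : ∃ i, E ≤ m.count i
    · obtain ⟨i, hi⟩ := hcount
      rw [Multiset.le_count_iff_replicate_le, Multiset.le_iff_exists_add] at hi
      obtain ⟨m', hm'⟩ := hi
      obtain ⟨c', hc', hint'⟩ := bd_int hcA hint i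
      rw [hm', Multiset.map_add, Multiset.prod_add, Multiset.map_replicate,
        Multiset.prod_replicate, hint', Finset.sum_mul]
      apply AddSubgroup.sum_mem
      intro k _
      have h1 : c' k * S.y i i ^ (k : ℕ) * (m'.map (fun i => S.y i i)).prod =
          c' k * ((Multiset.replicate (k : ℕ) i + m').map (fun i => S.y i i)).prod := by
        rw [Multiset.map_add, Multiset.prod_add, Multiset.map_replicate,
          Multiset.prod_replicate]
        ring
      rw [h1]
      apply bdM_smul (hc' k)
      apply ih _ _ _ rfl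
      rw [Multiset.card_add, Multiset.card_replicate]
      rw [hm', Multiset.card_add, Multiset.card_replicate] at hmn
      have := k.2
      omega
    · push Not at hcount
      have hsup : r + 1 ≤ m.toFinset.card := by
        by_contra hcon
        push Not at hcon
        have h1 := Multiset.toFinset_sum_count_eq m
        have h2 : ∑ a ∈ m.toFinset, m.count a ≤ ∑ a ∈ m.toFinset, E :=
          Finset.sum_le_sum fun a _ => (hcount a).le
        rw [Finset.sum_const, smul_eq_mul] at h2
        have h3 : m.toFinset.card * E ≤ r * E := Nat.mul_le_mul_right _ (by omega)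
        omega
      obtain ⟨t, ht, htc⟩ := Finset.exists_subset_card_eq hsup
      have htm : t.val ≤ m := by
        rw [Multiset.le_iff_subset t.nodup]
        intro a ha
        exact Multiset.mem_toFinset.1 (ht ha)
      rw [Multiset.le_iff_exists_add] at htm
      obtain ⟨m', hm'⟩ := htm
      let K : Fin (r + 1) → ℕ := fun a => t.orderEmbOfFin htc a
      have hK : Function.Injective K := (t.orderEmbOfFin htc).injective
      have himg : t.val = Multiset.map K Finset.univ.val := by
        have h1 : t = Finset.univ.map (t.orderEmbOfFin htc).toEmbedding := by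
          rw [Finset.map_orderEmbOfFin_univ]
        conv_lhs => rw [h1]
        rw [Finset.map_val]
        rfl
      have hprod : (t.val.map (fun i => S.y i i)).prod = ∏ a, S.y (K a) (K a) := by
        rw [himg, Multiset.map_map]
        rfl
      rw [hm', Multiset.map_add, Multiset.prod_add, hprod, bd_det hm K hK, neg_mul,
        Finset.sum_mul]
      apply AddSubgroup.neg_mem
      apply AddSubgroup.sum_mem
      intro σ hσ
      set Fx : Finset (Fin (r + 1)) := Finset.univ.filter (fun a => ¬ (σ a ≠ a)) with hFx
      have h1 : ((Equiv.Perm.sign σ : ℤ) : P) *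
            (∏ a ∈ Finset.univ.filter (fun a => σ a ≠ a), S.y (K (σ a)) (K a))
            * (∏ a ∈ Fx, S.y (K a) (K a)) * (m'.map (fun i => S.y i i)).prod =
          (((Equiv.Perm.sign σ : ℤ) : P) *
            (∏ a ∈ Finset.univ.filter (fun a => σ a ≠ a), S.y (K (σ a)) (K a))) *
          ((Multiset.map K Fx.val + m').map (fun i => S.y i i)).prod := by
        rw [Multiset.map_add, Multiset.prod_add, Multiset.map_map]
        have : (Multiset.map ((fun i => S.y i i) ∘ K) Fx.val).prod = ∏ a ∈ Fx, S.y (K a) (K a) :=
          rfl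
        rw [this]
        ring
      rw [h1]
      apply bdM_smul
      · apply S.A.mul_mem (intCast_mem _ _)
        apply Subring.prod_mem
        intro a ha
        rw [Finset.mem_filter] at ha
        exact S.y_mem _ _ fun h => ha.2 (hK h)
      · apply ih _ _ _ rfl
        rw [Multiset.card_add, Multiset.card_map]
        rw [hm', Multiset.card_add] at hmn
        have h2 : Multiset.card t.val = r + 1 := htc
        have h3 : Fx.card < r + 1 := by
          have h4 : Fx ⊂ Finset.univ := by
            rw [Finset.ssubset_univ_iff]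
            intro h5
            apply (Finset.mem_erase.1 hσ).1
            ext a
            have h6 : a ∈ Fx := by rw [h5]; exact Finset.mem_univ a
            rw [hFx, Finset.mem_filter, not_not] at h6
            rw [h6.2]
            rfl
          have h5 := Finset.card_lt_card h4
          rwa [Finset.card_univ, Fintype.card_fin] at h5
        have h7 : Multiset.card Fx.val = Fx.card := rfl
        omega

theorem exists_bdd {r : ℕ} (hm : Minors S r) (E : ℕ) (c : Fin E → P) (hcA : ∀ k, c k ∈ S.A)
    (hint : S.y 0 0 ^ E = ∑ k, c k * S.y 0 0 ^ (k : ℕ))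
    (hgen : S.A' ≤ Subring.closure ((S.A : Set P) ∪ Set.range fun i => S.y i i)) :
    ∃ s, Bdd S s := by
  refine ⟨r * E, fun a ha => ?_⟩
  have hall : ∀ l : List ℕ, (l.map (fun i => S.y i i)).prod ∈ bdM S (r * E) := by
    intro l
    have := bd_all hm hcA hint _ (l : Multiset ℕ) rfl
    rwa [Multiset.map_coe, Multiset.prod_coe] at this
  have hmul : ∀ x ∈ bdM S (r * E), ∀ y ∈ bdM S (r * E), x * y ∈ bdM S (r * E) := by
    intro x hx y hy
    unfold bdM at hx
    induction hx using AddSubgroup.closure_induction with
    | mem x hx =>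
      obtain ⟨c1, hc1, l1, -, rfl⟩ := hx
      unfold bdM at hy
      induction hy using AddSubgroup.closure_induction with
      | mem y hy =>
        obtain ⟨c2, hc2, l2, -, rfl⟩ := hy
        have h1 : c1 * (l1.map (fun i => S.y i i)).prod * (c2 * (l2.map (fun i => S.y i i)).prod) =
            (c1 * c2) * ((l1 ++ l2).map (fun i => S.y i i)).prod := by
          rw [List.map_append, List.prod_append]
          ring
        rw [h1]
        exact bdM_smul (S.A.mul_mem hc1 hc2) (hall _)
      | zero => rw [mul_zero]; exact AddSubgroup.zero_mem _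
      | add y z _ _ h1 h2 => rw [mul_add]; exact AddSubgroup.add_mem _ h1 h2
      | neg y _ h1 => rw [mul_neg]; exact AddSubgroup.neg_mem _ h1
    | zero => rw [zero_mul]; exact AddSubgroup.zero_mem _
    | add x z _ _ h1 h2 => rw [add_mul]; exact AddSubgroup.add_mem _ h1 h2
    | neg x _ h1 => rw [neg_mul]; exact AddSubgroup.neg_mem _ h1
  have hone : (1 : P) ∈ bdM S (r * E) := by
    have := hall []
    simpa using this
  have key : a ∈ bdM S (r * E) := by
    have h1 := hgen ha
    clear ha
    induction h1 using Subring.closure_induction with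
    | mem x hx =>
      rcases hx with hx | ⟨i, rfl⟩
      · have := bdM_smul hx hone
        rwa [mul_one] at this
      · have := hall [i]
        simpa using this
    | zero => exact AddSubgroup.zero_mem _
    | one => exact hone
    | add x y _ _ h1 h2 => exact AddSubgroup.add_mem _ h1 h2
    | neg x _ h1 => exact AddSubgroup.neg_mem _ h1
    | mul x y _ _ h1 h2 => exact hmul x h1 y h2
  exact key

end MPf70651
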