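import Pool.Agent.Lib_MP_f70651_al.DefsTwo

/-!
# MP_f70651_al : the Fischer inner product gives a retraction
-/

namespace MPf70651

open MvPolynomial

/-- The weight `m!` of a monomial. -/
noncomputable def fisW {σ : Type} (m : σ →₀ ℕ) : ℂ := m.prod fun _ k => (k.factorial : ℂ)

theorem fisW_eq {σ : Type} (m : σ →₀ ℕ) :
    fisW m = ((m.prod fun _ k => (k.factorial : ℕ) : ℕ) : ℂ) := by
  unfold fisW Finsupp.prod
  push_cast
  rfl

theorem fisW_pos {σ : Type} (m : σ →₀ ℕ) : 0 < (m.prod fun _ k => (k.factorial : ℕ) : ℕ) :=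
  Finset.prod_pos fun _ _ => Nat.factorial_pos _

theorem fisW_single_add {σ : Type} (v : σ) (m : σ →₀ ℕ) :
    fisW (Finsupp.single v 1 + m) = ((m v : ℂ) + 1) * fisW m := by
  classical
  unfold fisW
  set S : Finset σ := insert v m.support with hS
  have h1 : ((Finsupp.single v 1 + m).prod fun _ k => (k.factorial : ℂ)) =
      ∏ i ∈ S, (((Finsupp.single v 1 + m : σ →₀ ℕ) i).factorial : ℂ) := by
    apply Finsupp.prod_of_support_subset
    · intro i hi
      rw [hS, Finset.mem_insert]
      have := Finsupp.support_add hi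
      rw [Finset.mem_union] at this
      rcases this with h | h
      · left
        have := Finsupp.support_single_subset h
        simpa using this
      · right; exact h
    · intro i _
      simp
  have h2 : (m.prod fun _ k => (k.factorial : ℂ)) = ∏ i ∈ S, ((m i).factorial : ℂ) := by
    apply Finsupp.prod_of_support_subset
    · exact Finset.subset_insert _ _
    · intro i _
      simp
  rw [h1, h2, ← Finset.mul_prod_erase S _ (show v ∈ S by rw [hS]; exact Finset.mem_insert_self _ _),
    ← Finset.mul_prod_erase S _ (show v ∈ S by rw [hS]; exact Finset.mem_insert_self _ _)]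
  have h3 : ∏ i ∈ S.erase v, (((Finsupp.single v 1 + m : σ →₀ ℕ) i).factorial : ℂ) =
      ∏ i ∈ S.erase v, ((m i).factorial : ℂ) := by
    apply Finset.prod_congr rfl
    intro i hi
    have : i ≠ v := Finset.ne_of_mem_erase hi
    rw [Finsupp.add_apply, Finsupp.single_apply, if_neg (Ne.symm this), zero_add]
  rw [h3]
  have h4 : (((Finsupp.single v 1 + m : σ →₀ ℕ) v).factorial : ℂ) =
      ((m v : ℂ) + 1) * ((m v).factorial : ℂ) := by
    rw [Finsupp.add_apply, Finsupp.single_apply, if_pos rfl, add_comm 1 (m v), Nat.factorial_succ]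
    push_cast
    ring
  rw [h4]
  ring

theorem fis_eq_sum {σ : Type} (p q : MvPolynomial σ ℂ) (s : Finset (σ →₀ ℕ))
    (h : p.support ⊆ s) :
    fis p q = ∑ m ∈ s, fisW m * (starRingEnd ℂ) (coeff m p) * coeff m q := by
  unfold fis
  apply Finset.sum_subset h
  intro m _ hm
  rw [notMem_support_iff] at hm
  rw [hm]
  simp

theorem fis_eq_sum' {σ : Type} (p q : MvPolynomial σ ℂ) (s : Finset (σ →₀ ℕ))
    (h : q.support ⊆ s) :
    fis p q = ∑ m ∈ s, fisW m * (starRingEnd ℂ) (coeff m p) * coeff m q := by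
  classical
  rw [fis_eq_sum p q (s ∪ p.support) Finset.subset_union_right]
  symm
  apply Finset.sum_subset Finset.subset_union_left
  intro m _ hm
  have : coeff m q = 0 := by
    rw [← notMem_support_iff]
    exact fun h' => hm (h h')
  rw [this, mul_zero]

theorem fis_X_mul {σ : Type} (v : σ) (p q : MvPolynomial σ ℂ) :
    fis (X v * p) q = fis p (pderiv v q) := by
  classical
  have hs : (X v * p).support = p.support.map (addLeftEmbedding (Finsupp.single v 1)) :=
    support_X_mul v p
  rw [fis_eq_sum (X v * p) q _ le_rfl, fis_eq_sum p _ _ le_rfl, hs, Finset.sum_map]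
  apply Finset.sum_congr rfl
  intro m _
  rw [coeff_pderiv]
  simp only [addLeftEmbedding_apply]
  rw [coeff_X_mul, fisW_single_add, add_comm m (Finsupp.single v 1)]
  ring

theorem fis_conj {σ : Type} (p q : MvPolynomial σ ℂ) : (starRingEnd ℂ) (fis q p) = fis p q := by
  classical
  rw [fis_eq_sum q p (p.support ∪ q.support) Finset.subset_union_right,
    fis_eq_sum p q (p.support ∪ q.support) Finset.subset_union_left, map_sum]
  apply Finset.sum_congr rfl
  intro m _
  rw [map_mul, map_mul, Complex.conj_conj, fisW_eq]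
  simp only [map_natCast]
  ring

theorem fis_add_left {σ : Type} (p p' q : MvPolynomial σ ℂ) :
    fis (p + p') q = fis p q + fis p' q := by
  classical
  rw [fis_eq_sum' (p + p') q _ le_rfl, fis_eq_sum' p q _ le_rfl, fis_eq_sum' p' q _ le_rfl,
    ← Finset.sum_add_distrib]
  apply Finset.sum_congr rfl
  intro m _
  rw [coeff_add, map_add]
  ring

theorem fis_smul_left {σ : Type} (p q : MvPolynomial σ ℂ) (r : ℂ) :
    fis (r • p) q = (starRingEnd ℂ) r * fis p q := by
  classical
  rw [fis_eq_sum' (r • p) q _ le_rfl, fis_eq_sum' p q _ le_rfl, Finset.mul_sum]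
  apply Finset.sum_congr rfl
  intro m _
  rw [coeff_smul, smul_eq_mul, map_mul]
  ring

theorem fis_add_right {σ : Type} (p q q' : MvPolynomial σ ℂ) :
    fis p (q + q') = fis p q + fis p q' := by
  rw [← fis_conj, fis_add_left, map_add, fis_conj, fis_conj]

theorem fis_smul_right {σ : Type} (p q : MvPolynomial σ ℂ) (r : ℂ) :
    fis p (r • q) = r * fis p q := by
  rw [← fis_conj, fis_smul_left, map_mul, Complex.conj_conj, fis_conj]

theorem fis_sub_right {σ : Type} (p q q' : MvPolynomial σ ℂ) :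
    fis p (q - q') = fis p q - fis p q' := by
  rw [sub_eq_add_neg, fis_add_right, ← neg_one_smul ℂ q', fis_smul_right]
  ring

theorem fis_zero_right {σ : Type} (p : MvPolynomial σ ℂ) : fis p 0 = 0 := by
  have h := fis_smul_right p 0 0
  rw [zero_smul, zero_mul] at h
  exact h

theorem fis_self {σ : Type} (p : MvPolynomial σ ℂ) :
    fis p p = ((∑ m ∈ p.support, ((m.prod fun _ k => (k.factorial : ℕ) : ℕ) : ℝ) *
      ‖coeff m p‖ ^ 2 : ℝ) : ℂ) := by
  rw [fis_eq_sum p p _ le_rfl, Complex.ofReal_sum]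
  apply Finset.sum_congr rfl
  intro m _
  rw [fisW_eq, mul_assoc, Complex.conj_mul', Complex.ofReal_mul, Complex.ofReal_pow,
    Complex.ofReal_natCast]

theorem fis_self_re {σ : Type} (p : MvPolynomial σ ℂ) : 0 ≤ (fis p p).re := by
  rw [fis_self, Complex.ofReal_re]
  exact Finset.sum_nonneg fun m _ => by positivity

theorem fis_definite {σ : Type} (p : MvPolynomial σ ℂ) (h : fis p p = 0) : p = 0 := by
  rw [fis_self] at h
  have h1 : (∑ m ∈ p.support, ((m.prod fun _ k => (k.factorial : ℕ) : ℕ) : ℝ) *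
      ‖coeff m p‖ ^ 2) = 0 := by exact_mod_cast h
  rw [Finset.sum_eq_zero_iff_of_nonneg (fun m _ => by positivity)] at h1
  by_contra hne
  obtain ⟨m, hm⟩ := MvPolynomial.support_nonempty.mpr hne
  have h2 := h1 m hm
  rw [mul_eq_zero] at h2
  rcases h2 with h2 | h2
  · have := fisW_pos m
    have h3 : (m.prod fun _ k => (k.factorial : ℕ) : ℕ) = 0 := by exact_mod_cast h2
    omega
  · have h3 : coeff m p = 0 := by
      rw [← norm_eq_zero]
      exact pow_eq_zero_iff (two_ne_zero) |>.mp h2
    exact (mem_support_iff.mp hm) h3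

/-- The inner product structure. -/
@[instance_reducible]
noncomputable def fisCore (σ : Type) : InnerProductSpace.Core ℂ (MvPolynomial σ ℂ) where
  inner := fis
  conj_inner_symm p q := fis_conj p q
  re_inner_nonneg p := fis_self_re p
  add_left p q r := fis_add_left p q r
  smul_left p q r := fis_smul_left p q r
  definite p h := fis_definite p h

/-- Orthogonal projection on a finite dimensional subspace. -/
theorem fis_proj {σ : Type} (W : Submodule ℂ (MvPolynomial σ ℂ)) [FiniteDimensional ℂ W]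
    (q : MvPolynomial σ ℂ) : ∃ w ∈ W, ∀ u ∈ W, fis u (q - w) = 0 := by
  let : NormedAddCommGroup (MvPolynomial σ ℂ) := (fisCore σ).toNormedAddCommGroup
  let : InnerProductSpace ℂ (MvPolynomial σ ℂ) := InnerProductSpace.ofCore (fisCore σ).toCore
  obtain ⟨w, hw, hq⟩ := Submodule.HasOrthogonalProjection.exists_orthogonal (K := W) q
  refine ⟨w, hw, fun u hu => ?_⟩
  exact (Submodule.mem_orthogonal W (q - w)).mp hq u hu

theorem fis_trunc {σ : Type} (g q : MvPolynomial σ ℂ) (T : Finset (σ →₀ ℕ))
    (hq : q.support ⊆ T) : fis (∑ m ∈ T, monomial m (coeff m g)) q = fis g q := by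
  classical
  rw [fis_eq_sum' _ q T hq, fis_eq_sum' g q T hq]
  apply Finset.sum_congr rfl
  intro m hm
  congr 3
  rw [coeff_sum]
  rw [Finset.sum_eq_single m]
  · rw [coeff_monomial, if_pos rfl]
  · intro m' _ hne
    rw [coeff_monomial, if_neg hne]
  · intro h
    exact absurd hm h

theorem fis_exists {σ : Type} (Γ : Subalgebra ℂ (MvPolynomial σ ℂ))
    (htr : ∀ M : Finset (σ →₀ ℕ), ∃ T : Finset (σ →₀ ℕ), M ⊆ T ∧
      ∀ g ∈ Γ, (∑ m ∈ T, monomial m (coeff m g)) ∈ Γ) (q : MvPolynomial σ ℂ) :
    ∃ w ∈ Γ, ∀ g ∈ Γ, fis g (q - w) = 0 := by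
  classical
  obtain ⟨T, hqT, hT⟩ := htr q.support
  set V : Submodule ℂ (MvPolynomial σ ℂ) :=
    Submodule.span ℂ ((T.image fun m => monomial m (1 : ℂ) : Finset (MvPolynomial σ ℂ)) :
      Set (MvPolynomial σ ℂ)) with hV
  have hVfin : FiniteDimensional ℂ V := FiniteDimensional.span_finset ℂ _
  have hmemV : ∀ p : MvPolynomial σ ℂ, p.support ⊆ T → p ∈ V := by
    intro p hp
    rw [p.as_sum]
    apply Submodule.sum_mem
    intro m hm
    have : monomial m (coeff m p) = coeff m p • monomial m (1 : ℂ) := by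
      rw [smul_monomial, smul_eq_mul, mul_one]
    rw [this]
    apply Submodule.smul_mem
    apply Submodule.subset_span
    exact Finset.mem_coe.mpr (Finset.mem_image_of_mem _ (hp hm))
  have hsuppV : ∀ p ∈ V, p.support ⊆ T := by
    intro p hp
    rw [hV] at hp
    induction hp using Submodule.span_induction with
    | mem x hx =>
      rw [Finset.mem_coe, Finset.mem_image] at hx
      obtain ⟨m, hm, rfl⟩ := hx
      intro m' hm'
      have := support_monomial_subset hm'
      rw [Finset.mem_singleton] at this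
      rw [this]; exact hm
    | zero => simp
    | add x y _ _ hx hy => exact (support_add).trans (Finset.union_subset hx hy)
    | smul a x _ hx => exact (Finsupp.support_smul).trans hx
  set W : Submodule ℂ (MvPolynomial σ ℂ) := Subalgebra.toSubmodule Γ ⊓ V with hW
  have : FiniteDimensional ℂ W := Submodule.finiteDimensional_inf_right _ _
  obtain ⟨w, hw, hwq⟩ := fis_proj W q
  have hwV : w ∈ V := (Submodule.mem_inf.mp hw).2
  refine ⟨w, (Submodule.mem_inf.mp hw).1, fun g hg => ?_⟩
  have hs : (q - w).support ⊆ T := hsuppV _ (V.sub_mem (hmemV q hqT) hwV)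
  rw [← fis_trunc g (q - w) T hs]
  apply hwq
  refine Submodule.mem_inf.mpr ⟨hT g hg, ?_⟩
  apply Submodule.sum_mem
  intro m hm
  apply hmemV
  intro m' hm'
  have := support_monomial_subset hm'
  rw [Finset.mem_singleton] at this
  rw [this]; exact hm

theorem fischer {σ : Type} (Γ : Subalgebra ℂ (MvPolynomial σ ℂ)) (gens : Set (MvPolynomial σ ℂ))
    (hg : Γ = Algebra.adjoin ℂ gens)
    (hadj : ∀ g ∈ gens, ∃ T : MvPolynomial σ ℂ →ₗ[ℂ] MvPolynomial σ ℂ,
      (∀ p q, fis (g * p) q = fis p (T q)) ∧ ∀ q ∈ Γ, T q ∈ Γ)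
    (htr : ∀ M : Finset (σ →₀ ℕ), ∃ T : Finset (σ →₀ ℕ), M ⊆ T ∧
      ∀ g ∈ Γ, (∑ m ∈ T, monomial m (coeff m g)) ∈ Γ) :
    ∃ π : MvPolynomial σ ℂ →ₗ[ℂ] MvPolynomial σ ℂ,
      (∀ q, π q ∈ Γ) ∧ (∀ q, ∀ g ∈ Γ, π (q * g) = π q * g) ∧ ∀ g ∈ Γ, π g = g := by
  have hex := fis_exists Γ htr
  choose π0 h1 h2 using hex
  -- uniqueness
  have huniq : ∀ q w : MvPolynomial σ ℂ, w ∈ Γ → (∀ g ∈ Γ, fis g (q - w) = 0) → π0 q = w := by
    intro q w hw hq
    have h3 : fis (π0 q - w) (π0 q - w) = 0 := by
      have hmem : π0 q - w ∈ Γ := Γ.sub_mem (h1 q) hw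
      have e : π0 q - w = (q - w) - (q - π0 q) := by ring
      have : fis (π0 q - w) ((q - w) - (q - π0 q)) = 0 := by
        rw [fis_sub_right, hq _ hmem, h2 q _ hmem, sub_zero]
      rwa [← e] at this
    exact sub_eq_zero.mp (fis_definite _ h3)
  -- the orthogonal complement is stable under multiplication by `Γ`
  have hperp : ∀ g ∈ Γ, ∀ p : MvPolynomial σ ℂ, (∀ u ∈ Γ, fis u p = 0) →
      ∀ u ∈ Γ, fis u (p * g) = 0 := by
    intro g hgΓ
    rw [hg] at hgΓ
    induction hgΓ using Algebra.adjoin_induction with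
    | mem x hx =>
      intro p hp u hu
      obtain ⟨T, hT1, hT2⟩ := hadj x hx
      rw [mul_comm p x, ← fis_conj, hT1, fis_conj, hp _ (hT2 u hu)]
    | algebraMap r =>
      intro p hp u hu
      have : p * algebraMap ℂ (MvPolynomial σ ℂ) r = r • p := by
        rw [mul_comm, Algebra.smul_def]
      rw [this, fis_smul_right, hp u hu, mul_zero]
    | add x y _ _ hx hy =>
      intro p hp u hu
      rw [mul_add, fis_add_right, hx p hp u hu, hy p hp u hu, add_zero]
    | mul x y _ _ hx hy =>
      intro p hp u hu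
      rw [← mul_assoc]
      exact hy (p * x) (hx p hp) u hu
  refine ⟨{ toFun := π0, map_add' := ?_, map_smul' := ?_ }, ?_, ?_, ?_⟩
  · intro p q
    apply huniq
    · exact Γ.add_mem (h1 p) (h1 q)
    · intro g hgΓ
      have : p + q - (π0 p + π0 q) = (p - π0 p) + (q - π0 q) := by ring
      rw [this, fis_add_right, h2 p g hgΓ, h2 q g hgΓ, add_zero]
  · intro r p
    rw [RingHom.id_apply]
    apply huniq
    · exact Γ.smul_mem (h1 p) r
    · intro g hgΓ
      rw [← smul_sub, fis_smul_right, h2 p g hgΓ, mul_zero]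
  · intro q
    exact h1 q
  · intro q g hgΓ
    show π0 (q * g) = π0 q * g
    apply huniq
    · exact Γ.mul_mem (h1 q) hgΓ
    · intro u hu
      rw [← sub_mul]
      exact hperp g hgΓ (q - π0 q) (h2 q) u hu
  · intro g hgΓ
    show π0 g = g
    apply huniq _ _ hgΓ
    intro u _
    rw [sub_self, fis_zero_right]

end MPf70651
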