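import Pool.Agent.Lib_MP_f70651_al.FisA
import Pool.Agent.Lib_MP_f70651_al.FisB

/-!
# MP_f70651_al : the retraction on `ℂ[z, ⟨u_i, v_j⟩]`
-/

namespace MPf70651

open MvPolynomial

theorem fisch_zero_left {σ : Type} (q : MvPolynomial σ ℂ) : fis 0 q = 0 := by
  have h := fis_smul_left (0 : MvPolynomial σ ℂ) q 0
  rw [zero_smul, map_zero, zero_mul] at h
  exact h

theorem fisch_sum_left {σ ι : Type} (s : Finset ι) (p : ι → MvPolynomial σ ℂ)
    (q : MvPolynomial σ ℂ) : fis (∑ a ∈ s, p a) q = ∑ a ∈ s, fis (p a) q := by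
  classical
  induction s using Finset.induction_on with
  | empty => rw [Finset.sum_empty, Finset.sum_empty, fisch_zero_left]
  | insert a s ha ih => rw [Finset.sum_insert ha, Finset.sum_insert ha, fis_add_left, ih]

theorem fisch_sum_right {σ ι : Type} (s : Finset ι) (p : MvPolynomial σ ℂ)
    (q : ι → MvPolynomial σ ℂ) : fis p (∑ a ∈ s, q a) = ∑ a ∈ s, fis p (q a) := by
  classical
  induction s using Finset.induction_on with
  | empty => rw [Finset.sum_empty, Finset.sum_empty, fis_zero_right]
  | insert a s ha ih => rw [Finset.sum_insert ha, Finset.sum_insert ha, fis_add_right, ih]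

theorem exists_retraction (r : ℕ) : ∃ π : QQ (Fin r × Bool) →ₗ[ℂ] QQ (Fin r × Bool),
    (∀ q, π q ∈ Gam r) ∧ (∀ q, ∀ g ∈ Gam r, π (q * g) = π q * g) ∧ ∀ g ∈ Gam r, π g = g := by
  apply fischer (Gam r) ({X none} ∪ {q | ∃ i j : ℕ, q = pair r i j}) rfl
  · rintro g (hg | ⟨i, j, rfl⟩)
    · rw [Set.mem_singleton_iff] at hg
      subst hg
      exact ⟨(pderiv none : Derivation ℂ (QQ (Fin r × Bool)) (QQ (Fin r × Bool))).toLinearMap,
        fun p q => fis_X_mul none p q, fun q hq => dz_mem r q hq⟩
    · refine ⟨∑ a : Fin r,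
        ((pderiv (some (j, (a, false))) :
          Derivation ℂ (QQ (Fin r × Bool)) (QQ (Fin r × Bool))).toLinearMap).comp
        ((pderiv (some (i, (a, true))) :
          Derivation ℂ (QQ (Fin r × Bool)) (QQ (Fin r × Bool))).toLinearMap), ?_, ?_⟩
      · intro p q
        rw [LinearMap.sum_apply, fisch_sum_right]
        unfold pair
        rw [Finset.sum_mul, fisch_sum_left]
        apply Finset.sum_congr rfl
        intro a _
        rw [mul_assoc, fis_X_mul, fis_X_mul]
        rfl
      · intro q hq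
        rw [LinearMap.sum_apply]
        exact lap_mem r i j q hq
  · exact trunc_mem r

end MPf70651
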