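import Pool.Agent.Lib_MP_f70651_al.Grob
import Pool.Agent.Lib_MP_f70651_al.Fisch

/-!
# MP_f70651_al, piece COVER
-/

namespace MPf70651

open MvPolynomial

theorem rename_mem_Gam (r : ℕ) (τ : ℕ → ℕ) (g : QQ (Fin r × Bool)) (hg : g ∈ Gam r) :
    rename (actV (Fin r × Bool) τ) g ∈ Gam r := by
  have h : (Gam r).map (rename (actV (Fin r × Bool) τ)) ≤ Gam r := by
    unfold Gam
    rw [AlgHom.map_adjoin]
    apply Algebra.adjoin_mono
    rintro _ ⟨p, hp, rfl⟩
    rcases hp with hp | ⟨i, j, rfl⟩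
    · left
      rw [Set.mem_singleton_iff] at hp
      rw [hp, Set.mem_singleton_iff, rename_X]
      rfl
    · right
      refine ⟨τ i, τ j, ?_⟩
      unfold pair
      simp [actV]
  exact h ⟨g, hg, rfl⟩

theorem na_of_cover {P : Type} [CommRing P] (S : Sit P) (r : ℕ)
    (θ : QQ (Fin r × Bool) →+* P)
    (hact : ∀ (τ : ℕ ↪o ℕ) q, θ (rename (actV (Fin r × Bool) τ) q) = S.act τ (θ q))
    (h1 : ∀ g ∈ Gam r, θ g ∈ S.A') (h2 : ∀ a ∈ S.A', ∃ g ∈ Gam r, θ g = a) : NA S := by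
  classical
  obtain ⟨π, hπ1, hπ2, hπ3⟩ := exists_retraction r
  intro w N hN
  let M : Pos w → Set (QQ (Fin r × Bool)) := fun φ => {g | g ∈ Gam r ∧ θ g ∈ N φ}
  let I : Pos w → Ideal (QQ (Fin r × Bool)) := fun φ => Ideal.span (M φ)
  have hI : ∀ (φ : Pos w) (τ : ℕ ↪o ℕ) (p : QQ (Fin r × Bool)), p ∈ I φ →
      rename (actV (Fin r × Bool) τ) p ∈ I (φ.trans τ) := by
    intro φ τ p hp
    refine Submodule.span_induction (p := fun p _ => rename (actV (Fin r × Bool) τ) p ∈ I (φ.trans τ))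
      ?_ ?_ ?_ ?_ hp
    · rintro g ⟨hg1, hg2⟩
      refine Ideal.subset_span ⟨rename_mem_Gam r τ g hg1, ?_⟩
      rw [hact]
      exact hN.act φ τ _ hg2
    · rw [map_zero]; exact (I _).zero_mem
    · intro x y _ _ hx hy
      rw [map_add]; exact (I _).add_mem hx hy
    · intro a x _ hx
      rw [smul_eq_mul, map_mul]; exact (I _).mul_mem_left _ hx
  obtain ⟨G0, hG0f, hG0, hG0s⟩ := noeth_QQ w (Fin r × Bool) I hI
  have hT : ∀ g : Pos w × QQ (Fin r × Bool), ∃ T : Finset (QQ (Fin r × Bool)),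
      (↑T ⊆ M g.1) ∧ (g ∈ G0 → g.2 ∈ Ideal.span (T : Set (QQ (Fin r × Bool)))) := by
    intro g
    by_cases hg : g ∈ G0
    · obtain ⟨T, hT1, hT2⟩ := Submodule.mem_span_finite_of_mem_span (hG0 g hg)
      exact ⟨T, hT1, fun _ => hT2⟩
    · exact ⟨∅, by simp, fun h => absurd h hg⟩
  choose T hT1 hT2 using hT
  let G : Set (Pos w × P) := ⋃ g ∈ G0, (fun t => (g.1, θ t)) '' (T g : Set (QQ (Fin r × Bool)))
  refine ⟨G, ?_, ?_, ?_⟩
  · exact hG0f.biUnion (fun g _ => ((T g).finite_toSet).image _)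
  · intro q hq
    simp only [G, Set.mem_iUnion, Set.mem_image] at hq
    obtain ⟨g, _, t, ht, rfl⟩ := hq
    exact (hT1 g ht).2
  · intro φ x hx
    refine AddSubgroup.mem_sup_right ?_
    obtain ⟨g, hgG, rfl⟩ := h2 x (hN.le φ x hx)
    -- the translates
    let E : Set (QQ (Fin r × Bool)) := {q | ∃ g ∈ G0, ∃ t ∈ T g, ∃ τ : ℕ ↪o ℕ, g.1.trans τ = φ ∧
      q = rename (actV (Fin r × Bool) τ) t}
    have hgE : g ∈ Ideal.span E := by
      have hg1 : g ∈ I φ := Ideal.subset_span ⟨hgG, hx⟩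
      have hg2 := hG0s φ hg1
      have hle : Ideal.span {q | ∃ g ∈ G0, ∃ τ : ℕ ↪o ℕ, g.1.trans τ = φ ∧
          q = rename (actV (Fin r × Bool) τ) g.2} ≤ Ideal.span E := by
        rw [Ideal.span_le]
        rintro q ⟨g', hg', τ, hτ, rfl⟩
        have h3 := hT2 g' hg'
        refine Submodule.span_induction
          (p := fun p _ => rename (actV (Fin r × Bool) τ) p ∈ Ideal.span E) ?_ ?_ ?_ ?_ h3
        · intro t ht
          exact Ideal.subset_span ⟨g', hg', t, ht, τ, hτ, rfl⟩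
        · rw [map_zero]; exact Ideal.zero_mem _
        · intro x y _ _ hx hy
          rw [map_add]; exact Ideal.add_mem _ hx hy
        · intro a x _ hx
          rw [smul_eq_mul, map_mul]; exact Ideal.mul_mem_left _ _ hx
      exact hle hg2
    have key : ∀ q, θ (π (q * g)) ∈ gen S S.A' G φ := by
      refine Submodule.span_induction (p := fun g _ => ∀ q, θ (π (q * g)) ∈ gen S S.A' G φ)
        ?_ ?_ ?_ ?_ hgE
      · rintro e ⟨g', hg', t, ht, τ, hτ, rfl⟩ q
        have htG : t ∈ Gam r := (hT1 g' ht).1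
        rw [hπ2 q _ (rename_mem_Gam r τ t htG), map_mul, hact]
        refine AddSubgroup.subset_closure ⟨(g'.1, θ t), ?_, τ, hτ, θ (π q), h1 _ (hπ1 q), rfl⟩
        simp only [G, Set.mem_iUnion, Set.mem_image]
        exact ⟨g', hg', t, ht, rfl⟩
      · intro q
        rw [mul_zero, map_zero, map_zero]; exact AddSubgroup.zero_mem _
      · intro x y _ _ hx hy q
        rw [mul_add, map_add, map_add]; exact AddSubgroup.add_mem _ (hx q) (hy q)
      · intro a x _ hx q
        rw [smul_eq_mul, ← mul_assoc]; exact hx _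
    have h4 := key 1
    rw [one_mul, hπ3 g hgG] at h4
    exact h4

end MPf70651
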