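import Pool.Agent.Lib_MP_f70651_al.Basic

/-! PIECE CZERO: annihilators and the filtration lemma. -/

namespace MPf70651

variable {P : Type} [CommRing P] {S : Sit P}

theorem czero_act_ext {n : ℕ} {x : P} (hsupp : Supp S n x) (ψ : Pos n) (τ : ℕ ↪o ℕ) :
    S.act (ext (ψ.trans τ)) x = S.act τ (S.act (ext ψ) x) := by
  rw [act_comp_apply]
  apply hsupp
  intro i hi
  rw [ext_apply _ _ hi, ext_apply _ _ hi]
  rfl

theorem czero_pos_ext {w n : ℕ} (φ0 : Pos w) (hφ : ∀ k, φ0 k < n) (ψ : Pos n) (τ : ℕ ↪o ℕ) :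
    φ0.trans (ext (ψ.trans τ)) = (φ0.trans (ext ψ)).trans τ := by
  ext k
  show ext (ψ.trans τ) (φ0 k) = τ (ext ψ (φ0 k))
  rw [ext_apply _ _ (hφ k), ext_apply _ _ (hφ k)]
  rfl

theorem isFam_ann {w : ℕ} {b : Pos w → AddSubgroup P} (hb : IsFam S S.A' b) (φ0 : Pos w) (x : P)
    (hx : x ∈ S.A') (n : ℕ) (hsupp : Supp S n x) (hφ : ∀ k, φ0 k < n) :
    IsFam S S.A' (ann S b φ0 x n) where
  le := fun ψ a ha => ha.1
  smul := fun ψ a y ha hy => ⟨S.A'.mul_mem ha hy.1, by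
    rw [mul_assoc]
    exact hb.smul _ _ _ ha hy.2⟩
  act := fun ψ τ y hy => ⟨S.act_A' τ τ.injective y hy.1, by
    rw [czero_act_ext hsupp, czero_pos_ext φ0 hφ, ← map_mul]
    exact hb.act _ τ _ hy.2⟩

/-- the lexicographic order on positions -/
def czLex {n : ℕ} (ψ : Pos n) : Lex (Fin n → ℕ) := toLex (ψ : Fin n → ℕ)

theorem czLex_inj {n : ℕ} {ψ ψ' : Pos n} (h : czLex ψ = czLex ψ') : ψ = ψ' := by
  have h1 : (ψ : Fin n → ℕ) = ψ' := h
  exact DFunLike.coe_injective h1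

theorem czLex_trans {n : ℕ} {ψ ψ' : Pos n} (h : czLex ψ < czLex ψ') (τ : ℕ ↪o ℕ) :
    czLex (ψ.trans τ) < czLex (ψ'.trans τ) := by
  obtain ⟨i, h1, h2⟩ := h
  refine ⟨i, fun j hj => ?_, ?_⟩
  · have := h1 j hj
    show τ (ψ j) = τ (ψ' j)
    exact congrArg τ this
  · exact τ.strictMono h2

/-- the part of the filtration with indices in `p` -/
def czJ (S : Sit P) {w : ℕ} (b : Pos w → AddSubgroup P) (φ0 : Pos w) (x : P) {n : ℕ}
    (p : Pos n → Prop) (φ : Pos w) : AddSubgroup P :=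
  AddSubgroup.closure ({y | y ∈ b φ} ∪ {y | ∃ ψ, p ψ ∧ φ0.trans (ext ψ) = φ ∧
    ∃ a ∈ S.A', y = a * S.act (ext ψ) x})

section

variable {w : ℕ} {b : Pos w → AddSubgroup P} (hb : IsFam S S.A' b) (φ0 : Pos w) (x : P)
    (hx : x ∈ S.A') {n : ℕ} (hsupp : Supp S n x) (hφ : ∀ k, φ0 k < n)

include hb hx in
theorem czJ_mono {p q : Pos n → Prop} (h : ∀ ψ, p ψ → q ψ) (φ : Pos w) :
    czJ S b φ0 x p φ ≤ czJ S b φ0 x q φ := by
  unfold czJ
  apply AddSubgroup.closure_mono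
  rintro y (hy | ⟨ψ, h1, h2⟩)
  · exact Or.inl hy
  · exact Or.inr ⟨ψ, h ψ h1, h2⟩

theorem czJ_b {p : Pos n → Prop} (φ : Pos w) : b φ ≤ czJ S b φ0 x p φ := fun _ hy =>
  AddSubgroup.subset_closure (Or.inl hy)

include hb in
theorem czJ_smul {p : Pos n → Prop} (φ : Pos w) (a : P) (ha : a ∈ S.A') (y : P)
    (hy : y ∈ czJ S b φ0 x p φ) : a * y ∈ czJ S b φ0 x p φ := by
  unfold czJ at hy ⊢
  induction hy using AddSubgroup.closure_induction with
  | mem y hy =>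
    apply AddSubgroup.subset_closure
    rcases hy with hy | ⟨ψ, h1, h2, c, hc, rfl⟩
    · exact Or.inl (hb.smul _ _ _ ha hy)
    · exact Or.inr ⟨ψ, h1, h2, a * c, S.A'.mul_mem ha hc, by ring⟩
  | zero => rw [mul_zero]; exact AddSubgroup.zero_mem _
  | add y z _ _ hy hz => rw [mul_add]; exact AddSubgroup.add_mem _ hy hz
  | neg y _ hy => rw [mul_neg]; exact AddSubgroup.neg_mem _ hy

include hb hsupp hφ in
theorem czJ_act (ψ : Pos n) (φ : Pos w) (τ : ℕ ↪o ℕ) (y : P)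
    (hy : y ∈ czJ S b φ0 x (fun ψ' => czLex ψ' < czLex ψ) φ) :
    S.act τ y ∈ czJ S b φ0 x (fun ψ' => czLex ψ' < czLex (ψ.trans τ)) (φ.trans τ) := by
  unfold czJ at hy ⊢
  induction hy using AddSubgroup.closure_induction with
  | mem y hy =>
    apply AddSubgroup.subset_closure
    rcases hy with hy | ⟨ψ', h1, h2, c, hc, rfl⟩
    · exact Or.inl (hb.act _ _ _ hy)
    · refine Or.inr ⟨ψ'.trans τ, czLex_trans h1 τ, ?_, S.act τ c, S.act_A' τ τ.injective c hc, ?_⟩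
      · rw [czero_pos_ext φ0 hφ, h2]
      · rw [map_mul, czero_act_ext hsupp]
  | zero => rw [map_zero]; exact AddSubgroup.zero_mem _
  | add y z _ _ hy hz => rw [map_add]; exact AddSubgroup.add_mem _ hy hz
  | neg y _ hy => rw [map_neg]; exact AddSubgroup.neg_mem _ hy

include hb hx in
/-- the top term -/
theorem czJ_top {p : Pos n → Prop} (φ : Pos w) (y : P) (hy : y ∈ czJ S b φ0 x p φ) :
    y ∈ b φ ∨ ∃ ψ : Pos n, p ψ ∧ φ0.trans (ext ψ) = φ ∧ ∃ a ∈ S.A',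
      ∃ j ∈ czJ S b φ0 x (fun ψ' => czLex ψ' < czLex ψ) φ, y = a * S.act (ext ψ) x + j := by
  unfold czJ at hy
  induction hy using AddSubgroup.closure_induction with
  | mem y hy =>
    rcases hy with hy | ⟨ψ, h1, h2, a, ha, rfl⟩
    · exact Or.inl hy
    · exact Or.inr ⟨ψ, h1, h2, a, ha, 0, AddSubgroup.zero_mem _, by rw [add_zero]⟩
  | zero => exact Or.inl (AddSubgroup.zero_mem _)
  | add y z _ _ hy hz =>
    rcases hy with hy | ⟨ψ1, h1, h2, a, ha, j, hj, rfl⟩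
    · rcases hz with hz | ⟨ψ2, h1', h2', a', ha', j', hj', rfl⟩
      · exact Or.inl (AddSubgroup.add_mem _ hy hz)
      · refine Or.inr ⟨ψ2, h1', h2', a', ha', y + j', ?_, by ring⟩
        exact AddSubgroup.add_mem _ (czJ_b φ0 x φ hy) hj'
    · rcases hz with hz | ⟨ψ2, h1', h2', a', ha', j', hj', rfl⟩
      · refine Or.inr ⟨ψ1, h1, h2, a, ha, j + z, ?_, by ring⟩
        exact AddSubgroup.add_mem _ hj (czJ_b φ0 x φ hz)
      · rcases lt_trichotomy (czLex ψ1) (czLex ψ2) with h | h | h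
        · refine Or.inr ⟨ψ2, h1', h2', a', ha', (a * S.act (ext ψ1) x + j) + j', ?_, by ring⟩
          refine AddSubgroup.add_mem _ (AddSubgroup.add_mem _ ?_ ?_) hj'
          · exact AddSubgroup.subset_closure (Or.inr ⟨ψ1, h, h2, a, ha, rfl⟩)
          · exact czJ_mono hb φ0 x hx (fun ψ' h' => lt_trans h' h) φ hj
        · have e := czLex_inj h
          subst e
          refine Or.inr ⟨ψ1, h1, h2, a + a', S.A'.add_mem ha ha', j + j', ?_, by ring⟩
          exact AddSubgroup.add_mem _ hj hj'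
        · refine Or.inr ⟨ψ1, h1, h2, a, ha, j + (a' * S.act (ext ψ2) x + j'), ?_, by ring⟩
          refine AddSubgroup.add_mem _ hj (AddSubgroup.add_mem _ ?_ ?_)
          · exact AddSubgroup.subset_closure (Or.inr ⟨ψ2, h, h2', a', ha', rfl⟩)
          · exact czJ_mono hb φ0 x hx (fun ψ' h' => lt_trans h' h) φ hj'
  | neg y _ hy =>
    rcases hy with hy | ⟨ψ1, h1, h2, a, ha, j, hj, rfl⟩
    · exact Or.inl (AddSubgroup.neg_mem _ hy)
    · exact Or.inr ⟨ψ1, h1, h2, -a, S.A'.neg_mem ha, -j, AddSubgroup.neg_mem _ hj, by ring⟩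

include hsupp hφ in
theorem czJ_all (φ : Pos w) (y : P) (hy : y ∈ (b ⊔ gen S S.A' {(φ0, x)}) φ) :
    y ∈ czJ S b φ0 x (fun _ : Pos n => True) φ := by
  obtain ⟨y1, h1, y2, h2, rfl⟩ := AddSubgroup.mem_sup.mp hy
  refine AddSubgroup.add_mem _ (czJ_b φ0 x φ h1) ?_
  unfold gen at h2
  have h3 : AddSubgroup.closure {y | ∃ g ∈ ({(φ0, x)} : Set (Pos w × P)), ∃ τ : ℕ ↪o ℕ,
      g.1.trans τ = φ ∧ ∃ a ∈ S.A', y = a * S.act τ g.2} ≤
      czJ S b φ0 x (fun _ : Pos n => True) φ := by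
    rw [AddSubgroup.closure_le]
    rintro _ ⟨g, hg, τ, hτ, a, ha, rfl⟩
    rw [Set.mem_singleton_iff] at hg
    subst hg
    simp only at hτ ⊢
    apply AddSubgroup.subset_closure
    refine Or.inr ⟨res n τ, trivial, ?_, a, ha, ?_⟩
    · rw [← hτ]
      exact trans_ext_eq φ0 hφ _ _ (fun i hi => ext_res n τ i hi)
    · congr 1
      exact hsupp _ _ (fun i hi => (ext_res n τ i hi).symm)
  exact h3 h2

include hb hx hsupp hφ in
/-- the main step: the case of families between `b` and `J` -/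
theorem czero_main (h1 : PN S (ann S b φ0 x n)) (N : Pos w → AddSubgroup P)
    (hN : IsFam S S.A N) (hbN : b ≤ N) (hNJ : N ≤ b ⊔ gen S S.A' {(φ0, x)}) :
    FG S S.A b N := by
  -- the family of leading coefficients
  let Nt : Pos n → AddSubgroup P := fun ψ =>
    { carrier := {a | a ∈ S.A' ∧ a * S.act (ext ψ) x ∈ N (φ0.trans (ext ψ)) ⊔
        czJ S b φ0 x (fun ψ' => czLex ψ' < czLex ψ) (φ0.trans (ext ψ))}
      zero_mem' := ⟨S.A'.zero_mem, by rw [zero_mul]; exact AddSubgroup.zero_mem _⟩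
      add_mem' := fun {a c} ha hc => ⟨S.A'.add_mem ha.1 hc.1, by
        rw [add_mul]; exact AddSubgroup.add_mem _ ha.2 hc.2⟩
      neg_mem' := fun {a} ha => ⟨S.A'.neg_mem ha.1, by
        rw [neg_mul]; exact AddSubgroup.neg_mem _ ha.2⟩ }
  have hfam : IsFam S S.A Nt := by
    refine ⟨fun ψ a ha => ha.1, ?_, ?_⟩
    · rintro ψ a y ha ⟨h3, h4⟩
      refine ⟨S.A'.mul_mem (S.A_le ha) h3, ?_⟩
      obtain ⟨m, hm, j, hj, he⟩ := AddSubgroup.mem_sup.mp h4
      rw [mul_assoc, ← he, mul_add]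
      exact AddSubgroup.mem_sup.mpr ⟨_, hN.smul _ _ _ ha hm, _,
        czJ_smul hb φ0 x _ a (S.A_le ha) j hj, rfl⟩
    · rintro ψ τ y ⟨h3, h4⟩
      refine ⟨S.act_A' τ τ.injective y h3, ?_⟩
      obtain ⟨m, hm, j, hj, he⟩ := AddSubgroup.mem_sup.mp h4
      rw [czero_act_ext hsupp, czero_pos_ext φ0 hφ, ← map_mul, ← he, map_add]
      exact AddSubgroup.mem_sup.mpr ⟨_, hN.act _ _ _ hm, _,
        czJ_act hb φ0 x hsupp hφ ψ _ τ j hj, rfl⟩
  have hann : ann S b φ0 x n ≤ Nt := by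
    rintro ψ a ⟨h3, h4⟩
    exact ⟨h3, AddSubgroup.mem_sup_left (hbN _ h4)⟩
  obtain ⟨G, hGf, hGN, hGgen⟩ := h1 Nt hfam hann
  have hlift : ∀ g : Pos n × P, ∃ m : P, g ∈ G → m ∈ N (φ0.trans (ext g.1)) ∧
      g.2 * S.act (ext g.1) x - m ∈ czJ S b φ0 x (fun ψ' => czLex ψ' < czLex g.1)
        (φ0.trans (ext g.1)) := by
    intro g
    by_cases hg : g ∈ G
    · obtain ⟨m, hm, j, hj, he⟩ := AddSubgroup.mem_sup.mp (hGN g hg).2
      refine ⟨m, fun _ => ⟨hm, ?_⟩⟩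
      rw [← he, add_sub_cancel_left]
      exact hj
    · exact ⟨0, fun h => absurd h hg⟩
  choose m hm using hlift
  set G3 : Set (Pos w × P) := (fun g : Pos n × P => (φ0.trans (ext g.1), m g)) '' G with hG3
  have hG3N : ∀ g ∈ G3, g.2 ∈ N g.1 := by
    rintro _ ⟨g, hg, rfl⟩
    exact (hm g hg).1
  have hgenN : gen S S.A G3 ≤ N := gen_le hN hG3N
  refine ⟨G3, hGf.image _, hG3N, ?_⟩
  -- lifting the combinations
  have hcomb : ∀ (ψ : Pos n) (γ : P), γ ∈ gen S S.A G ψ →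
      ∃ δ ∈ gen S S.A G3 (φ0.trans (ext ψ)), γ * S.act (ext ψ) x - δ ∈
        czJ S b φ0 x (fun ψ' => czLex ψ' < czLex ψ) (φ0.trans (ext ψ)) := by
    intro ψ γ hγ
    unfold gen at hγ
    induction hγ using AddSubgroup.closure_induction with
    | mem γ hγ =>
      obtain ⟨g, hg, τ, hτ, a, ha, rfl⟩ := hγ
      refine ⟨a * S.act τ (m g), ?_, ?_⟩
      · have h3 := mem_gen (S := S) (B := S.A) (G := G3) (g := (φ0.trans (ext g.1), m g))
          ⟨g, hg, rfl⟩ τ a ha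
        simp only at h3
        rw [← czero_pos_ext φ0 hφ, hτ] at h3
        exact h3
      · have h3 := czJ_act hb φ0 x hsupp hφ g.1 _ τ _ (hm g hg).2
        rw [← czero_pos_ext φ0 hφ, hτ] at h3
        have h4 := czJ_smul hb φ0 x _ a (S.A_le ha) _ h3
        rw [map_sub, map_mul, ← czero_act_ext hsupp, hτ] at h4
        convert h4 using 1
        ring
    | zero => exact ⟨0, AddSubgroup.zero_mem _, by rw [zero_mul, sub_zero]; exact AddSubgroup.zero_mem _⟩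
    | add y z _ _ hy hz =>
      obtain ⟨δ1, h3, h4⟩ := hy
      obtain ⟨δ2, h5, h6⟩ := hz
      refine ⟨δ1 + δ2, AddSubgroup.add_mem _ h3 h5, ?_⟩
      have := AddSubgroup.add_mem _ h4 h6
      convert this using 1
      ring
    | neg y _ hy =>
      obtain ⟨δ1, h3, h4⟩ := hy
      refine ⟨-δ1, AddSubgroup.neg_mem _ h3, ?_⟩
      have := AddSubgroup.neg_mem _ h4
      convert this using 1
      ring
  have key : ∀ (k : Lex (Fin n → ℕ)) (ψ : Pos n), czLex ψ = k → ∀ a ∈ S.A',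
      ∀ j ∈ czJ S b φ0 x (fun ψ' => czLex ψ' < czLex ψ) (φ0.trans (ext ψ)),
      a * S.act (ext ψ) x + j ∈ N (φ0.trans (ext ψ)) →
      a * S.act (ext ψ) x + j ∈ b (φ0.trans (ext ψ)) ⊔ gen S S.A G3 (φ0.trans (ext ψ)) := by
    intro k
    induction k using WellFoundedLT.induction with
    | ind k ih =>
      rintro ψ rfl a ha j hj hy
      have haN : a ∈ Nt ψ := by
        refine ⟨ha, AddSubgroup.mem_sup.mpr ⟨_, hy, -j, AddSubgroup.neg_mem _ hj, by ring⟩⟩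
      obtain ⟨c, hc, γ, hγ, rfl⟩ := AddSubgroup.mem_sup.mp (hGgen ψ haN)
      obtain ⟨δ, hδ, hδ2⟩ := hcomb ψ γ hγ
      have hδN := hgenN _ hδ
      set φ := φ0.trans (ext ψ) with hφdef
      have hrest : (c + γ) * S.act (ext ψ) x + j - δ ∈
          czJ S b φ0 x (fun ψ' => czLex ψ' < czLex ψ) φ := by
        have h3 := AddSubgroup.add_mem _ (AddSubgroup.add_mem _ (czJ_b φ0 x φ hc.2) hδ2) hj
        convert h3 using 1
        ring
      have hrestN : (c + γ) * S.act (ext ψ) x + j - δ ∈ N φ := AddSubgroup.sub_mem _ hy hδN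
      have hfin : (c + γ) * S.act (ext ψ) x + j - δ ∈ b φ ⊔ gen S S.A G3 φ := by
        rcases czJ_top hb φ0 x hx φ _ hrest with h3 | ⟨ψ', h3, h4, a', ha', j', hj', h5⟩
        · exact AddSubgroup.mem_sup_left h3
        · rw [h5] at hrestN ⊢
          rw [← h4] at hj' hrestN ⊢
          exact ih _ h3 ψ' rfl a' ha' j' hj' hrestN
      have h6 := AddSubgroup.add_mem _ hfin (AddSubgroup.mem_sup_right (S := b φ) hδ)
      rwa [sub_add_cancel] at h6
  intro φ y hy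
  rcases czJ_top hb φ0 x hx φ y (czJ_all φ0 x hsupp hφ φ y (hNJ φ hy)) with
    h3 | ⟨ψ, _, h4, a, ha, j, hj, h5⟩
  · exact AddSubgroup.mem_sup_left h3
  · rw [h5] at hy ⊢
    rw [← h4] at hj hy ⊢
    exact key _ ψ rfl a ha j hj hy

end

theorem PN_of_ann {w : ℕ} {b : Pos w → AddSubgroup P} (hb : IsFam S S.A' b) (φ0 : Pos w) (x : P)
    (hx : x ∈ S.A') (n : ℕ) (hsupp : Supp S n x) (hφ : ∀ k, φ0 k < n)
    (h1 : PN S (ann S b φ0 x n)) (h2 : PN S (b ⊔ gen S S.A' {(φ0, x)})) : PN S b := by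
  intro N hN hbN
  set J : Pos w → AddSubgroup P := b ⊔ gen S S.A' {(φ0, x)} with hJdef
  have hJ : IsFam S S.A' J := hb.sup (isFam_genA' _ (by
    rintro g hg
    rw [Set.mem_singleton_iff] at hg
    rw [hg]
    exact hx))
  obtain ⟨G, hGf, hGN, hGgen⟩ := h2 (N ⊔ J) (hN.sup hJ.toA) le_sup_right
  have hlift : ∀ g : Pos w × P, ∃ m : P, g ∈ G → m ∈ N g.1 ∧ g.2 - m ∈ J g.1 := by
    intro g
    by_cases hg : g ∈ G
    · obtain ⟨m, hm, j, hj, he⟩ := AddSubgroup.mem_sup.mp (hGN g hg)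
      refine ⟨m, fun _ => ⟨hm, ?_⟩⟩
      rw [← he, add_sub_cancel_left]
      exact hj
    · exact ⟨0, fun h => absurd h hg⟩
  choose m hm using hlift
  set G1 : Set (Pos w × P) := (fun g : Pos w × P => (g.1, m g)) '' G with hG1
  have hG1N : ∀ g ∈ G1, g.2 ∈ N g.1 := by
    rintro _ ⟨g, hg, rfl⟩
    exact (hm g hg).1
  have hG1A : ∀ g ∈ G1, g.2 ∈ S.A' := fun g hg => hN.le _ _ (hG1N g hg)
  have hgenN : gen S S.A G1 ≤ N := gen_le hN hG1N
  have hGle : gen S S.A G ≤ J ⊔ gen S S.A G1 := by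
    apply gen_le (hJ.toA.sup (isFam_genA G1 hG1A))
    intro g hg
    have h3 : m g ∈ gen S S.A G1 g.1 := mem_gen_self (g := (g.1, m g)) ⟨g, hg, rfl⟩
    exact AddSubgroup.mem_sup.mpr ⟨_, (hm g hg).2, _, h3, by ring⟩
  have hN1 : IsFam S S.A (N ⊓ J) := hN.inf hJ.toA
  have hbJ : b ≤ J := le_sup_left
  have hFG1 : FG S S.A b (N ⊓ J) := czero_main hb φ0 x hx hsupp hφ h1 (N ⊓ J) hN1
    (le_inf hbN hbJ) inf_le_right
  have hFG2 : FG S S.A (N ⊓ J) N := by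
    refine ⟨G1, hGf.image _, hG1N, fun φ y hy => ?_⟩
    have h3 : y ∈ J φ ⊔ gen S S.A G φ := hGgen φ (AddSubgroup.mem_sup_left hy)
    obtain ⟨j, hj, γ, hγ, rfl⟩ := AddSubgroup.mem_sup.mp h3
    obtain ⟨j', hj', γ', hγ', rfl⟩ := AddSubgroup.mem_sup.mp (hGle φ hγ)
    refine AddSubgroup.mem_sup.mpr ⟨j + j', ⟨?_, AddSubgroup.add_mem _ hj hj'⟩, γ', hγ', by ring⟩
    have h4 := AddSubgroup.sub_mem _ hy (hgenN _ hγ')
    have h5 : j + (j' + γ') - γ' = j + j' := by ring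
    rw [h5] at h4
    exact h4
  exact hFG1.trans hFG2 inf_le_left

end MPf70651
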