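import Mathlib

/-!
# MP_f70651_al : definitions of the abstract situation
-/

namespace MPf70651

/-- Positions of `w` marks: strictly increasing maps `Fin w → ℕ`. -/
abbrev Pos (w : ℕ) := Fin w ↪o ℕ

/-- The abstract situation: a commutative ring `P` with an action of the monoid of all maps
`ℕ → ℕ`, two subrings `A ≤ A'` stable under injective maps, and a matrix `y i j` of elements with
off diagonal entries in `A` and diagonal entries in `A'`. -/
structure Sit (P : Type) [CommRing P] where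
  act : (ℕ → ℕ) → P →+* P
  act_id : ∀ p, act id p = p
  act_comp : ∀ (σ τ : ℕ → ℕ) (p : P), act (σ ∘ τ) p = act σ (act τ p)
  supp : ∀ p : P, ∃ n : ℕ, ∀ σ τ : ℕ → ℕ, (∀ i, i < n → σ i = τ i) → act σ p = act τ p
  A : Subring P
  A' : Subring P
  A_le : A ≤ A'
  y : ℕ → ℕ → P
  act_y : ∀ (τ : ℕ → ℕ) (i j : ℕ), act τ (y i j) = y (τ i) (τ j)
  y_mem : ∀ i j, i ≠ j → y i j ∈ A
  y_mem' : ∀ i j, y i j ∈ A'
  act_A : ∀ τ : ℕ → ℕ, Function.Injective τ → ∀ a ∈ A, act τ a ∈ A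
  act_A' : ∀ τ : ℕ → ℕ, Function.Injective τ → ∀ a ∈ A', act τ a ∈ A'

variable {P : Type} [CommRing P] (S : Sit P)

/-- `w`-marked families of `B`-submodules of `A'`, stable under increasing maps. -/
structure IsFam (B : Subring P) {w : ℕ} (N : Pos w → AddSubgroup P) : Prop where
  le : ∀ φ x, x ∈ N φ → x ∈ S.A'
  smul : ∀ φ a x, a ∈ B → x ∈ N φ → a * x ∈ N φ
  act : ∀ φ (τ : ℕ ↪o ℕ) x, x ∈ N φ → S.act τ x ∈ N (φ.trans τ)

/-- The family generated over `B` by the translates of the elements of `G`. -/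
def gen (B : Subring P) {w : ℕ} (G : Set (Pos w × P)) : Pos w → AddSubgroup P := fun φ =>
  AddSubgroup.closure {x | ∃ g ∈ G, ∃ τ : ℕ ↪o ℕ, g.1.trans τ = φ ∧ ∃ a ∈ B, x = a * S.act τ g.2}

/-- `N` is finitely generated over `B` modulo `b`. -/
def FG (B : Subring P) {w : ℕ} (b N : Pos w → AddSubgroup P) : Prop :=
  ∃ G : Set (Pos w × P), G.Finite ∧ (∀ g ∈ G, g.2 ∈ N g.1) ∧ ∀ φ, N φ ≤ b φ ⊔ gen S B G φ

/-- Every `A`-family above `b` is finitely generated modulo `b`. -/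
def PN {w : ℕ} (b : Pos w → AddSubgroup P) : Prop :=
  ∀ N : Pos w → AddSubgroup P, IsFam S S.A N → b ≤ N → FG S S.A b N

/-- `A'` is noetherian up to symmetry (all numbers of marks). -/
def NA : Prop :=
  ∀ (w : ℕ) (N : Pos w → AddSubgroup P), IsFam S S.A' N → FG S S.A' ⊥ N

/-- `A'` is generated as an `A`-module by the products of at most `s` diagonal entries. -/
def Bdd (s : ℕ) : Prop :=
  ∀ a ∈ S.A', a ∈ AddSubgroup.closure
    {x | ∃ c ∈ S.A, ∃ l : List ℕ, l.length ≤ s ∧ x = c * (l.map (fun i => S.y i i)).prod}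

/-- All the minors of size `r + 1` of the matrix `y` vanish. -/
def Minors (r : ℕ) : Prop :=
  ∀ s t : Fin (r + 1) → ℕ, (Matrix.of fun a b => S.y (s a) (t b)).det = 0

/-- The extension of a position `ψ` to an increasing map of `ℕ`. -/
noncomputable def extF {n : ℕ} (ψ : Pos n) (i : ℕ) : ℕ :=
  if h : i < n then ψ ⟨i, h⟩ else i + (∑ j, ψ j) + 1

theorem extF_strictMono {n : ℕ} (ψ : Pos n) : StrictMono (extF ψ) := by
  intro i j hij
  unfold extF
  by_cases hj : j < n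
  · have hi : i < n := lt_trans hij hj
    rw [dif_pos hi, dif_pos hj]
    exact ψ.strictMono (by simpa using hij)
  · rw [dif_neg hj]
    by_cases hi : i < n
    · rw [dif_pos hi]
      have : ψ ⟨i, hi⟩ ≤ ∑ j, ψ j :=
        Finset.single_le_sum (f := fun j => (ψ j : ℕ)) (fun _ _ => Nat.zero_le _)
          (Finset.mem_univ _)
      omega
    · rw [dif_neg hi]
      omega

/-- The extension of a position `ψ` to an increasing map of `ℕ`. -/
noncomputable def ext {n : ℕ} (ψ : Pos n) : ℕ ↪o ℕ :=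
  OrderEmbedding.ofStrictMono (extF ψ) (extF_strictMono ψ)

theorem ext_apply {n : ℕ} (ψ : Pos n) (i : ℕ) (h : i < n) : ext ψ i = ψ ⟨i, h⟩ := by
  show extF ψ i = _
  unfold extF
  rw [dif_pos h]

/-- `p` only depends on the indices `< n`. -/
def Supp (n : ℕ) (p : P) : Prop :=
  ∀ σ τ : ℕ → ℕ, (∀ i, i < n → σ i = τ i) → S.act σ p = S.act τ p

/-- The ideal `𝔤(b)`: the elements all of whose translates avoiding the marks are in `b`. -/
def gid {w : ℕ} (b : Pos w → AddSubgroup P) : AddSubgroup P where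
  carrier := {a | a ∈ S.A' ∧ ∀ (φ : Pos w) (τ : ℕ → ℕ), Function.Injective τ →
    (∀ i k, τ i ≠ φ k) → S.act τ a ∈ b φ}
  zero_mem' := ⟨S.A'.zero_mem, fun φ τ _ _ => by rw [map_zero]; exact (b φ).zero_mem⟩
  add_mem' := fun {a c} ha hc => ⟨S.A'.add_mem ha.1 hc.1, fun φ τ h1 h2 => by
    rw [map_add]; exact (b φ).add_mem (ha.2 φ τ h1 h2) (hc.2 φ τ h1 h2)⟩
  neg_mem' := fun {a} ha => ⟨S.A'.neg_mem ha.1, fun φ τ h1 h2 => by
    rw [map_neg]; exact (b φ).neg_mem (ha.2 φ τ h1 h2)⟩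

/-- The annihilator of `x` (at the position `φ0`) modulo `b`, a family with `n` marks. -/
def ann {w : ℕ} (b : Pos w → AddSubgroup P) (φ0 : Pos w) (x : P) (n : ℕ) :
    Pos n → AddSubgroup P := fun ψ =>
  { carrier := {a | a ∈ S.A' ∧ a * S.act (ext ψ) x ∈ b (φ0.trans (ext ψ))}
    zero_mem' := ⟨S.A'.zero_mem, by rw [zero_mul]; exact (b _).zero_mem⟩
    add_mem' := fun {a c} ha hc => ⟨S.A'.add_mem ha.1 hc.1, by
      rw [add_mul]; exact (b _).add_mem ha.2 hc.2⟩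
    neg_mem' := fun {a} ha => ⟨S.A'.neg_mem ha.1, by
      rw [neg_mul]; exact (b _).neg_mem ha.2⟩ }

/-- The property GB of a bad pair. -/
def GB {w : ℕ} (b : Pos w → AddSubgroup P) : Prop :=
  ∀ a ∈ S.A', a ∉ gid S b → ∀ (φ0 : Pos w), ∀ x ∈ S.A', x ∉ b φ0 → ∀ m : ℕ,
    ∃ (χ : ℕ ↪o ℕ) (τ : ℕ → ℕ), Function.Injective τ ∧ (∀ i j, j < m → τ i ≠ χ j) ∧
      S.act τ a * S.act χ x ∉ b (φ0.trans χ)

/-- Ideals of `A'` stable under all injective maps, with the product property GP. -/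
structure SymPrime (g : AddSubgroup P) : Prop where
  le : ∀ a ∈ g, a ∈ S.A'
  smul : ∀ c ∈ S.A', ∀ a ∈ g, c * a ∈ g
  act : ∀ τ : ℕ → ℕ, Function.Injective τ → ∀ a ∈ g, S.act τ a ∈ g
  one : (1 : P) ∉ g
  mul : ∀ a ∈ S.A', ∀ c ∈ S.A', a ∉ g → c ∉ g → ∀ σ τ : ℕ → ℕ, Function.Injective σ →
    Function.Injective τ → (∀ i j, σ i ≠ τ j) → S.act σ a * S.act τ c ∉ g

end MPf70651
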