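import Pool.Agent.Lib_MP_f70651_al.Defs

/-!
# MP_f70651_al : definitions of the concrete rings
-/

namespace MPf70651

open MvPolynomial

/-- The ring `ℂ[z][u_{i,a}, v_{j,a}]` (`a < r`): `some (i, (a, true))` is `u_{i,a}` and
`some (j, (a, false))` is `v_{j,a}`, `none` is `z`. -/
abbrev QQ (κ : Type) := MvPolynomial (Option (ℕ × κ)) ℂ

/-- The action of a map `τ : ℕ → ℕ` on the variables of `QQ κ`. -/
def actV (κ : Type) (τ : ℕ → ℕ) : Option (ℕ × κ) → Option (ℕ × κ) :=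
  Option.map (Prod.map τ id)

/-- The inner product `⟨u_i, v_j⟩`. -/
noncomputable def pair (r : ℕ) (i j : ℕ) : QQ (Fin r × Bool) :=
  ∑ a : Fin r, X (some (i, (a, true))) * X (some (j, (a, false)))

/-- `ℂ[z][⟨u_i, v_j⟩]`. -/
noncomputable def Gam (r : ℕ) : Subalgebra ℂ (QQ (Fin r × Bool)) :=
  Algebra.adjoin ℂ ({X none} ∪ {q | ∃ i j : ℕ, q = pair r i j})

/-- The Fischer inner product (conjugate linear in the first variable). -/
noncomputable def fis {σ : Type} (p q : MvPolynomial σ ℂ) : ℂ :=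
  ∑ m ∈ p.support, (m.prod fun _ k => (k.factorial : ℂ)) * (starRingEnd ℂ) (coeff m p) * coeff m q

/-- `P = ℂ[z, x_0, x_1, ...]`. -/
abbrev PP := MvPolynomial (Option ℕ) ℂ

/-- The homogenizing variable. -/
noncomputable def zz : PP := X none

/-- `f(x_i, x_j)` in `PP`. -/
noncomputable def fxy (f : MvPolynomial (Fin 2) ℂ) (i j : ℕ) : PP :=
  aeval ![X (some i), X (some j)] f

/-- `y_ij = z f(x_i, x_j)`. -/
noncomputable def YY (f : MvPolynomial (Fin 2) ℂ) (i j : ℕ) : PP := zz * fxy f i j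

/-- `A = ℂ[z, y_ij : i ≠ j]`. -/
noncomputable def AA (f : MvPolynomial (Fin 2) ℂ) : Subalgebra ℂ PP :=
  Algebra.adjoin ℂ ({zz} ∪ {p | ∃ i j : ℕ, i ≠ j ∧ p = YY f i j})

/-- `A' = ℂ[z, y_ij]`. -/
noncomputable def AA' (f : MvPolynomial (Fin 2) ℂ) : Subalgebra ℂ PP :=
  Algebra.adjoin ℂ ({zz} ∪ {p | ∃ i j : ℕ, p = YY f i j})

/-- The action on `PP`. -/
noncomputable def actP (τ : ℕ → ℕ) : PP →ₐ[ℂ] PP := rename (Option.map τ)

theorem actP_YY (f : MvPolynomial (Fin 2) ℂ) (τ : ℕ → ℕ) (i j : ℕ) :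
    actP τ (YY f i j) = YY f (τ i) (τ j) := by
  unfold YY zz fxy actP
  rw [map_mul, rename_X]
  congr 1
  have : ((rename (Option.map τ) : PP →ₐ[ℂ] PP).comp (aeval ![X (some i), X (some j)])) =
      (aeval ![X (some (τ i)), X (some (τ j))] : MvPolynomial (Fin 2) ℂ →ₐ[ℂ] PP) := by
    apply MvPolynomial.algHom_ext
    intro k
    fin_cases k <;> simp
  exact congrArg (fun g => g f) this

theorem actP_zz (τ : ℕ → ℕ) : actP τ zz = zz := by
  unfold zz actP
  rw [rename_X]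
  rfl

theorem actP_AA (f : MvPolynomial (Fin 2) ℂ) (τ : ℕ → ℕ) (hτ : Function.Injective τ) (a : PP)
    (ha : a ∈ AA f) : actP τ a ∈ AA f := by
  have h : (AA f).map (actP τ) ≤ AA f := by
    unfold AA
    rw [AlgHom.map_adjoin]
    apply Algebra.adjoin_mono
    rintro _ ⟨p, hp, rfl⟩
    rcases hp with hp | ⟨i, j, hij, rfl⟩
    · left
      rw [Set.mem_singleton_iff] at hp
      rw [hp, Set.mem_singleton_iff]
      exact actP_zz τ
    · right
      exact ⟨τ i, τ j, fun h => hij (hτ h), actP_YY f τ i j⟩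
  exact h ⟨a, ha, rfl⟩

theorem actP_AA' (f : MvPolynomial (Fin 2) ℂ) (τ : ℕ → ℕ) (a : PP)
    (ha : a ∈ AA' f) : actP τ a ∈ AA' f := by
  have h : (AA' f).map (actP τ) ≤ AA' f := by
    unfold AA'
    rw [AlgHom.map_adjoin]
    apply Algebra.adjoin_mono
    rintro _ ⟨p, hp, rfl⟩
    rcases hp with hp | ⟨i, j, rfl⟩
    · left
      rw [Set.mem_singleton_iff] at hp
      rw [hp, Set.mem_singleton_iff]
      exact actP_zz τ
    · right
      exact ⟨τ i, τ j, actP_YY f τ i j⟩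
  exact h ⟨a, ha, rfl⟩

theorem actP_supp (p : PP) : ∃ n : ℕ, ∀ σ τ : ℕ → ℕ, (∀ i, i < n → σ i = τ i) →
    actP σ p = actP τ p := by
  refine ⟨(p.vars.sup (fun o => o.elim 0 (fun i => i + 1))), fun σ τ h => ?_⟩
  apply MvPolynomial.hom_congr_vars
  · ext c
    simp [actP]
  · intro v hv _
    cases v with
    | none => simp [actP]
    | some i =>
      have h1 : i + 1 ≤ p.vars.sup (fun o => o.elim 0 (fun i => i + 1)) :=
        Finset.le_sup (f := fun o : Option ℕ => o.elim 0 (fun i => i + 1)) hv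
      have h2 := h i (by omega)
      simp [actP, h2]
  · rfl

/-- The concrete situation attached to `f`. -/
noncomputable def sit (f : MvPolynomial (Fin 2) ℂ) : Sit PP where
  act := fun τ => (actP τ : PP →+* PP)
  act_id := fun p => by
    show rename (Option.map id) p = p
    rw [Option.map_id]
    exact rename_id_apply p
  act_comp := fun σ τ p => by
    show rename (Option.map (σ ∘ τ)) p = rename (Option.map σ) (rename (Option.map τ) p)
    rw [rename_rename]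
    congr 1
    simp
  supp := actP_supp
  A := (AA f).toSubring
  A' := (AA' f).toSubring
  A_le := by
    show AA f ≤ AA' f
    apply Algebra.adjoin_mono
    rintro p (hp | ⟨i, j, _, hp⟩)
    · exact Or.inl hp
    · exact Or.inr ⟨i, j, hp⟩
  y := YY f
  act_y := fun τ i j => actP_YY f τ i j
  y_mem := fun i j h => Algebra.subset_adjoin (Or.inr ⟨i, j, h, rfl⟩)
  y_mem' := fun i j => Algebra.subset_adjoin (Or.inr ⟨i, j, rfl⟩)
  act_A := fun τ hτ a ha => actP_AA f τ hτ a ha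
  act_A' := fun τ _ a ha => actP_AA' f τ a ha

/-- Predicates on pairs of indices invariant under increasing maps. -/
class Inv (D : ℕ → ℕ → Prop) : Prop where
  inv : ∀ (τ : ℕ ↪o ℕ) (i j : ℕ), D i j → D (τ i) (τ j)

/-- Index set of the variables: `none` and the pairs satisfying `D`. -/
abbrev Idx (D : ℕ → ℕ → Prop) := Option {p : ℕ × ℕ // D p.1 p.2}

/-- The action of increasing maps on the index set. -/
def actX (D : ℕ → ℕ → Prop) [Inv D] (τ : ℕ ↪o ℕ) : Idx D → Idx D :=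
  Option.map (fun p => ⟨(τ p.1.1, τ p.1.2), Inv.inv τ _ _ p.2⟩)

/-- The predicate `i ≠ j`. -/
def Off (i j : ℕ) : Prop := i ≠ j

instance : Inv Off := ⟨fun τ _ _ h h' => h (τ.injective h')⟩

/-- The ideal generated by the translates of the elements of `G`. -/
noncomputable def trI (D : ℕ → ℕ → Prop) [Inv D] (G : Set (MvPolynomial (Idx D) ℂ)) :
    Ideal (MvPolynomial (Idx D) ℂ) :=
  Ideal.span {q | ∃ h ∈ G, ∃ τ : ℕ ↪o ℕ, q = rename (actX D τ) h}

/-- The map `ℂ[z, y_ij : i ≠ j] → ℂ[z, x_0, x_1, ...]`. -/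
noncomputable def phi (f : MvPolynomial (Fin 2) ℂ) : MvPolynomial (Idx Off) ℂ →ₐ[ℂ] PP :=
  aeval (fun v : Idx Off => match v with
    | none => zz
    | some p => YY f p.1.1 p.1.2)

/-- `R_∞ = ℂ[y_ij : i ≠ j]`. -/
abbrev RR := MvPolynomial {p : ℕ × ℕ // p.1 ≠ p.2} ℂ

/-- `S_∞ = ℂ[x_i]`. -/
abbrev SS := MvPolynomial ℕ ℂ

/-- The map `R_∞ → S_∞`, `y_ij ↦ f(x_i, x_j)`. -/
noncomputable def phi0 (f : MvPolynomial (Fin 2) ℂ) : RR →ₐ[ℂ] SS :=
  aeval (fun p : {p : ℕ × ℕ // p.1 ≠ p.2} => (aeval ![X p.1.1, X p.1.2] f : SS))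

/-- The action of a permutation on the index set of `R_∞`. -/
def permY (σ : Equiv.Perm ℕ) (p : {p : ℕ × ℕ // p.1 ≠ p.2}) : {p : ℕ × ℕ // p.1 ≠ p.2} :=
  ⟨(σ p.1.1, σ p.1.2), fun h => p.2 (σ.injective h)⟩

end MPf70651
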