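import Pool.Agent.Lib_MP_f70651_al.DefsTwo

/-!
# MP_f70651_al : homogenisation and dehomogenisation (piece DEHOM)
-/

namespace MPf70651

open MvPolynomial

/-- Evaluation of a homogeneous polynomial at a scaled point. -/
theorem dehom_aeval_scaled {σ : Type} {R : Type} [CommRing R] [Algebra ℂ R] {k : ℕ}
    {g : MvPolynomial σ ℂ} (hg : g.IsHomogeneous k) (z : R) (h : σ → R) :
    aeval (fun v => z * h v) g = z ^ k * aeval h g := by
  rw [aeval_def, aeval_def, eval₂_eq, eval₂_eq, Finset.mul_sum]
  refine Finset.sum_congr rfl fun d hd => ?_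
  have h1 : ∏ i ∈ d.support, (z * h i) ^ d i = z ^ k * ∏ i ∈ d.support, h i ^ d i := by
    simp_rw [mul_pow]
    rw [Finset.prod_mul_distrib, Finset.prod_pow_eq_pow_sum]
    congr 2
    have h2 := hg (mem_support_iff.1 hd)
    rw [← h2, Finsupp.weight_apply, Finsupp.sum]
    refine Finset.sum_congr rfl fun i _ => ?_
    simp
  rw [h1]
  ring

/-- The substitution `z ↦ 1` on `ℂ[z, y_ij]` with values in `S_∞`. -/
noncomputable def dehomE (f : MvPolynomial (Fin 2) ℂ) : MvPolynomial (Idx Off) ℂ →ₐ[ℂ] SS :=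
  aeval (fun v : Idx Off => match v with
    | none => 1
    | some p => (aeval ![X p.1.1, X p.1.2] f : SS))

theorem dehom_psi_phi (f : MvPolynomial (Fin 2) ℂ) (g : MvPolynomial (Idx Off) ℂ) :
    optionEquivLeft ℂ ℕ (phi f g) = aeval (fun v : Idx Off => (Polynomial.X : Polynomial SS) *
      Polynomial.C (dehomE f (X v))) g := by
  have h : ((optionEquivLeft ℂ ℕ : PP ≃ₐ[ℂ] Polynomial SS) : PP →ₐ[ℂ] Polynomial SS).comp
      (phi f) = aeval (fun v : Idx Off => (Polynomial.X : Polynomial SS) *
      Polynomial.C (dehomE f (X v))) := by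
    apply algHom_ext
    intro v
    cases v with
    | none =>
      simp [phi, dehomE, zz, optionEquivLeft_X_none]
    | some p =>
      simp only [AlgHom.comp_apply, phi, aeval_X, dehomE, YY, fxy, zz, map_mul]
      congr 1
      · exact optionEquivLeft_X_none ℂ ℕ
      have h2 : (((optionEquivLeft ℂ ℕ : PP ≃ₐ[ℂ] Polynomial SS) : PP →ₐ[ℂ] Polynomial SS).comp
          (aeval ![X (some p.1.1), X (some p.1.2)])) =
          ((Polynomial.CAlgHom : SS →ₐ[ℂ] Polynomial SS).comp
            (aeval ![X p.1.1, X p.1.2] : MvPolynomial (Fin 2) ℂ →ₐ[ℂ] SS)) := by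
        apply MvPolynomial.algHom_ext
        intro k
        fin_cases k <;> simp [optionEquivLeft_X_some]
      exact congrArg (fun g => g f) h2
  exact congrArg (fun u => u g) h

theorem dehom_aeval_C (f : MvPolynomial (Fin 2) ℂ) (g : MvPolynomial (Idx Off) ℂ) :
    aeval (fun v : Idx Off => (Polynomial.C (dehomE f (X v)) : Polynomial SS)) g =
      Polynomial.C (dehomE f g) := by
  have h : aeval (fun v : Idx Off => (Polynomial.C (dehomE f (X v)) : Polynomial SS)) =
      (Polynomial.CAlgHom : SS →ₐ[ℂ] Polynomial SS).comp (dehomE f) := by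
    apply algHom_ext
    intro v
    simp
  exact congrArg (fun u => u g) h

theorem dehom_comp (f : MvPolynomial (Fin 2) ℂ) {k : ℕ} {g : MvPolynomial (Idx Off) ℂ}
    (hg : g.IsHomogeneous k) :
    optionEquivLeft ℂ ℕ (phi f g) = Polynomial.X ^ k * Polynomial.C (dehomE f g) := by
  rw [dehom_psi_phi, dehom_aeval_scaled hg, dehom_aeval_C]

theorem phi_hom (f : MvPolynomial (Fin 2) ℂ) (g : MvPolynomial (Idx Off) ℂ) (hg : phi f g = 0)
    (k : ℕ) : phi f (homogeneousComponent k g) = 0 := by
  have h1 : optionEquivLeft ℂ ℕ (phi f g) = ∑ i ∈ Finset.range (g.totalDegree + 1),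
      Polynomial.X ^ i * Polynomial.C (dehomE f (homogeneousComponent i g)) := by
    conv_lhs => rw [← sum_homogeneousComponent g]
    rw [map_sum, map_sum]
    exact Finset.sum_congr rfl fun i _ =>
      dehom_comp f (homogeneousComponent_isHomogeneous i g)
  rw [hg, map_zero] at h1
  have h2 : dehomE f (homogeneousComponent k g) = 0 := by
    by_cases hk : k < g.totalDegree + 1
    · have h3 := congrArg (fun q => Polynomial.coeff q k) h1
      simp only [Polynomial.coeff_zero, Polynomial.finsetSum_coeff] at h3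
      rw [Finset.sum_eq_single k] at h3
      · simpa [Polynomial.coeff_X_pow_mul'] using h3.symm
      · intro i _ hik
        rw [Polynomial.coeff_X_pow_mul']
        split_ifs with h4
        · rw [Polynomial.coeff_C, if_neg (by omega)]
        · rfl
      · intro h4
        exact absurd (Finset.mem_range.2 hk) h4
    · rw [homogeneousComponent_eq_zero _ _ (by omega), map_zero]
  have h3 := dehom_comp f (homogeneousComponent_isHomogeneous k g)
  rw [h2, Polynomial.C_0, mul_zero] at h3
  exact (map_eq_zero_iff _ (optionEquivLeft ℂ ℕ).injective).1 h3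

theorem phi_act (f : MvPolynomial (Fin 2) ℂ) (τ : ℕ ↪o ℕ) (g : MvPolynomial (Idx Off) ℂ) :
    phi f (rename (actX Off τ) g) = (sit f).act τ (phi f g) := by
  have h : (phi f).comp (rename (actX Off τ)) = (actP τ).comp (phi f) := by
    apply algHom_ext
    intro v
    cases v with
    | none =>
      simp only [AlgHom.comp_apply, rename_X, phi, aeval_X]
      exact (actP_zz τ).symm
    | some p =>
      simp only [AlgHom.comp_apply, rename_X, phi, aeval_X]
      exact (actP_YY f τ _ _).symm
  exact congrArg (fun u => u g) h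

theorem phi_range (f : MvPolynomial (Fin 2) ℂ) (a : PP) :
    a ∈ (sit f).A ↔ ∃ g, phi f g = a := by
  have h : AA f = (phi f).range := by
    unfold AA phi
    rw [← Algebra.adjoin_range_eq_range_aeval]
    congr 1
    ext p
    constructor
    · rintro (hp | ⟨i, j, hij, rfl⟩)
      · exact ⟨none, hp.symm⟩
      · exact ⟨some ⟨(i, j), hij⟩, rfl⟩
    · rintro ⟨v, rfl⟩
      cases v with
      | none => left; rfl
      | some p => right; exact ⟨p.1.1, p.1.2, p.2, rfl⟩
  show a ∈ AA f ↔ _
  rw [h]
  exact Iff.rfl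

/-- A finitely supported permutation agreeing with an injective map on `[0,n)`. -/
theorem dehom_exists_perm (τ : ℕ → ℕ) (hτ : Function.Injective τ) (n : ℕ) :
    ∃ σ : Equiv.Perm ℕ, {i | σ i ≠ i}.Finite ∧ ∀ i, i < n → σ i = τ i := by
  induction n with
  | zero => exact ⟨1, by simp, fun i hi => absurd hi (Nat.not_lt_zero i)⟩
  | succ n ih =>
    obtain ⟨σ, h1, h2⟩ := ih
    refine ⟨Equiv.swap (σ n) (τ n) * σ, ?_, ?_⟩
    · refine (h1.union (Set.toFinite {σ n, τ n})).subset ?_
      intro i hi
      by_cases h : σ i = i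
      · right
        simp only [Set.mem_ofPred_eq, Equiv.Perm.mul_apply, h] at hi
        by_contra h'
        simp only [Set.mem_insert_iff, Set.mem_singleton_iff, not_or] at h'
        exact hi (Equiv.swap_apply_of_ne_of_ne h'.1 h'.2)
      · left
        exact h
    · intro i hi
      rw [Equiv.Perm.mul_apply]
      rcases Nat.lt_succ_iff_lt_or_eq.1 hi with h | h
      · rw [h2 i h]
        apply Equiv.swap_apply_of_ne_of_ne
        · intro h'
          rw [← h2 i h] at h'
          exact absurd (σ.injective h') (by omega)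
        · intro h'
          exact absurd (hτ h') (by omega)
      · rw [h, Equiv.swap_apply_left]

/-- The substitution `z ↦ 1`, `y_ij ↦ y_ij`. -/
noncomputable def dehomD : MvPolynomial (Idx Off) ℂ →ₐ[ℂ] RR :=
  aeval (fun v : Idx Off => match v with
    | none => 1
    | some p => (X ⟨p.1, p.2⟩ : RR))

/-- The inclusion `R_∞ → ℂ[z, y_ij]`. -/
noncomputable def dehomI : RR →ₐ[ℂ] MvPolynomial (Idx Off) ℂ :=
  rename (fun p : {p : ℕ × ℕ // p.1 ≠ p.2} => (some ⟨p.1, p.2⟩ : Idx Off))

/-- The action of injective maps on the index set of `R_∞`. -/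
def dehomY (τ : ℕ → ℕ) (hτ : Function.Injective τ) (p : {p : ℕ × ℕ // p.1 ≠ p.2}) :
    {p : ℕ × ℕ // p.1 ≠ p.2} :=
  ⟨(τ p.1.1, τ p.1.2), fun h => p.2 (hτ h)⟩

theorem dehomD_I (r : RR) : dehomD (dehomI r) = r := by
  have h : dehomD.comp dehomI = AlgHom.id ℂ RR := by
    apply algHom_ext
    intro p
    simp only [AlgHom.comp_apply, dehomI, rename_X, dehomD, aeval_X]
    rfl
  exact congrArg (fun u => u r) h

theorem dehomD_act (τ : ℕ ↪o ℕ) (g : MvPolynomial (Idx Off) ℂ) :
    dehomD (rename (actX Off τ) g) = rename (dehomY τ τ.injective) (dehomD g) := by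
  have h : dehomD.comp (rename (actX Off τ)) =
      (rename (dehomY τ τ.injective) : RR →ₐ[ℂ] RR).comp dehomD := by
    apply algHom_ext
    intro v
    cases v with
    | none =>
      simp only [AlgHom.comp_apply, rename_X, dehomD, aeval_X]
      simp [actX]
    | some p =>
      simp only [AlgHom.comp_apply, rename_X, dehomD, aeval_X]
      rfl
  exact congrArg (fun u => u g) h

theorem dehomE_eq (f : MvPolynomial (Fin 2) ℂ) (g : MvPolynomial (Idx Off) ℂ) :
    dehomE f g = phi0 f (dehomD g) := by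
  have h : dehomE f = (phi0 f).comp dehomD := by
    apply algHom_ext
    intro v
    cases v with
    | none =>
      simp only [AlgHom.comp_apply, dehomD, dehomE, aeval_X, map_one]
    | some p =>
      simp only [AlgHom.comp_apply, dehomD, dehomE, aeval_X, phi0]
  exact congrArg (fun u => u g) h

theorem dehom_ker (f : MvPolynomial (Fin 2) ℂ) (g : MvPolynomial (Idx Off) ℂ)
    (hg : phi f g = 0) : phi0 f (dehomD g) = 0 := by
  rw [← dehomE_eq]
  have h1 : dehomE f g = ∑ k ∈ Finset.range (g.totalDegree + 1),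
      dehomE f (homogeneousComponent k g) := by
    conv_lhs => rw [← sum_homogeneousComponent g]
    rw [map_sum]
  rw [h1]
  refine Finset.sum_eq_zero fun k _ => ?_
  have h2 := phi_hom f g hg k
  have h3 := dehom_comp f (homogeneousComponent_isHomogeneous k g)
  rw [h2, map_zero] at h3
  have h4 : (Polynomial.X : Polynomial SS) ^ k ≠ 0 := pow_ne_zero _ Polynomial.X_ne_zero
  have h5 := (mul_eq_zero.1 h3.symm).resolve_left h4
  exact Polynomial.C_eq_zero.1 h5

theorem dehomI_hom {k : ℕ} {r : RR} (hr : r.IsHomogeneous k) : (dehomI r).IsHomogeneous k := by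
  unfold dehomI
  exact hr.rename_isHomogeneous

theorem phi0_perm (f : MvPolynomial (Fin 2) ℂ) (σ : Equiv.Perm ℕ) (r : RR) :
    phi0 f (rename (permY σ) r) = rename σ (phi0 f r) := by
  have h : (phi0 f).comp (rename (permY σ)) = (rename σ : SS →ₐ[ℂ] SS).comp (phi0 f) := by
    apply algHom_ext
    intro p
    simp only [AlgHom.comp_apply, rename_X, phi0, aeval_X]
    have h2 : ((rename σ : SS →ₐ[ℂ] SS).comp (aeval ![X p.1.1, X p.1.2])) =
        (aeval ![X (σ p.1.1), X (σ p.1.2)] : MvPolynomial (Fin 2) ℂ →ₐ[ℂ] SS) := by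
      apply MvPolynomial.algHom_ext
      intro k
      fin_cases k <;> simp
    exact (congrArg (fun g => g f) h2).symm
  exact congrArg (fun u => u r) h

theorem dehom_rename_congr (r : RR) : ∃ n : ℕ, ∀ (τ : ℕ → ℕ) (hτ : Function.Injective τ)
    (σ : Equiv.Perm ℕ), (∀ i, i < n → σ i = τ i) →
      rename (dehomY τ hτ) r = rename (permY σ) r := by
  refine ⟨r.vars.sup (fun p => p.1.1 + p.1.2 + 1), fun τ hτ σ h => ?_⟩
  have key : ((rename (dehomY τ hτ) : RR →ₐ[ℂ] RR) : RR →+* RR) r =
      ((rename (permY σ) : RR →ₐ[ℂ] RR) : RR →+* RR) r := by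
    apply MvPolynomial.hom_congr_vars
    · ext c
      simp
    · intro p hp _
      have h1 : p.1.1 + p.1.2 + 1 ≤ r.vars.sup (fun p => p.1.1 + p.1.2 + 1) :=
        Finset.le_sup (f := fun p : {p : ℕ × ℕ // p.1 ≠ p.2} => p.1.1 + p.1.2 + 1) hp
      have h2 := h p.1.1 (by omega)
      have h3 := h p.1.2 (by omega)
      simp only [RingHom.coe_coe, rename_X, dehomY, permY, h2, h3]
    · rfl
  exact key

theorem dehom (f : MvPolynomial (Fin 2) ℂ)
    (hG : ∃ G : Set (MvPolynomial (Idx Off) ℂ), G.Finite ∧ (∀ g ∈ G, phi f g = 0) ∧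
      ∀ g, phi f g = 0 → g ∈ trI Off G) :
    ∃ G : Finset RR, (∀ g ∈ G, phi0 f g = 0) ∧
      Ideal.span {q | ∃ σ : Equiv.Perm ℕ, {i | σ i ≠ i}.Finite ∧ ∃ g ∈ G,
        q = rename (permY σ) g} = RingHom.ker (phi0 f) := by
  classical
  obtain ⟨G, hfin, hG0, hGall⟩ := hG
  refine ⟨hfin.toFinset.image dehomD, ?_, ?_⟩
  · intro g hg
    obtain ⟨g', hg', rfl⟩ := Finset.mem_image.1 hg
    exact dehom_ker f g' (hG0 g' (hfin.mem_toFinset.1 hg'))
  · apply le_antisymm
    · rw [Ideal.span_le]
      rintro _ ⟨σ, _, g, hg, rfl⟩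
      obtain ⟨g', hg', rfl⟩ := Finset.mem_image.1 hg
      show phi0 f _ = 0
      rw [phi0_perm, dehom_ker f g' (hG0 g' (hfin.mem_toFinset.1 hg')), map_zero]
    · intro r hr
      have hr' : phi0 f r = 0 := hr
      -- the homogenisation
      set D := r.totalDegree with hD
      set rh : MvPolynomial (Idx Off) ℂ := ∑ k ∈ Finset.range (D + 1),
        X none ^ (D - k) * dehomI (homogeneousComponent k r) with hrh
      have h1 : dehomD rh = r := by
        rw [hrh, map_sum]
        conv_rhs => rw [← sum_homogeneousComponent r]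
        refine Finset.sum_congr rfl fun k _ => ?_
        rw [map_mul, map_pow, dehomD_I]
        have : dehomD (X none) = 1 := by simp [dehomD]
        rw [this, one_pow, one_mul]
      have h2 : rh.IsHomogeneous D := by
        rw [hrh]
        apply IsHomogeneous.sum
        intro k hk
        have h3 : k ≤ D := Nat.lt_succ_iff.1 (Finset.mem_range.1 hk)
        have h4 : ((X none : MvPolynomial (Idx Off) ℂ) ^ (D - k)).IsHomogeneous (1 * (D - k)) :=
          (isHomogeneous_X ℂ none).pow (D - k)
        have h5 := h4.mul (dehomI_hom (homogeneousComponent_isHomogeneous k r))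
        rwa [one_mul, Nat.sub_add_cancel h3] at h5
      have h3 : phi f rh = 0 := by
        have h4 := dehom_comp f h2
        rw [dehomE_eq, h1, hr', Polynomial.C_0, mul_zero] at h4
        exact (map_eq_zero_iff _ (optionEquivLeft ℂ ℕ).injective).1 h4
      have h4 := hGall rh h3
      have h5 : dehomD rh ∈ Ideal.map dehomD (trI Off G) := Ideal.mem_map_of_mem dehomD h4
      rw [h1, trI, Ideal.map_span] at h5
      refine (Ideal.span_le.2 ?_) h5
      rintro _ ⟨q, ⟨h, hh, τ, rfl⟩, rfl⟩
      obtain ⟨n, hn⟩ := dehom_rename_congr (dehomD h)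
      obtain ⟨σ, hσ, hστ⟩ := dehom_exists_perm τ τ.injective n
      apply Ideal.subset_span
      refine ⟨σ, hσ, dehomD h, Finset.mem_image.2 ⟨h, hfin.mem_toFinset.2 hh, rfl⟩, ?_⟩
      rw [dehomD_act]
      exact hn τ τ.injective σ hστ

end MPf70651
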