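import Pool.Agent.Lib_MP_f70651_al.Defs

/-!
# MP_f70651_al, piece DET
-/

namespace MPf70651

variable {P : Type} [CommRing P] {S : Sit P}

theorem minors_of_factor (r : ℕ) (u v : ℕ → Fin r → P)
    (h : ∀ i j, S.y i j = ∑ a, u i a * v j a) : Minors S r := by
  intro s t
  set U : Matrix (Fin (r + 1)) (Fin (r + 1)) P :=
    Matrix.of fun i a => (Fin.lastCases (0 : P) (fun b => u (s i) b) a : P) with hU
  set V : Matrix (Fin (r + 1)) (Fin (r + 1)) P :=
    Matrix.of fun a j => (Fin.lastCases (0 : P) (fun b => v (t j) b) a : P) with hV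
  have hM : (Matrix.of fun a b => S.y (s a) (t b)) = U * V := by
    ext i j
    rw [Matrix.mul_apply, Fin.sum_univ_castSucc]
    simp [hU, hV, h]
  rw [hM, Matrix.det_mul, Matrix.det_eq_zero_of_column_eq_zero (Fin.last r), zero_mul]
  intro i
  simp [hU]

end MPf70651
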