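import Pool.Agent.Lib_MP_f70651_al.Acc
import Pool.Agent.Lib_MP_f70651_al.Czero

/-!
# MP_f70651_al : the choice of the bad pair (piece DEV)
-/

namespace MPf70651

section abstractPart

variable {P : Type} [CommRing P] {S : Sit P}

theorem dev_gid_mono {w : ℕ} {b c : Pos w → AddSubgroup P} (h : b ≤ c) : gid S b ≤ gid S c :=
  fun _ ha => ⟨ha.1, fun φ τ h1 h2 => h φ (ha.2 φ τ h1 h2)⟩

theorem dev_isFam_gid {w : ℕ} {b : Pos w → AddSubgroup P} (hb : IsFam S S.A' b) :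
    IsFam S S.A' (fun _ : Pos 0 => gid S b) where
  le := fun _ _ hx => hx.1
  smul := fun _ c x hc hx => ⟨S.A'.mul_mem hc hx.1, fun φ τ h1 h2 => by
    rw [map_mul]
    exact hb.smul φ _ _ (S.act_A' τ h1 c hc) (hx.2 φ τ h1 h2)⟩
  act := fun _ σ x hx => ⟨S.act_A' σ σ.injective x hx.1, fun φ τ h1 h2 => by
    rw [act_comp_apply]
    exact hx.2 φ _ (h1.comp σ.injective) (fun i k => h2 (σ i) k)⟩

theorem dev_gid_ann {w : ℕ} {b : Pos w → AddSubgroup P} (hb : IsFam S S.A' b) (φ0 : Pos w) (x : P)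
    (hx : x ∈ S.A') (n : ℕ) (hφ : ∀ k, φ0 k < n) : gid S b ≤ gid S (ann S b φ0 x n) := by
  intro a ha
  refine ⟨ha.1, fun ψ τ h1 h2 => ⟨S.act_A' τ h1 a ha.1, ?_⟩⟩
  have h3 : S.act τ a ∈ b (φ0.trans (ext ψ)) := by
    refine ha.2 _ τ h1 fun i k => ?_
    have : (φ0.trans (ext ψ)) k = ψ ⟨φ0 k, hφ k⟩ := ext_apply ψ _ (hφ k)
    rw [this]
    exact h2 i _
  have h4 := hb.smul _ _ _ (S.act_A' (ext ψ) (ext ψ).injective x hx) h3
  rwa [mul_comm] at h4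

theorem exists_bad (hN : NA S)
    (h : ¬ ∀ (w : ℕ) (b : Pos w → AddSubgroup P), IsFam S S.A' b → PN S b) :
    ∃ (w : ℕ) (b : Pos w → AddSubgroup P), IsFam S S.A' b ∧ ¬ PN S b ∧
      (∀ c : Pos w → AddSubgroup P, IsFam S S.A' c → b < c → PN S c) ∧ GB S b := by
  push Not at h
  obtain ⟨w1, b1, hb1, hPN1⟩ := h
  -- the maximal `gid`
  obtain ⟨g0, ⟨w, b0, hb0, hPN0, hg0⟩, hmax0⟩ := (acc hN 0).has_min
    {N | ∃ (w : ℕ) (b : Pos w → AddSubgroup P), IsFam S S.A' b ∧ ¬ PN S b ∧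
      N.1 = fun _ => gid S b} ⟨⟨_, dev_isFam_gid hb1⟩, w1, b1, hb1, hPN1, rfl⟩
  have hmaxg : ∀ (w' : ℕ) (b : Pos w' → AddSubgroup P), IsFam S S.A' b → ¬ PN S b →
      gid S b0 ≤ gid S b → gid S b = gid S b0 := by
    intro w' b hb hPN hle
    by_contra hne
    refine hmax0 ⟨_, dev_isFam_gid hb⟩ ⟨w', b, hb, hPN, rfl⟩ ?_
    show g0.1 < fun _ => gid S b
    rw [hg0]
    refine lt_of_le_of_ne (fun _ => hle) fun heq => hne ?_
    exact (congrFun heq (OrderEmbedding.ofIsEmpty)).symm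
  -- the maximal `b`
  obtain ⟨⟨b, hb⟩, ⟨hPN, hgb⟩, hmax1⟩ := (acc hN w).has_min
    {N | ¬ PN S N.1 ∧ gid S N.1 = gid S b0} ⟨⟨b0, hb0⟩, hPN0, rfl⟩
  simp only at hPN hgb
  have hc : ∀ c : Pos w → AddSubgroup P, IsFam S S.A' c → b < c → PN S c := by
    intro c hc hbc
    by_contra hPNc
    have h1 : gid S c = gid S b0 := hmaxg w c hc hPNc (hgb ▸ dev_gid_mono hbc.le)
    exact hmax1 ⟨c, hc⟩ ⟨hPNc, h1⟩ hbc
  refine ⟨w, b, hb, hPN, hc, ?_⟩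
  intro a ha hag φ0 x hx hxb m
  obtain ⟨n1, hn1⟩ := exists_supp (S := S) x
  obtain ⟨n2, hn2⟩ := exists_bound φ0
  set n := m + n1 + n2 with hn
  have hsupp : Supp S n x := hn1.mono (by omega)
  have hφ : ∀ k, φ0 k < n := fun k => lt_of_lt_of_le (hn2 k) (by omega)
  have hJ : IsFam S S.A' (b ⊔ gen S S.A' {(φ0, x)}) := hb.sup (isFam_genA' _ (by
    intro g hg
    rw [Set.mem_singleton_iff] at hg
    rw [hg]
    exact hx))
  have hbJ : b < b ⊔ gen S S.A' {(φ0, x)} := by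
    refine lt_of_le_of_ne le_sup_left fun heq => hxb ?_
    rw [heq]
    have h1 : gen S S.A' {(φ0, x)} φ0 ≤ (b ⊔ gen S S.A' {(φ0, x)}) φ0 :=
      (le_sup_right : gen S S.A' {(φ0, x)} ≤ b ⊔ gen S S.A' {(φ0, x)}) φ0
    exact h1 (mem_gen_self (g := (φ0, x)) (Set.mem_singleton _))
  have hann : ¬ PN S (ann S b φ0 x n) := fun h =>
    hPN (PN_of_ann hb φ0 x hx n hsupp hφ h (hc _ hJ hbJ))
  have hgann : gid S (ann S b φ0 x n) = gid S b0 :=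
    hmaxg n _ (isFam_ann hb φ0 x hx n hsupp hφ) hann (hgb ▸ dev_gid_ann hb φ0 x hx n hφ)
  have ha2 : a ∉ gid S (ann S b φ0 x n) := by rwa [hgann, ← hgb]
  have ha3 : ¬ ∀ (φ : Pos n) (τ : ℕ → ℕ), Function.Injective τ →
    (∀ i k, τ i ≠ φ k) → S.act τ a ∈ ann S b φ0 x n φ := fun h => ha2 ⟨ha, h⟩
  push Not at ha3
  obtain ⟨ψ, τ, hτ, hτψ, h5⟩ := ha3
  refine ⟨ext ψ, τ, hτ, fun i j hj => ?_, fun h6 => h5 ⟨S.act_A' τ hτ a ha, h6⟩⟩
  rw [ext_apply ψ j (by omega)]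
  exact hτψ i _

end abstractPart

end MPf70651
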