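import Pool.Agent.Lib_MP_f70651_al.Basic

/-!
# MP_f70651_al : piece ESSEN
-/

namespace MPf70651

variable {P : Type} [CommRing P] {S : Sit P}

/-- product of powers of the marked diagonal entries -/
def essenG (S : Sit P) {w : ℕ} (φ : Pos w) (e : Fin w → ℕ) : P := ∏ k, S.y (φ k) (φ k) ^ e k

theorem essenG_act {w : ℕ} (φ : Pos w) (e : Fin w → ℕ) (τ : ℕ ↪o ℕ) :
    S.act τ (essenG S φ e) = essenG S (φ.trans τ) e := by
  unfold essenG
  rw [map_prod]
  refine Finset.prod_congr rfl (fun k _ => ?_)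
  rw [map_pow, S.act_y]
  rfl

theorem essenG_mem {w : ℕ} (φ : Pos w) (e : Fin w → ℕ) : essenG S φ e ∈ S.A' :=
  S.A'.prod_mem (fun _ _ => S.A'.pow_mem (S.y_mem' _ _) _)

theorem essen_comp (σ τ : ℕ ↪o ℕ) (p : P) : S.act σ (S.act τ p) = S.act (τ.trans σ) p :=
  (S.act_comp σ τ p).symm

/-- multiplying the generator by the marked product -/
theorem essen_gen_mul {w : ℕ} {φ1 : Pos w} {x : P} (e : Fin w → ℕ) {φ : Pos w} {γ : P}
    (h : γ ∈ gen S S.A {(φ1, essenG S φ1 e * x)} φ) :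
    ∃ z ∈ gen S S.A {(φ1, x)} φ, γ = essenG S φ e * z := by
  unfold gen at h
  induction h using AddSubgroup.closure_induction with
  | mem γ hγ =>
    obtain ⟨g, hg, τ, hτ, a, ha, rfl⟩ := hγ
    rw [Set.mem_singleton_iff] at hg
    subst hg
    refine ⟨a * S.act τ x, ?_, ?_⟩
    · rw [← hτ]
      exact mem_gen (S := S) (B := S.A) (G := {(φ1, x)}) (Set.mem_singleton _) τ a ha
    · rw [← hτ]
      show a * S.act τ (essenG S φ1 e * x) = _
      rw [map_mul, essenG_act]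
      ring
  | zero => exact ⟨0, AddSubgroup.zero_mem _, by rw [mul_zero]⟩
  | add x y _ _ hx hy =>
    obtain ⟨z, hz, rfl⟩ := hx
    obtain ⟨z', hz', rfl⟩ := hy
    exact ⟨z + z', AddSubgroup.add_mem _ hz hz', by rw [mul_add]⟩
  | neg x _ hx =>
    obtain ⟨z, hz, rfl⟩ := hx
    exact ⟨-z, AddSubgroup.neg_mem _ hz, by rw [mul_neg]⟩

theorem essen_gen_old {w : ℕ} {E : Pos w → AddSubgroup P} (hE : IsFam S S.A E) {φ1 : Pos w}
    {x : P} (e : Fin w → ℕ) (he : essenG S φ1 e * x ∈ E φ1) {φ : Pos w} {z : P}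
    (h : z ∈ gen S S.A {(φ1, x)} φ) : essenG S φ e * z ∈ E φ := by
  unfold gen at h
  induction h using AddSubgroup.closure_induction with
  | mem z hz =>
    obtain ⟨g, hg, τ, hτ, a, ha, rfl⟩ := hz
    rw [Set.mem_singleton_iff] at hg
    subst hg
    have h1 := hE.smul _ a _ ha (hE.act φ1 τ _ he)
    rw [map_mul, essenG_act] at h1
    have h2 : essenG S φ e * (a * S.act τ x) = a * (essenG S (φ1.trans τ) e * S.act τ x) := by
      have h3 : φ1.trans τ = φ := hτ
      rw [h3]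
      ring
    show essenG S φ e * (a * S.act τ x) ∈ E φ
    rw [h2]
    have h3 : φ1.trans τ = φ := hτ
    rw [← h3]
    exact h1
  | zero => rw [mul_zero]; exact AddSubgroup.zero_mem _
  | add x y _ _ hx hy => rw [mul_add]; exact AddSubgroup.add_mem _ hx hy
  | neg x _ hx => rw [mul_neg]; exact AddSubgroup.neg_mem _ hx

/-- a maximal complement of `N` modulo `b` -/
theorem essen_complement {w : ℕ} {b N : Pos w → AddSubgroup P} (hb : IsFam S S.A b) :
    ∃ C : Pos w → AddSubgroup P, IsFam S S.A C ∧ b ≤ C ∧ N ⊓ C ≤ b ∧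
      ∀ D : Pos w → AddSubgroup P, IsFam S S.A D → b ≤ D → N ⊓ D ≤ b → C ≤ D → D ≤ C := by
  have hz := zorn_le_nonempty₀
    {M : Pos w → AddSubgroup P | IsFam S S.A M ∧ b ≤ M ∧ N ⊓ M ≤ b} ?_ b
    ⟨hb, le_rfl, inf_le_right⟩
  · obtain ⟨m, _, hm⟩ := hz
    refine ⟨m, hm.1.1, hm.1.2.1, hm.1.2.2, ?_⟩
    intro D h1 h2 h3 h4
    exact hm.2 ⟨h1, h2, h3⟩ h4
  · intro c hc hchain M0 hM0
    have htot : ∀ M ∈ c, ∀ M' ∈ c, M ≤ M' ∨ M' ≤ M := fun M hM M' hM' => hchain.total hM hM'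
    refine ⟨fun φ =>
      { carrier := {x | ∃ M ∈ c, x ∈ M φ}
        zero_mem' := ⟨M0, hM0, AddSubgroup.zero_mem _⟩
        add_mem' := ?_
        neg_mem' := ?_ }, ⟨?_, ?_, ?_⟩, ?_⟩
    · rintro x y ⟨M, hM, hx⟩ ⟨M', hM', hy⟩
      rcases htot M hM M' hM' with h | h
      · exact ⟨M', hM', AddSubgroup.add_mem _ (h φ hx) hy⟩
      · exact ⟨M, hM, AddSubgroup.add_mem _ hx (h φ hy)⟩
    · rintro x ⟨M, hM, hx⟩
      exact ⟨M, hM, AddSubgroup.neg_mem _ hx⟩
    · refine ⟨?_, ?_, ?_⟩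
      · rintro φ x ⟨M, hM, hx⟩
        exact (hc hM).1.le φ x hx
      · rintro φ a x ha ⟨M, hM, hx⟩
        exact ⟨M, hM, (hc hM).1.smul φ a x ha hx⟩
      · rintro φ τ x ⟨M, hM, hx⟩
        exact ⟨M, hM, (hc hM).1.act φ τ x hx⟩
    · intro φ x hx
      exact ⟨M0, hM0, (hc hM0).2.1 φ hx⟩
    · rintro φ x ⟨hxN, M, hM, hx⟩
      exact (hc hM).2.2 φ ⟨hxN, hx⟩
    · intro M hM φ x hx
      exact ⟨M, hM, hx⟩

theorem essen_replace {w : ℕ} {C : Pos w → AddSubgroup P} (hC : IsFam S S.A C)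
    (G : Set (Pos w × P)) (f : Pos w × P → P) (hf : ∀ g ∈ G, g.2 - f g ∈ C g.1) {φ : Pos w}
    {γ : P} (h : γ ∈ gen S S.A G φ) :
    ∃ γ' ∈ gen S S.A ((fun g : Pos w × P => (g.1, f g)) '' G) φ, γ - γ' ∈ C φ := by
  unfold gen at h
  induction h using AddSubgroup.closure_induction with
  | mem γ hγ =>
    obtain ⟨g, hg, τ, hτ, a, ha, rfl⟩ := hγ
    refine ⟨a * S.act τ (f g), ?_, ?_⟩
    · have hmem : ((g.1, f g) : Pos w × P) ∈ (fun g : Pos w × P => (g.1, f g)) '' G :=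
        ⟨g, hg, rfl⟩
      have h1 := mem_gen (S := S) (B := S.A) hmem τ a ha
      rw [← hτ]
      exact h1
    · have h1 := hC.smul _ a _ ha (hC.act g.1 τ _ (hf g hg))
      rw [map_sub, mul_sub, hτ] at h1
      exact h1
  | zero => exact ⟨0, AddSubgroup.zero_mem _, by rw [sub_zero]; exact AddSubgroup.zero_mem _⟩
  | add x y _ _ hx hy =>
    obtain ⟨z, hz, h1⟩ := hx
    obtain ⟨z', hz', h2⟩ := hy
    refine ⟨z + z', AddSubgroup.add_mem _ hz hz', ?_⟩
    have : x + y - (z + z') = (x - z) + (y - z') := by ring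
    rw [this]
    exact AddSubgroup.add_mem _ h1 h2
  | neg x _ hx =>
    obtain ⟨z, hz, h1⟩ := hx
    refine ⟨-z, AddSubgroup.neg_mem _ hz, ?_⟩
    have : -x - -z = -(x - z) := by ring
    rw [this]
    exact AddSubgroup.neg_mem _ h1

theorem PN_of_absorb {w : ℕ} {b : Pos w → AddSubgroup P} (hb : IsFam S S.A' b)
    (hc : ∀ c : Pos w → AddSubgroup P, IsFam S S.A' c → b < c → PN S c) (hGB : GB S b)
    (hF : ∀ J : Pos w → AddSubgroup P, IsFam S S.A' J → FG S S.A ⊥ J) {s : ℕ} {b0 : P}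
    (hb0A : b0 ∈ S.A) (hb0 : b0 ∉ gid S b)
    (habs : ∀ (φ : Pos w) (τ : ℕ → ℕ), Function.Injective τ →
      (∀ i k, τ i ≠ φ k) → ∀ a ∈ S.A', S.act τ b0 * a ∈ b φ ⊔ AddSubgroup.closure
        {x | ∃ c ∈ S.A, ∃ e : Fin w → ℕ, (∀ k, e k ≤ s) ∧
          x = c * ∏ k, S.y (φ k) (φ k) ^ e k}) : PN S b := by
  classical
  intro N hN hbN
  by_cases htriv : ∀ φ x, x ∈ S.A' → x ∈ b φ
  · exact FG.of_le (fun φ x hx => htriv φ x (hN.le φ x hx))
  push Not at htriv
  obtain ⟨φs, xs, hxs, hxs'⟩ := htriv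
  obtain ⟨C, hC, hbC, hNC, hmax⟩ := essen_complement (N := N) hb.toA
  set E : Pos w → AddSubgroup P := N ⊔ C with hEdef
  have hE : IsFam S S.A E := hN.sup hC
  have hNE : N ≤ E := le_sup_left
  have hCE : C ≤ E := le_sup_right
  have hbE : b ≤ E := hbN.trans hNE
  have hess : ∀ M : Pos w → AddSubgroup P, IsFam S S.A M → b ≤ M → M ⊓ E ≤ b → M ≤ b := by
    intro M hM hbM hME
    have h1 : N ⊓ (C ⊔ M) ≤ b := by
      rintro φ n ⟨hn, hn'⟩
      obtain ⟨c, hcc, m, hm, rfl⟩ := AddSubgroup.mem_sup.mp hn'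
      have h2 : m ∈ E φ := by
        have : m = (c + m) - c := by ring
        rw [this]
        exact AddSubgroup.sub_mem _ (hNE φ hn) (hCE φ hcc)
      have h3 : m ∈ b φ := hME φ ⟨hm, h2⟩
      exact hNC φ ⟨hn, AddSubgroup.add_mem _ hcc (hbC φ h3)⟩
    have h2 : C ⊔ M ≤ C := hmax (C ⊔ M) (hC.sup hM) (hbC.trans le_sup_left) h1 le_sup_left
    intro φ x hx
    exact hME φ ⟨hx, hCE φ (h2 φ ((le_sup_right : M ≤ C ⊔ M) φ hx))⟩
  -- the claim
  have claim : ∀ T : Finset (Fin w → ℕ), ∃ (φ1 : Pos w) (x : P), x ∈ S.A' ∧ x ∉ b φ1 ∧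
      ∀ e ∈ T, essenG S φ1 e * x ∈ E φ1 := by
    intro T
    induction T using Finset.induction_on with
    | empty => exact ⟨φs, xs, hxs, hxs', fun e he => absurd he (Finset.notMem_empty e)⟩
    | insert e' T _ ih =>
      obtain ⟨φ1, x, hxA, hxb, hold⟩ := ih
      by_cases hcase : essenG S φ1 e' * x ∈ b φ1
      · refine ⟨φ1, x, hxA, hxb, ?_⟩
        intro e he
        rcases Finset.mem_insert.mp he with rfl | he
        · exact hbE φ1 hcase
        · exact hold e he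
      · have hmem : essenG S φ1 e' * x ∈ S.A' := S.A'.mul_mem (essenG_mem φ1 e') hxA
        set M : Pos w → AddSubgroup P := b ⊔ gen S S.A {(φ1, essenG S φ1 e' * x)} with hMdef
        have hM : IsFam S S.A M := hb.toA.sup (isFam_genA _ (by
          intro g hg
          rw [Set.mem_singleton_iff] at hg
          rw [hg]
          exact hmem))
        have hnot : ¬ (M ⊓ E ≤ b) := by
          intro h
          have h1 := hess M hM le_sup_left h
          apply hcase
          apply h1 φ1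
          apply (le_sup_right : gen S S.A {(φ1, essenG S φ1 e' * x)} ≤ M) φ1
          exact mem_gen_self (S := S) (B := S.A) (g := (φ1, essenG S φ1 e' * x))
            (Set.mem_singleton _)
        have hex : ∃ φ' x', x' ∈ M φ' ∧ x' ∈ E φ' ∧ x' ∉ b φ' := by
          by_contra hne
          push Not at hne
          exact hnot (fun φ y hy => hne φ y hy.1 hy.2)
        obtain ⟨φ', x', hx'M, hx'E, hx'b⟩ := hex
        obtain ⟨β, hβ, γ, hγ, rfl⟩ := AddSubgroup.mem_sup.mp hx'M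
        obtain ⟨z, hz, rfl⟩ := essen_gen_mul e' hγ
        have hzA : z ∈ S.A' := (isFam_genA (S := S) {(φ1, x)} (by
          intro g hg
          rw [Set.mem_singleton_iff] at hg
          rw [hg]
          exact hxA)).le φ' z hz
        refine ⟨φ', z, hzA, ?_, ?_⟩
        · intro hzb
          apply hx'b
          exact AddSubgroup.add_mem _ hβ (hb.smul φ' _ z (essenG_mem φ' e') hzb)
        · intro e he
          rcases Finset.mem_insert.mp he with rfl | he
          · have : essenG S φ' e * z = (β + essenG S φ' e * z) - β := by ring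
            rw [this]
            exact AddSubgroup.sub_mem _ hx'E (hbE φ' hβ)
          · exact essen_gen_old hE e (hold e he) hz
  obtain ⟨φ1, x, hxA, hxb, hall⟩ := claim (Fintype.piFinset (fun _ => Finset.range (s + 1)))
  have hall' : ∀ e : Fin w → ℕ, (∀ k, e k ≤ s) → essenG S φ1 e * x ∈ E φ1 := by
    intro e he
    apply hall
    rw [Fintype.mem_piFinset]
    intro k
    exact Finset.mem_range.mpr (Nat.lt_succ_of_le (he k))
  obtain ⟨m, hm⟩ := exists_bound φ1
  obtain ⟨χ, τ, hτ, hτχ, hnot⟩ := hGB b0 (S.A_le hb0A) hb0 φ1 x hxA hxb m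
  set y : P := S.act τ b0 * S.act χ x with hy
  have hyA : y ∈ S.A' :=
    S.A'.mul_mem (S.act_A' τ hτ _ (S.A_le hb0A)) (S.act_A' χ χ.injective _ hxA)
  set J : Pos w → AddSubgroup P := b ⊔ gen S S.A' {(φ1.trans χ, y)} with hJdef
  have hJ : IsFam S S.A' J := hb.sup (isFam_genA' _ (by
    intro g hg
    rw [Set.mem_singleton_iff] at hg
    rw [hg]
    exact hyA))
  have hbJ : b < J := by
    refine lt_of_le_not_ge le_sup_left ?_
    intro h
    apply hnot
    apply h (φ1.trans χ)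
    apply (le_sup_right : gen S S.A' {(φ1.trans χ, y)} ≤ J) (φ1.trans χ)
    exact mem_gen_self (S := S) (B := S.A') (g := (φ1.trans χ, y)) (Set.mem_singleton _)
  have hJE : J ≤ E := by
    refine sup_le hbE ?_
    intro φ
    unfold gen
    rw [AddSubgroup.closure_le]
    rintro _ ⟨g, hg, σ, hσ, a, ha, rfl⟩
    rw [Set.mem_singleton_iff] at hg
    subst hg
    have hσ' : (φ1.trans χ).trans σ = φ := hσ
    have hinj : Function.Injective (fun i => σ (τ i)) := σ.injective.comp hτ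
    have havoid : ∀ i k, (fun i => σ (τ i)) i ≠ φ k := by
      intro i k h
      rw [← hσ'] at h
      have h1 : τ i = χ (φ1 k) := σ.injective h
      exact hτχ i (φ1 k) (hm k) h1
    have h1 := habs φ (fun i => σ (τ i)) hinj havoid a ha
    have h2 : a * S.act σ (S.act τ b0 * S.act χ x) =
        (S.act (fun i => σ (τ i)) b0 * a) * S.act (χ.trans σ) x := by
      rw [map_mul, act_comp_apply, essen_comp]
      ring
    show a * S.act σ (S.act τ b0 * S.act χ x) ∈ E φ
    rw [h2]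
    obtain ⟨β, hβ, γ, hγ, hsum⟩ := AddSubgroup.mem_sup.mp h1
    rw [← hsum, add_mul]
    have hxσ : S.act (χ.trans σ) x ∈ S.A' := S.act_A' _ (χ.trans σ).injective _ hxA
    apply AddSubgroup.add_mem
    · rw [mul_comm]
      exact hbE φ (hb.smul φ _ β hxσ hβ)
    · clear hsum h1
      induction hγ using AddSubgroup.closure_induction with
      | mem γ hγ =>
        obtain ⟨c, hcA, e, he, rfl⟩ := hγ
        have h3 := hE.smul _ c _ hcA (hE.act φ1 (χ.trans σ) _ (hall' e he))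
        rw [map_mul, essenG_act] at h3
        have h4 : φ1.trans (χ.trans σ) = φ := hσ'
        rw [h4] at h3
        have h5 : c * ∏ k, S.y (φ k) (φ k) ^ e k = c * essenG S φ e := rfl
        rw [h5, mul_assoc]
        exact h3
      | zero => rw [zero_mul]; exact AddSubgroup.zero_mem _
      | add x y _ _ hx hy => rw [add_mul]; exact AddSubgroup.add_mem _ hx hy
      | neg x _ hx => rw [neg_mul]; exact AddSubgroup.neg_mem _ hx
  have hFGJE : FG S S.A J E := hc J hJ hbJ E hE hJE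
  have hFGbJ : FG S S.A b J := (hF J hJ).mono bot_le
  obtain ⟨G, hGfin, hGE, hGgen⟩ := hFGbJ.trans hFGJE hJE
  -- decompose the generators
  have hdec : ∀ g : Pos w × P, ∃ n : P, g ∈ G → n ∈ N g.1 ∧ g.2 - n ∈ C g.1 := by
    intro g
    by_cases hg : g ∈ G
    · obtain ⟨n, hn, c, hcc, hsum⟩ := AddSubgroup.mem_sup.mp (hGE g hg)
      refine ⟨n, fun _ => ⟨hn, ?_⟩⟩
      rw [← hsum, add_sub_cancel_left]
      exact hcc
    · exact ⟨0, fun h => absurd h hg⟩
  choose f hf using hdec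
  refine ⟨(fun g : Pos w × P => (g.1, f g)) '' G, hGfin.image _, ?_, ?_⟩
  · rintro _ ⟨g, hg, rfl⟩
    exact (hf g hg).1
  · intro φ n hn
    obtain ⟨β, hβ, γ, hγ, hsum⟩ := AddSubgroup.mem_sup.mp (hGgen φ (hNE φ hn))
    obtain ⟨γ', hγ', hdiff⟩ := essen_replace hC G f (fun g hg => (hf g hg).2) hγ
    have hγN : γ' ∈ N φ := by
      refine gen_le hN ?_ φ hγ'
      rintro _ ⟨g, hg, rfl⟩
      exact (hf g hg).1
    have h1 : n - β - γ' ∈ b φ := by
      apply hNC φ
      refine ⟨AddSubgroup.sub_mem _ (AddSubgroup.sub_mem _ hn (hbN φ hβ)) hγN, ?_⟩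
      have : n - β - γ' = γ - γ' := by rw [← hsum]; ring
      rw [this]
      exact hdiff
    have h2 : n = (β + (n - β - γ')) + γ' := by ring
    rw [h2]
    exact AddSubgroup.mem_sup.mpr ⟨_, AddSubgroup.add_mem _ hβ h1, _, hγ', rfl⟩

end MPf70651
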