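import Pool.Agent.Lib_MP_f70651_al.DefsTwo

/-!
# MP_f70651_al : piece EULER
-/

namespace MPf70651

open MvPolynomial

theorem euler_pderiv_comp {σ : Type} (v : σ) (k : ℕ) (g : MvPolynomial σ ℂ) :
    pderiv v (homogeneousComponent (k + 1) g) = homogeneousComponent k (pderiv v g) := by
  ext m
  rw [coeff_pderiv, coeff_homogeneousComponent, coeff_homogeneousComponent, coeff_pderiv]
  have h : (m + Finsupp.single v 1).degree = m.degree + 1 := by
    rw [map_add, Finsupp.degree_single]
  rw [h]
  by_cases hk : m.degree = k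
  · rw [if_pos hk, if_pos (by rw [hk])]
  · rw [if_neg hk, if_neg (by omega), zero_mul]

theorem euler_identity {σ : Type} (n : ℕ) (u : MvPolynomial σ ℂ) (hu : u.IsHomogeneous n) :
    ∑ v ∈ u.vars, X v * pderiv v u = (n : ℂ) • u := by
  classical
  have h1 : ∀ v : σ, X v * pderiv v u = ∑ m ∈ u.support, (m v) • monomial m (coeff m u) := by
    intro v
    conv_lhs => rw [u.as_sum]
    rw [map_sum, Finset.mul_sum]
    refine Finset.sum_congr rfl (fun m _ => ?_)
    rw [X_mul_pderiv_monomial]
  simp_rw [h1]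
  rw [Finset.sum_comm]
  conv_rhs => rw [u.as_sum, Finset.smul_sum]
  refine Finset.sum_congr rfl (fun m hm => ?_)
  rw [← Finset.sum_smul]
  have h2 : ∑ v ∈ u.vars, m v = n := by
    have h3 : m.degree = n := by
      by_contra hne
      exact (mem_support_iff.mp hm) (hu.coeff_eq_zero hne)
    rw [← h3, Finsupp.degree_apply]
    symm
    apply Finset.sum_subset
    · intro v hv
      exact (mem_vars v).mpr ⟨m, hm, hv⟩
    · intro v _ hv
      exact Finsupp.notMem_support_iff.mp hv
  rw [h2]
  simp [Nat.cast_smul_eq_nsmul]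

attribute [local instance] MvPolynomial.gradedAlgebra

theorem euler_comp_mem {σ : Type} (T : Set (MvPolynomial σ ℂ))
    (hT : ∀ t ∈ T, ∃ n, t.IsHomogeneous n) (u : MvPolynomial σ ℂ) (hu : u ∈ Ideal.span T)
    (k : ℕ) : homogeneousComponent k u ∈ Ideal.span T := by
  apply homogeneousComponent_mem_of_mem _ hu
  apply Ideal.homogeneous_span
  intro x hx
  obtain ⟨n, hn⟩ := hT x hx
  exact ⟨n, hn⟩

theorem ker_fg_of_grad {P : Type} [CommRing P] [Algebra ℂ P] (D : ℕ → ℕ → Prop) [Inv D]
    (Φ : MvPolynomial (Idx D) ℂ →ₐ[ℂ] P)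
    (hhom : ∀ g, Φ g = 0 → ∀ k, Φ (homogeneousComponent k g) = 0)
    (h0 : ∀ c : ℂ, Φ (C c) = 0 → c = 0)
    (hstab : ∀ (τ : ℕ ↪o ℕ) g, Φ g = 0 → Φ (rename (actX D τ) g) = 0)
    (hG : ∃ G : Set (MvPolynomial (Idx D) ℂ), G.Finite ∧ (∀ g ∈ G, Φ g = 0) ∧
      ∀ g, Φ g = 0 → ∃ g' ∈ trI D G, ∀ v, Φ (pderiv v (g - g')) = 0) :
    ∃ G : Set (MvPolynomial (Idx D) ℂ), G.Finite ∧ (∀ g ∈ G, Φ g = 0) ∧
      ∀ g, Φ g = 0 → g ∈ trI D G := by
  obtain ⟨G, hfin, hker, hgrad⟩ := hG
  set G' : Set (MvPolynomial (Idx D) ℂ) :=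
    ⋃ g ∈ G, ((fun k => homogeneousComponent k g) '' ((Finset.range (g.totalDegree + 1) : Finset ℕ) : Set ℕ))
    with hG'
  have hmem : ∀ g ∈ G, ∀ k ∈ Finset.range (g.totalDegree + 1), homogeneousComponent k g ∈ G' := by
    intro g hg k hk
    rw [hG']
    exact Set.mem_biUnion hg ⟨k, by exact_mod_cast hk, rfl⟩
  have hcases : ∀ t ∈ G', ∃ g ∈ G, ∃ k, t = homogeneousComponent k g := by
    intro t ht
    rw [hG'] at ht
    simp only [Set.mem_iUnion] at ht
    obtain ⟨g, hg, k, _, rfl⟩ := ht
    exact ⟨g, hg, k, rfl⟩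
  have hhomT : ∀ t ∈ {q | ∃ h ∈ G', ∃ τ : ℕ ↪o ℕ, q = rename (actX D τ) h},
      ∃ n, t.IsHomogeneous n := by
    rintro _ ⟨h, hh, τ, rfl⟩
    obtain ⟨g, _, k, rfl⟩ := hcases h hh
    exact ⟨k, (homogeneousComponent_isHomogeneous k g).rename_isHomogeneous⟩
  have hle : trI D G ≤ trI D G' := by
    unfold trI
    rw [Ideal.span_le]
    rintro _ ⟨g, hg, τ, rfl⟩
    have h1 : rename (actX D τ) g = ∑ k ∈ Finset.range (g.totalDegree + 1),
        rename (actX D τ) (homogeneousComponent k g) := by
      rw [← map_sum, sum_homogeneousComponent]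
    rw [h1]
    apply Ideal.sum_mem
    intro k hk
    exact Ideal.subset_span ⟨_, hmem g hg k hk, τ, rfl⟩
  have main : ∀ (k : ℕ) (g : MvPolynomial (Idx D) ℂ), g.IsHomogeneous k → Φ g = 0 →
      g ∈ trI D G' := by
    intro k
    induction k with
    | zero =>
      intro g hg hΦ
      have h1 : g = C (coeff 0 g) := by
        rw [← totalDegree_zero_iff_isHomogeneous, totalDegree_eq_zero_iff_eq_C] at hg
        exact hg
      rw [h1] at hΦ
      have h2 := h0 _ hΦ
      rw [h1, h2, C_0]
      exact Ideal.zero_mem _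
    | succ k ih =>
      intro g hg hΦ
      obtain ⟨g', hg', hgr⟩ := hgrad g hΦ
      have h1 : homogeneousComponent (k + 1) g' ∈ trI D G' :=
        euler_comp_mem _ hhomT g' (hle hg') (k + 1)
      set u := g - homogeneousComponent (k + 1) g' with hu
      have hcg : homogeneousComponent (k + 1) g = g := homogeneousComponent_eq_self hg
      have hu' : u = homogeneousComponent (k + 1) (g - g') := by
        rw [map_sub, hcg]
      have huh : u.IsHomogeneous (k + 1) := by
        rw [hu']
        exact homogeneousComponent_isHomogeneous _ _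
      have hpd : ∀ v, pderiv v u ∈ trI D G' := by
        intro v
        have h2 : pderiv v u = homogeneousComponent k (pderiv v (g - g')) := by
          rw [hu', euler_pderiv_comp]
        apply ih
        · rw [h2]
          exact homogeneousComponent_isHomogeneous _ _
        · rw [h2]
          exact hhom _ (hgr v) k
      have hmul : ((k + 1 : ℕ) : ℂ) • u ∈ trI D G' := by
        rw [← euler_identity (k + 1) u huh]
        apply Ideal.sum_mem
        intro v _
        exact Ideal.mul_mem_left _ _ (hpd v)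
      have hu_mem : u ∈ trI D G' := by
        have h3 : u = C (((k + 1 : ℕ) : ℂ)⁻¹) * (((k + 1 : ℕ) : ℂ) • u) := by
          rw [← smul_eq_C_mul, smul_smul, inv_mul_cancel₀ (by exact_mod_cast Nat.succ_ne_zero k),
            one_smul]
        rw [h3]
        exact Ideal.mul_mem_left _ _ hmul
      have h4 : g = u + homogeneousComponent (k + 1) g' := by
        rw [hu]; ring
      rw [h4]
      exact Ideal.add_mem _ hu_mem h1
  refine ⟨G', ?_, ?_, ?_⟩
  · rw [hG']
    exact hfin.biUnion (fun g _ => (Finset.finite_toSet _).image _)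
  · intro t ht
    obtain ⟨g, hg, k, rfl⟩ := hcases t ht
    exact hhom g (hker g hg) k
  · intro g hg
    rw [← sum_homogeneousComponent g]
    apply Ideal.sum_mem
    intro k _
    exact main k _ (homogeneousComponent_isHomogeneous _ _) (hhom g hg k)

end MPf70651
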