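import Pool.Agent.Lib_MP_f70651_al.DefsTwo

/-!
# MP_f70651_al : the Laplacians and the truncations preserve `ℂ[z, ⟨u_i, v_j⟩]`
-/

namespace MPf70651

open MvPolynomial

theorem fisa_z_mem (r : ℕ) : (X none : QQ (Fin r × Bool)) ∈ Gam r :=
  Algebra.subset_adjoin (Or.inl rfl)

theorem fisa_pair_mem (r i j : ℕ) : pair r i j ∈ Gam r :=
  Algebra.subset_adjoin (Or.inr ⟨i, j, rfl⟩)

/-- A derivation preserving the generators preserves `Gam r`. -/
theorem fisa_der (r : ℕ) (D : Derivation ℂ (QQ (Fin r × Bool)) (QQ (Fin r × Bool)))
    (hz : D (X none) ∈ Gam r) (hp : ∀ i j, D (pair r i j) ∈ Gam r) (g : QQ (Fin r × Bool))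
    (hg : g ∈ Gam r) : D g ∈ Gam r := by
  have hg' : g ∈ Gam r := hg
  unfold Gam at hg
  induction hg using Algebra.adjoin_induction with
  | mem x hx =>
    rcases hx with hx | ⟨i, j, rfl⟩
    · rw [Set.mem_singleton_iff] at hx
      rw [hx]; exact hz
    · exact hp i j
  | algebraMap c =>
    rw [Derivation.map_algebraMap]
    exact (Gam r).zero_mem
  | add x y hx hy h1 h2 =>
    rw [map_add]
    exact (Gam r).add_mem (h1 hx) (h2 hy)
  | mul x y hx hy h1 h2 =>
    rw [Derivation.leibniz]
    exact (Gam r).add_mem ((Gam r).mul_mem hx (h2 hy)) ((Gam r).mul_mem hy (h1 hx))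

theorem fisa_du_pair (r i j k : ℕ) (a : Fin r) :
    pderiv (some (k, (a, true))) (pair r i j) =
      if k = i then X (some (j, (a, false))) else 0 := by
  unfold pair
  rw [map_sum]
  have h : ∀ b : Fin r, pderiv (some (k, (a, true)))
      (X (some (i, (b, true))) * X (some (j, (b, false))) : QQ (Fin r × Bool)) =
      if b = a then (if k = i then X (some (j, (a, false))) else 0) else 0 := by
    intro b
    rw [pderiv_mul, pderiv_X, pderiv_X]
    rw [Pi.single_apply, Pi.single_apply]
    have h1 : ¬ ((some (j, (b, false)) : Option (ℕ × (Fin r × Bool))) = some (k, (a, true))) := by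
      simp
    rw [if_neg h1, mul_zero, add_zero]
    by_cases hb : b = a
    · subst hb
      by_cases hk : k = i
      · subst hk; simp
      · have : ¬ ((some (i, (b, true)) : Option (ℕ × (Fin r × Bool))) = some (k, (b, true))) := by
          simpa using fun h => hk h.symm
        rw [if_neg this, if_pos rfl, if_neg hk, zero_mul]
    · have : ¬ ((some (i, (b, true)) : Option (ℕ × (Fin r × Bool))) = some (k, (a, true))) := by
        simpa using fun _ => hb
      rw [if_neg this, if_neg hb, zero_mul]
  rw [Finset.sum_congr rfl (fun b _ => h b), Finset.sum_ite_eq' Finset.univ a]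
  simp

theorem fisa_dv_pair (r i j k : ℕ) (a : Fin r) :
    pderiv (some (k, (a, false))) (pair r i j) =
      if k = j then X (some (i, (a, true))) else 0 := by
  unfold pair
  rw [map_sum]
  have h : ∀ b : Fin r, pderiv (some (k, (a, false)))
      (X (some (i, (b, true))) * X (some (j, (b, false))) : QQ (Fin r × Bool)) =
      if b = a then (if k = j then X (some (i, (a, true))) else 0) else 0 := by
    intro b
    rw [pderiv_mul, pderiv_X, pderiv_X]
    rw [Pi.single_apply, Pi.single_apply]
    have h1 : ¬ ((some (i, (b, true)) : Option (ℕ × (Fin r × Bool))) = some (k, (a, false))) := by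
      simp
    rw [if_neg h1, zero_mul, zero_add]
    by_cases hb : b = a
    · subst hb
      by_cases hk : k = j
      · subst hk; simp
      · have : ¬ ((some (j, (b, false)) : Option (ℕ × (Fin r × Bool))) = some (k, (b, false))) := by
          simpa using fun h => hk h.symm
        rw [if_neg this, if_pos rfl, if_neg hk, mul_zero]
    · have : ¬ ((some (j, (b, false)) : Option (ℕ × (Fin r × Bool))) = some (k, (a, false))) := by
        simpa using fun _ => hb
      rw [if_neg this, if_neg hb, mul_zero]
  rw [Finset.sum_congr rfl (fun b _ => h b), Finset.sum_ite_eq' Finset.univ a]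
  simp

theorem fisa_du_z (r k : ℕ) (c : Fin r × Bool) :
    pderiv (some (k, c)) (X none : QQ (Fin r × Bool)) = 0 := by
  rw [pderiv_X, Pi.single_apply]
  simp

/-- `E_{ik} = Σ_a u_{ka} ∂/∂u_{ia}`. -/
noncomputable def fisaE (r i k : ℕ) (s : Bool) :
    Derivation ℂ (QQ (Fin r × Bool)) (QQ (Fin r × Bool)) :=
  ∑ a : Fin r, (X (some (k, (a, s))) : QQ (Fin r × Bool)) • pderiv (some (i, (a, s)))

theorem fisaE_apply (r i k : ℕ) (s : Bool) (p : QQ (Fin r × Bool)) :
    fisaE r i k s p = ∑ a : Fin r, X (some (k, (a, s))) * pderiv (some (i, (a, s))) p := by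
  unfold fisaE
  have h := map_sum (Derivation.coeFnAddMonoidHom :
    Derivation ℂ (QQ (Fin r × Bool)) (QQ (Fin r × Bool)) →+ _)
    (fun a : Fin r => (X (some (k, (a, s))) : QQ (Fin r × Bool)) • pderiv (some (i, (a, s))))
    Finset.univ
  have h2 := congrFun h p
  rw [Finset.sum_apply] at h2
  exact h2

theorem fisaE_mem (r i k : ℕ) (s : Bool) (g : QQ (Fin r × Bool)) (hg : g ∈ Gam r) :
    fisaE r i k s g ∈ Gam r := by
  apply fisa_der r _ _ _ g hg
  · rw [fisaE_apply, Finset.sum_congr rfl (fun a _ => by rw [fisa_du_z, mul_zero])]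
    simp
  · intro i' j'
    rw [fisaE_apply]
    cases s with
    | true =>
      by_cases h : i = i'
      · have : ∑ a : Fin r, X (some (k, (a, true))) *
            pderiv (some (i, (a, true))) (pair r i' j') = pair r k j' := by
          conv_rhs => unfold pair
          apply Finset.sum_congr rfl
          intro a _
          rw [fisa_du_pair, if_pos h]
        rw [this]; exact fisa_pair_mem _ _ _
      · rw [Finset.sum_congr rfl (fun a _ => by rw [fisa_du_pair, if_neg h, mul_zero])]
        simp
    | false =>
      by_cases h : i = j'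
      · have : ∑ a : Fin r, X (some (k, (a, false))) *
            pderiv (some (i, (a, false))) (pair r i' j') = pair r i' k := by
          conv_rhs => unfold pair
          apply Finset.sum_congr rfl
          intro a _
          rw [fisa_dv_pair, if_pos h, mul_comm]
        rw [this]; exact fisa_pair_mem _ _ _
      · rw [Finset.sum_congr rfl (fun a _ => by rw [fisa_dv_pair, if_neg h, mul_zero])]
        simp

/-- The Laplacian. -/
noncomputable def fisaL (r i j : ℕ) (g : QQ (Fin r × Bool)) : QQ (Fin r × Bool) :=
  ∑ a : Fin r, pderiv (some (j, (a, false))) (pderiv (some (i, (a, true))) g)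

theorem fisaL_add (r i j : ℕ) (p q : QQ (Fin r × Bool)) :
    fisaL r i j (p + q) = fisaL r i j p + fisaL r i j q := by
  unfold fisaL
  rw [← Finset.sum_add_distrib]
  apply Finset.sum_congr rfl
  intro a _
  rw [map_add, map_add]

theorem fisaL_mul (r i j : ℕ) (p q : QQ (Fin r × Bool)) :
    fisaL r i j (p * q) = fisaL r i j p * q + p * fisaL r i j q +
      ∑ a : Fin r, (pderiv (some (j, (a, false))) p * pderiv (some (i, (a, true))) q +
        pderiv (some (i, (a, true))) p * pderiv (some (j, (a, false))) q) := by
  unfold fisaL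
  rw [Finset.sum_mul, Finset.mul_sum, ← Finset.sum_add_distrib, ← Finset.sum_add_distrib]
  apply Finset.sum_congr rfl
  intro a _
  rw [pderiv_mul, map_add, pderiv_mul, pderiv_mul]
  ring

theorem fisaL_mul_mem (r i j : ℕ) (q : QQ (Fin r × Bool)) (hq : q ∈ Gam r) :
    ∀ p ∈ Gam r, fisaL r i j p ∈ Gam r → fisaL r i j (p * q) ∈ Gam r := by
  have hq' := hq
  unfold Gam at hq
  induction hq using Algebra.adjoin_induction with
  | mem x hx =>
    intro p hp hLp
    rw [fisaL_mul]
    rcases hx with hx | ⟨k, l, rfl⟩
    · rw [Set.mem_singleton_iff] at hx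
      subst hx
      have h1 : fisaL r i j (X none) = 0 := by
        unfold fisaL
        apply Finset.sum_eq_zero
        intro a _
        rw [fisa_du_z, map_zero]
      have h2 : ∑ a : Fin r, (pderiv (some (j, (a, false))) p * pderiv (some (i, (a, true)))
          (X none : QQ (Fin r × Bool)) +
        pderiv (some (i, (a, true))) p * pderiv (some (j, (a, false))) (X none)) = 0 := by
        apply Finset.sum_eq_zero
        intro a _
        rw [fisa_du_z, fisa_du_z, mul_zero, mul_zero, add_zero]
      rw [h1, h2, mul_zero, add_zero, add_zero]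
      exact (Gam r).mul_mem hLp (fisa_z_mem r)
    · have h1 : fisaL r i j (pair r k l) ∈ Gam r := by
        unfold fisaL
        apply (Gam r).sum_mem
        intro a _
        rw [fisa_du_pair]
        by_cases h : i = k
        · rw [if_pos h, pderiv_X, Pi.single_apply]
          by_cases h' : (some (l, (a, false)) : Option (ℕ × (Fin r × Bool))) = some (j, (a, false))
          · rw [if_pos h']; exact (Gam r).one_mem
          · rw [if_neg h']; exact (Gam r).zero_mem
        · rw [if_neg h, map_zero]; exact (Gam r).zero_mem
      have h2 : ∑ a : Fin r, (pderiv (some (j, (a, false))) p * pderiv (some (i, (a, true)))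
          (pair r k l) +
        pderiv (some (i, (a, true))) p * pderiv (some (j, (a, false))) (pair r k l)) =
          (if i = k then fisaE r j l false p else 0) + (if j = l then fisaE r i k true p else 0) := by
        rw [Finset.sum_add_distrib]
        congr 1
        · by_cases h : i = k
          · rw [if_pos h, fisaE_apply]
            apply Finset.sum_congr rfl
            intro a _
            rw [fisa_du_pair, if_pos h, mul_comm]
          · rw [if_neg h]
            apply Finset.sum_eq_zero
            intro a _
            rw [fisa_du_pair, if_neg h, mul_zero]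
        · by_cases h : j = l
          · rw [if_pos h, fisaE_apply]
            apply Finset.sum_congr rfl
            intro a _
            rw [fisa_dv_pair, if_pos h, mul_comm]
          · rw [if_neg h]
            apply Finset.sum_eq_zero
            intro a _
            rw [fisa_dv_pair, if_neg h, mul_zero]
      rw [h2]
      refine (Gam r).add_mem ((Gam r).add_mem ((Gam r).mul_mem hLp (fisa_pair_mem r k l))
        ((Gam r).mul_mem hp h1)) ((Gam r).add_mem ?_ ?_)
      · split
        · exact fisaE_mem _ _ _ _ _ hp
        · exact (Gam r).zero_mem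
      · split
        · exact fisaE_mem _ _ _ _ _ hp
        · exact (Gam r).zero_mem
  | algebraMap c =>
    intro p hp hLp
    have : fisaL r i j (p * algebraMap ℂ (QQ (Fin r × Bool)) c) = fisaL r i j p * C c := by
      rw [fisaL_mul]
      have h0 : ∀ v, pderiv v (algebraMap ℂ (QQ (Fin r × Bool)) c) = 0 := fun v =>
        Derivation.map_algebraMap _ _
      have h1 : fisaL r i j (algebraMap ℂ (QQ (Fin r × Bool)) c) = 0 := by
        unfold fisaL
        apply Finset.sum_eq_zero
        intro a _
        rw [h0, map_zero]
      rw [h1, Finset.sum_eq_zero (fun a _ => by rw [h0, h0, mul_zero, mul_zero, add_zero]),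
        mul_zero, add_zero, add_zero]
      rfl
    rw [this]
    exact (Gam r).mul_mem hLp ((Gam r).algebraMap_mem c)
  | add x y hx hy h1 h2 =>
    intro p hp hLp
    rw [mul_add, fisaL_add]
    exact (Gam r).add_mem (h1 hx p hp hLp) (h2 hy p hp hLp)
  | mul x y hx hy h1 h2 =>
    intro p hp hLp
    rw [← mul_assoc]
    exact h2 hy (p * x) ((Gam r).mul_mem hp hx) (h1 hx p hp hLp)

theorem lap_mem (r i j : ℕ) (g : QQ (Fin r × Bool)) (hg : g ∈ Gam r) :
    ∑ a : Fin r, pderiv (some (j, (a, false))) (pderiv (some (i, (a, true))) g) ∈ Gam r := by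
  have h := fisaL_mul_mem r i j g hg 1 (Gam r).one_mem (by
    have : fisaL r i j 1 = 0 := by
      unfold fisaL
      apply Finset.sum_eq_zero
      intro a _
      rw [pderiv_one, map_zero]
    rw [this]; exact (Gam r).zero_mem)
  rw [one_mul] at h
  exact h

theorem dz_mem (r : ℕ) (g : QQ (Fin r × Bool)) (hg : g ∈ Gam r) : pderiv none g ∈ Gam r := by
  apply fisa_der r _ _ _ g hg
  · rw [pderiv_X, Pi.single_apply, if_pos rfl]
    exact (Gam r).one_mem
  · intro i j
    have : pderiv none (pair r i j) = 0 := by
      unfold pair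
      rw [map_sum]
      apply Finset.sum_eq_zero
      intro a _
      rw [pderiv_mul, pderiv_X, pderiv_X, Pi.single_apply, Pi.single_apply]
      simp
    rw [this]
    exact (Gam r).zero_mem

/-- The set of indices of a monomial. -/
def fisaIdx {r : ℕ} (m : Option (ℕ × (Fin r × Bool)) →₀ ℕ) : Set ℕ :=
  {i | ∃ c, m (some (i, c)) ≠ 0}

theorem fisaIdx_add {r : ℕ} (m m' : Option (ℕ × (Fin r × Bool)) →₀ ℕ) :
    fisaIdx (m + m') = fisaIdx m ∪ fisaIdx m' := by
  ext i
  simp only [fisaIdx, Set.mem_ofPred_eq, Set.mem_union, Finsupp.add_apply]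
  constructor
  · rintro ⟨c, hc⟩
    by_cases h : m (some (i, c)) = 0
    · right; exact ⟨c, fun h' => hc (by rw [h, h'])⟩
    · left; exact ⟨c, h⟩
  · rintro (⟨c, hc⟩ | ⟨c, hc⟩)
    · exact ⟨c, by omega⟩
    · exact ⟨c, by omega⟩

/-- All the monomials of `g` have the same degree and the same set of indices. -/
def FisaPr {r : ℕ} (g : QQ (Fin r × Bool)) : Prop :=
  ∃ (d : ℕ) (F : Set ℕ), ∀ m ∈ g.support, m.degree = d ∧ fisaIdx m = F

theorem FisaPr.mul {r : ℕ} {g h : QQ (Fin r × Bool)} (hg : FisaPr g) (hh : FisaPr h) :
    FisaPr (g * h) := by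
  classical
  obtain ⟨d, F, h1⟩ := hg
  obtain ⟨d', F', h2⟩ := hh
  refine ⟨d + d', F ∪ F', fun m hm => ?_⟩
  have := support_mul g h hm
  rw [Finset.mem_add] at this
  obtain ⟨a, ha, b, hb, rfl⟩ := this
  rw [fisaIdx_add, (h1 a ha).2, (h2 b hb).2, map_add, (h1 a ha).1, (h2 b hb).1]
  exact ⟨rfl, rfl⟩

theorem fisaPr_of_mem {r : ℕ} (g : QQ (Fin r × Bool))
    (hg : g ∈ Submonoid.closure ({X none} ∪ {q | ∃ i j : ℕ, q = pair r i j})) : FisaPr g := by
  classical
  induction hg using Submonoid.closure_induction with
  | mem x hx =>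
    rcases hx with hx | ⟨i, j, rfl⟩
    · rw [Set.mem_singleton_iff] at hx
      subst hx
      refine ⟨1, ∅, fun m hm => ?_⟩
      have hm' : m = Finsupp.single none 1 := by
        have := support_monomial_subset hm
        simpa using this
      subst hm'
      refine ⟨by simp, ?_⟩
      ext i
      simp [fisaIdx]
    · refine ⟨2, {i, j}, fun m hm => ?_⟩
      have : ∃ a : Fin r, m = Finsupp.single (some (i, (a, true))) 1 +
          Finsupp.single (some (j, (a, false))) 1 := by
        unfold pair at hm
        have h1 := support_sum hm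
        rw [Finset.mem_biUnion] at h1
        obtain ⟨a, _, ha⟩ := h1
        refine ⟨a, ?_⟩
        have h2 := support_mul _ _ ha
        rw [Finset.mem_add] at h2
        obtain ⟨b, hb, c, hc, rfl⟩ := h2
        have hb' := support_monomial_subset hb
        have hc' := support_monomial_subset hc
        rw [Finset.mem_singleton] at hb' hc'
        rw [hb', hc']
      obtain ⟨a, rfl⟩ := this
      refine ⟨by rw [map_add]; simp, ?_⟩
      rw [fisaIdx_add]
      have hs : ∀ (k : ℕ) (c : Fin r × Bool),
          fisaIdx (Finsupp.single (some (k, c)) 1) = {k} := by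
        intro k c
        ext l
        simp only [fisaIdx, Set.mem_ofPred_eq, Set.mem_singleton_iff]
        constructor
        · rintro ⟨c', hc'⟩
          rw [Finsupp.single_apply] at hc'
          by_contra hne
          apply hc'
          rw [if_neg]
          intro h
          rw [Option.some.injEq, Prod.mk.injEq] at h
          exact hne h.1.symm
        · rintro rfl
          exact ⟨c, by simp⟩
      rw [hs, hs]
      rfl
  | one =>
    refine ⟨0, ∅, fun m hm => ?_⟩
    have hm' : m = 0 := by
      rw [← C_1] at hm
      have := support_monomial_subset hm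
      simpa using this
    subst hm'
    refine ⟨by simp, ?_⟩
    ext i
    simp [fisaIdx]
  | mul x y _ _ hx hy => exact hx.mul hy

theorem trunc_mem (r : ℕ) (M : Finset (Option (ℕ × (Fin r × Bool)) →₀ ℕ)) :
    ∃ T : Finset (Option (ℕ × (Fin r × Bool)) →₀ ℕ), M ⊆ T ∧
      ∀ g ∈ Gam r, (∑ m ∈ T, monomial m (coeff m g)) ∈ Gam r := by
  classical
  -- the bounds
  set D : ℕ := M.sup (fun m => m.degree) with hD
  set n : ℕ := M.sup (fun m => m.support.sup (fun o => o.elim 0 (fun p => p.1 + 1))) with hn
  set s : Finset (Option (ℕ × (Fin r × Bool))) :=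
    insert none (((Finset.range n) ×ˢ (Finset.univ : Finset (Fin r × Bool))).map
      ⟨some, Option.some_injective _⟩) with hs
  have hmem_s : ∀ (i : ℕ) (c : Fin r × Bool), some (i, c) ∈ s ↔ i < n := by
    intro i c
    simp [hs]
  have hnone : none ∈ s := by simp [hs]
  set T : Finset (Option (ℕ × (Fin r × Bool)) →₀ ℕ) :=
    (s.finsupp (fun _ => Finset.range (D + 1))).filter (fun m => m.degree ≤ D) with hT
  have hmemT : ∀ m : Option (ℕ × (Fin r × Bool)) →₀ ℕ,
      m ∈ T ↔ m.degree ≤ D ∧ ∀ i ∈ fisaIdx m, i < n := by
    intro m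
    rw [hT, Finset.mem_filter, Finset.mem_finsupp_iff]
    constructor
    · rintro ⟨⟨h1, _⟩, h3⟩
      refine ⟨h3, ?_⟩
      rintro i ⟨c, hc⟩
      rw [← hmem_s i c]
      exact h1 (Finsupp.mem_support_iff.mpr hc)
    · rintro ⟨h1, h2⟩
      refine ⟨⟨?_, ?_⟩, h1⟩
      · intro o ho
        cases o with
        | none => exact hnone
        | some p =>
          obtain ⟨i, c⟩ := p
          rw [hmem_s]
          exact h2 i ⟨c, Finsupp.mem_support_iff.mp ho⟩
      · intro i _
        rw [Finset.mem_range]
        have := Finsupp.le_degree i m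
        omega
  refine ⟨T, ?_, ?_⟩
  · intro m hm
    rw [hmemT]
    refine ⟨Finset.le_sup (f := fun m => m.degree) hm, ?_⟩
    rintro i ⟨c, hc⟩
    have h1 : m.support.sup (fun o => o.elim 0 (fun p => p.1 + 1)) ≤ n :=
      Finset.le_sup (f := fun m : Option (ℕ × (Fin r × Bool)) →₀ ℕ =>
        m.support.sup (fun o => o.elim 0 (fun p => p.1 + 1))) hm
    have h2 : i + 1 ≤ m.support.sup (fun o => o.elim 0 (fun p => p.1 + 1)) :=
      Finset.le_sup (f := fun o : Option (ℕ × (Fin r × Bool)) => o.elim 0 (fun p => p.1 + 1))
        (Finsupp.mem_support_iff.mpr hc)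
    omega
  · intro g hg
    have hg' : g ∈ Submodule.span ℂ ((Submonoid.closure
        ({X none} ∪ {q | ∃ i j : ℕ, q = pair r i j}) : Submonoid (QQ (Fin r × Bool))) :
        Set (QQ (Fin r × Bool))) := by
      rw [← Algebra.adjoin_eq_span]
      exact hg
    induction hg' using Submodule.span_induction with
    | mem x hx =>
      obtain ⟨d, F, hdF⟩ := fisaPr_of_mem x hx
      have hxG : x ∈ Gam r := by
        have h : (Submonoid.closure ({X none} ∪ {q | ∃ i j : ℕ, q = pair r i j}) :
          Submonoid (QQ (Fin r × Bool))) ≤ (Gam r).toSubmonoid := by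
          rw [Submonoid.closure_le]
          exact Algebra.subset_adjoin
        exact h hx
      by_cases hc : d ≤ D ∧ ∀ i ∈ F, i < n
      · have hsub : x.support ⊆ T := by
          intro m hm
          rw [hmemT, (hdF m hm).1, (hdF m hm).2]
          exact hc
        have : ∑ m ∈ T, monomial m (coeff m x) = x := by
          conv_rhs => rw [x.as_sum]
          symm
          apply Finset.sum_subset hsub
          intro m _ hm
          rw [notMem_support_iff.mp hm, monomial_zero]
        rw [this]
        exact hxG
      · have : ∑ m ∈ T, monomial m (coeff m x) = 0 := by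
          apply Finset.sum_eq_zero
          intro m hm
          have : coeff m x = 0 := by
            rw [← notMem_support_iff]
            intro h
            apply hc
            rw [← (hdF m h).1, ← (hdF m h).2]
            exact (hmemT m).mp hm
          rw [this, monomial_zero]
        rw [this]
        exact (Gam r).zero_mem
    | zero => simp
    | add x y hx hy h1 h2 =>
      have e : ∑ m ∈ T, monomial m (coeff m (x + y)) =
          (∑ m ∈ T, monomial m (coeff m x)) + ∑ m ∈ T, monomial m (coeff m y) := by
        rw [← Finset.sum_add_distrib]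
        apply Finset.sum_congr rfl
        intro m _
        rw [coeff_add, map_add]
      rw [e]
      have hxG : x ∈ Gam r := by
        have := Algebra.adjoin_eq_span ℂ ({X none} ∪ {q | ∃ i j : ℕ, q = pair r i j})
        rw [← this] at hx
        exact hx
      have hyG : y ∈ Gam r := by
        have := Algebra.adjoin_eq_span ℂ ({X none} ∪ {q | ∃ i j : ℕ, q = pair r i j})
        rw [← this] at hy
        exact hy
      exact (Gam r).add_mem (h1 hxG) (h2 hyG)
    | smul c x hx h1 =>
      have hxG : x ∈ Gam r := by
        have := Algebra.adjoin_eq_span ℂ ({X none} ∪ {q | ∃ i j : ℕ, q = pair r i j})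
        rw [← this] at hx
        exact hx
      have e : ∑ m ∈ T, monomial m (coeff m (c • x)) =
          c • ∑ m ∈ T, monomial m (coeff m x) := by
        rw [Finset.smul_sum]
        apply Finset.sum_congr rfl
        intro m _
        rw [coeff_smul, smul_monomial]
      rw [e]
      exact (Gam r).smul_mem (h1 hxG) c

end MPf70651
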