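import Pool.Agent.Lib_MP_f70651_al.DefsTwo
import Pool.Agent.Lib_MP_f70651_al.Basic

/-!
# MP_f70651_al : `A'`-families are finitely generated over `A`
-/

namespace MPf70651

variable {P : Type} [CommRing P] {S : Sit P}

theorem four_fin_pos (n M : ℕ) : {σ : Pos n | ∀ i, σ i < M}.Finite := by
  have : Finite {σ : Pos n | ∀ i, σ i < M} := by
    refine Finite.of_injective (β := Fin n → Fin M)
      (fun σ => fun i => (⟨σ.1 i, σ.2 i⟩ : Fin M)) ?_
    intro σ τ h
    apply Subtype.ext
    ext i
    exact congrArg Fin.val (congrFun h i)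
  exact Set.toFinite _

theorem four_fin_list (s M : ℕ) : {l : List ℕ | l.length ≤ s ∧ ∀ i ∈ l, i < M}.Finite := by
  refine ((List.finite_length_le (Fin M) s).image (List.map Fin.val)).subset ?_
  rintro l ⟨hl, hM⟩
  refine ⟨l.pmap (fun i hi => (⟨i, hi⟩ : Fin M)) hM, ?_, ?_⟩
  · simpa using hl
  · rw [List.map_pmap]
    simp

/-- `A'`-families are finitely generated over `A`. -/
theorem fg_of_isFam' (hN : NA S) {s : ℕ} (hb : Bdd S s) {w : ℕ} (J : Pos w → AddSubgroup P)
    (hJ : IsFam S S.A' J) : FG S S.A ⊥ J := by
  classical
  obtain ⟨G, hG, hG1, hG2⟩ := hN w J hJ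
  have hm : ∀ x : Pos w × P, ∃ m, Supp S m x.2 ∧ ∀ k, x.1 k < m := by
    intro x
    obtain ⟨n, hn⟩ := exists_supp (S := S) x.2
    obtain ⟨n', hn'⟩ := exists_bound x.1
    exact ⟨max n n', hn.mono (le_max_left _ _), fun k => lt_of_lt_of_le (hn' k) (le_max_right _ _)⟩
  choose m hm1 hm2 using hm
  let G' : Set (Pos w × P) := ⋃ g ∈ G, (fun q : Pos (m g) × List ℕ =>
    ((g.1.trans (ext q.1), (q.2.map (fun i => S.y i i)).prod * S.act (ext q.1) g.2) : Pos w × P)) ''
      ({σ : Pos (m g) | ∀ i, σ i < m g + s} ×ˢ
        {l : List ℕ | l.length ≤ s ∧ ∀ i ∈ l, i < m g + s})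
  refine ⟨G', ?_, ?_, ?_⟩
  · exact hG.biUnion fun g _ => ((four_fin_pos _ _).prod (four_fin_list _ _)).image _
  · intro x hx
    simp only [G', Set.mem_iUnion] at hx
    obtain ⟨g, hg, ⟨σ, l⟩, _, rfl⟩ := hx
    refine hJ.smul _ _ _ ?_ (hJ.act _ _ _ (hG1 g hg))
    apply Subring.list_prod_mem
    intro y hy
    obtain ⟨i, _, rfl⟩ := List.mem_map.mp hy
    exact S.y_mem' i i
  · intro φ
    refine (hG2 φ).trans (sup_le_sup_left ?_ _)
    have hle : gen S S.A' G φ ≤ gen S S.A G' φ := by
      unfold gen
      rw [AddSubgroup.closure_le]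
      rintro _ ⟨g, hg, τ, hτ, a, ha, rfl⟩
      have hclos := hb a ha
      show a * S.act τ g.2 ∈ gen S S.A G' φ
      induction hclos using AddSubgroup.closure_induction with
      | zero => rw [zero_mul]; exact AddSubgroup.zero_mem _
      | add x y hx hy ihx ihy =>
        rw [add_mul]
        have hx' : x ∈ S.A' := by
          have : AddSubgroup.closure {x | ∃ c ∈ S.A, ∃ l : List ℕ, l.length ≤ s ∧
              x = c * (l.map (fun i => S.y i i)).prod} ≤ S.A'.toAddSubgroup := by
            rw [AddSubgroup.closure_le]
            rintro _ ⟨c, hc, l, _, rfl⟩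
            refine S.A'.mul_mem (S.A_le hc) ?_
            apply Subring.list_prod_mem
            intro y hy
            obtain ⟨i, _, rfl⟩ := List.mem_map.mp hy
            exact S.y_mem' i i
          exact this hx
        have hy' : y ∈ S.A' := by
          have h := S.A'.sub_mem ha hx'
          rwa [add_sub_cancel_left] at h
        exact AddSubgroup.add_mem _ (ihx hx') (ihy hy')
      | neg x hx ih =>
        rw [neg_mul]
        have h := S.A'.neg_mem ha
        rw [neg_neg] at h
        exact AddSubgroup.neg_mem _ (ih h)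
      | mem x hx =>
        obtain ⟨c, hc, l, hl, rfl⟩ := hx
        -- cover
        let U : Finset ℕ := (Finset.range (m g)).image τ ∪ l.toFinset
        have hU : U.card ≤ m g + s := by
          refine (Finset.card_union_le _ _).trans (add_le_add ?_ ?_)
          · exact Finset.card_image_le.trans (by simp)
          · exact (List.toFinset_card_le l).trans hl
        obtain ⟨ε, hε⟩ := exists_cover U (m g + s) hU
        have hinv : ∀ u : ℕ, ∃ i, u ∈ U → i < m g + s ∧ ε i = u := by
          intro u
          by_cases hu : u ∈ U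
          · obtain ⟨i, hi⟩ := hε u hu
            exact ⟨i, fun _ => hi⟩
          · exact ⟨0, fun h => absurd h hu⟩
        choose inv hinv using hinv
        have hτU : ∀ i, i < m g → τ i ∈ U := fun i hi =>
          Finset.mem_union_left _ (Finset.mem_image_of_mem _ (Finset.mem_range.mpr hi))
        have hlU : ∀ i ∈ l, i ∈ U := fun i hi =>
          Finset.mem_union_right _ (List.mem_toFinset.mpr hi)
        let σ : Pos (m g) := OrderEmbedding.ofStrictMono (fun i : Fin (m g) => inv (τ i)) (by
          intro i j hij
          have h1 := hinv _ (hτU i i.2)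
          have h2 := hinv _ (hτU j j.2)
          apply ε.lt_iff_lt.mp
          rw [h1.2, h2.2]
          exact τ.strictMono hij)
        have hσ : ∀ i, ∀ hi : i < m g, ε (ext σ i) = τ i := by
          intro i hi
          rw [ext_apply _ _ hi]
          exact (hinv _ (hτU i hi)).2
        have hmem : ((g.1.trans (ext σ), ((l.map inv).map (fun i => S.y i i)).prod *
            S.act (ext σ) g.2) : Pos w × P) ∈ G' := by
          simp only [G', Set.mem_iUnion]
          refine ⟨g, hg, (σ, l.map inv), ⟨?_, ?_, ?_⟩, rfl⟩
          · intro i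
            exact (hinv _ (hτU i i.2)).1
          · show (l.map inv).length ≤ s
            rw [List.length_map]
            exact hl
          · intro i hi
            obtain ⟨j, hj, rfl⟩ := List.mem_map.mp hi
            exact (hinv _ (hlU j hj)).1
        have h1 := mem_gen (S := S) (B := S.A) hmem ε c hc
        have h2 : (g.1.trans (ext σ)).trans ε = φ := by
          rw [← hτ]
          exact trans_ext_eq g.1 (hm2 g) ((ext σ).trans ε) τ (fun i hi => hσ i hi)
        have h3 : S.act ε (((l.map inv).map (fun i => S.y i i)).prod * S.act (ext σ) g.2) =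
            (l.map (fun i => S.y i i)).prod * S.act τ g.2 := by
          rw [map_mul, act_comp_apply, map_list_prod, List.map_map, List.map_map]
          congr 1
          · congr 1
            apply List.map_congr_left
            intro i hi
            simp only [Function.comp_apply]
            rw [S.act_y, (hinv _ (hlU i hi)).2]
          · exact hm1 g _ _ (fun i hi => hσ i hi)
        simp only at h1
        rw [h2, h3, ← mul_assoc] at h1
        exact h1
    exact hle

end MPf70651
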