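import Pool.Agent.Lib_MP_f70651_al.Wqo

/-!
# MP_f70651_al : noetherianity up to symmetry of the polynomial ring with marks
-/

namespace MPf70651

open MvPolynomial

/-- Strictly monotone renamings preserve the lexicographic order. -/
theorem grob_lex_lt {σ : Type} [LinearOrder σ] [WellFoundedGT σ] (f : σ → σ) (hf : StrictMono f)
    (c d : σ →₀ ℕ) (h : toLex c < toLex d) :
    toLex (Finsupp.mapDomain f c) < toLex (Finsupp.mapDomain f d) := by
  rw [Finsupp.Lex.lt_iff] at h ⊢
  obtain ⟨i, h1, h2⟩ := h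
  refine ⟨f i, ?_, ?_⟩
  · intro j hj
    by_cases hr : j ∈ Set.range f
    · obtain ⟨k, rfl⟩ := hr
      have := h1 k (hf.lt_iff_lt.mp hj)
      simpa [Finsupp.mapDomain_apply hf.injective] using this
    · simp [Finsupp.mapDomain_notin_range _ _ hr]
  · simpa [Finsupp.mapDomain_apply hf.injective] using h2

theorem grob_lex_le {σ : Type} [LinearOrder σ] [WellFoundedGT σ] (f : σ → σ) (hf : StrictMono f)
    (c d : σ →₀ ℕ) (h : toLex c ≤ toLex d) :
    toLex (Finsupp.mapDomain f c) ≤ toLex (Finsupp.mapDomain f d) := by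
  rcases h.lt_or_eq with h | h
  · exact (grob_lex_lt f hf c d h).le
  · have : c = d := h
    rw [this]

theorem grob_degree_rename {σ : Type} [LinearOrder σ] [WellFoundedGT σ] (f : σ → σ)
    (hf : StrictMono f) (p : MvPolynomial σ ℂ) (hp : p ≠ 0) :
    MonomialOrder.lex.degree (rename f p) =
      Finsupp.mapDomain f (MonomialOrder.lex.degree p) := by
  classical
  have hinj := hf.injective
  have hp' : rename f p ≠ 0 := by
    intro h
    exact hp ((rename_injective f hinj) (by rw [h, map_zero]))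
  have h1 : MonomialOrder.lex.degree (rename f p) ∈ (rename f p).support :=
    (MonomialOrder.degree_mem_support_iff _).mpr hp'
  rw [support_rename_of_injective hinj, Finset.mem_image] at h1
  obtain ⟨c, hc, hc'⟩ := h1
  have h2 : MonomialOrder.lex.degree p ∈ p.support :=
    (MonomialOrder.degree_mem_support_iff _).mpr hp
  have h3 : Finsupp.mapDomain f (MonomialOrder.lex.degree p) ∈ (rename f p).support := by
    rw [support_rename_of_injective hinj]
    exact Finset.mem_image_of_mem _ h2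
  have h4 := MonomialOrder.lex.le_degree h3
  have h5 := MonomialOrder.lex.le_degree hc
  rw [MonomialOrder.lex_le_iff] at h4 h5
  have h6 := grob_lex_le f hf _ _ h5
  rw [hc'] at h6
  exact toLex.injective (le_antisymm h6 h4)

theorem grob_main {w : ℕ} {σ : Type} [LinearOrder σ] [WellFoundedGT σ]
    (act : (ℕ ↪o ℕ) → σ → σ) (hact : ∀ τ, StrictMono (act τ))
    (hwqo : ∀ F : ℕ → Pos w × (σ →₀ ℕ), ∃ i j, i < j ∧ ∃ τ : ℕ ↪o ℕ, (F i).1.trans τ = (F j).1 ∧
      Finsupp.mapDomain (act τ) (F i).2 ≤ (F j).2)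
    (I : Pos w → Ideal (MvPolynomial σ ℂ))
    (hI : ∀ (φ : Pos w) (τ : ℕ ↪o ℕ) (p : MvPolynomial σ ℂ), p ∈ I φ →
      rename (act τ) p ∈ I (φ.trans τ)) :
    ∃ G : Set (Pos w × MvPolynomial σ ℂ), G.Finite ∧ (∀ g ∈ G, g.2 ∈ I g.1) ∧
      ∀ φ, I φ ≤ Ideal.span {q | ∃ g ∈ G, ∃ τ : ℕ ↪o ℕ, g.1.trans τ = φ ∧
        q = rename (act τ) g.2} := by
  classical
  -- finitely many leading pairs
  have hfin : ∃ s : Finset (Pos w × MvPolynomial σ ℂ), (∀ x ∈ s, x.2 ≠ 0 ∧ x.2 ∈ I x.1) ∧
      ∀ y : Pos w × MvPolynomial σ ℂ, (y.2 ≠ 0 ∧ y.2 ∈ I y.1) → ∃ x ∈ s, ∃ τ : ℕ ↪o ℕ,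
        x.1.trans τ = y.1 ∧ Finsupp.mapDomain (act τ) (MonomialOrder.lex.degree x.2) ≤
          MonomialOrder.lex.degree y.2 := by
    by_contra hcon
    push Not at hcon
    obtain ⟨f, hf1, hf2⟩ := exists_seq_of_forall_finset_exists
      (fun x : Pos w × MvPolynomial σ ℂ => x.2 ≠ 0 ∧ x.2 ∈ I x.1)
      (fun x y => ∀ τ : ℕ ↪o ℕ, x.1.trans τ = y.1 →
        ¬ Finsupp.mapDomain (act τ) (MonomialOrder.lex.degree x.2) ≤
          MonomialOrder.lex.degree y.2) (by
        intro s hs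
        obtain ⟨y, hy, hy'⟩ := hcon s hs
        exact ⟨y, hy, fun x hx τ hτ => hy' x hx τ hτ⟩)
    obtain ⟨i, j, hij, τ, h1, h2⟩ := hwqo (fun n => ((f n).1, MonomialOrder.lex.degree (f n).2))
    exact hf2 i j hij τ h1 h2
  obtain ⟨s, hs1, hs2⟩ := hfin
  refine ⟨(s : Set _), s.finite_toSet, fun g hg => (hs1 g hg).2, ?_⟩
  intro φ p hp
  let ι := {x : (Pos w × MvPolynomial σ ℂ) × (ℕ ↪o ℕ) // x.1 ∈ s ∧ x.1.1.trans x.2 = φ}
  let b : ι → MvPolynomial σ ℂ := fun x => rename (act x.1.2) x.1.1.2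
  have hb0 : ∀ x : ι, b x ≠ 0 := by
    intro x h
    exact (hs1 _ x.2.1).1 ((rename_injective _ (hact x.1.2).injective) (by
      rw [map_zero]; exact h))
  have hbI : ∀ x : ι, b x ∈ I φ := by
    intro x
    have := hI _ x.1.2 _ (hs1 _ x.2.1).2
    rw [x.2.2] at this
    exact this
  have hbu : ∀ x : ι, IsUnit (MonomialOrder.lex.leadingCoeff (b x)) := by
    intro x
    rw [isUnit_iff_ne_zero]
    exact (MonomialOrder.leadingCoeff_ne_zero_iff).mpr (hb0 x)
  obtain ⟨g, r, h1, _, h3⟩ := MonomialOrder.lex.div hbu p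
  have hlin : Finsupp.linearCombination _ b g ∈ Ideal.span (Set.range b) := by
    rw [Finsupp.linearCombination_apply, Finsupp.sum]
    refine Ideal.sum_mem _ fun x _ => ?_
    exact Ideal.mul_mem_left _ _ (Ideal.subset_span ⟨x, rfl⟩)
  have hspan : Ideal.span (Set.range b) ≤ I φ := by
    rw [Ideal.span_le]
    rintro _ ⟨x, rfl⟩
    exact hbI x
  have hr : r ∈ I φ := by
    have : r = p - Finsupp.linearCombination _ b g := by
      rw [h1]; ring
    rw [this]
    exact Ideal.sub_mem _ hp (hspan hlin)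
  have hr0 : r = 0 := by
    by_contra hne
    obtain ⟨x, hx, τ, hτ, hle⟩ := hs2 (φ, r) ⟨hne, hr⟩
    have hdeg : MonomialOrder.lex.degree r ∈ r.support :=
      (MonomialOrder.degree_mem_support_iff _).mpr hne
    refine h3 _ hdeg ⟨(x, τ), hx, hτ⟩ ?_
    show MonomialOrder.lex.degree (rename (act τ) x.2) ≤ _
    rw [grob_degree_rename _ (hact τ) _ (hs1 x hx).1]
    exact hle
  rw [h1, hr0, add_zero]
  refine Ideal.span_mono ?_ hlin
  rintro _ ⟨x, rfl⟩
  exact ⟨x.1.1, x.2.1, x.1.2, x.2.2, rfl⟩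

/-- Numbering of the variables. -/
noncomputable def grobE (κ : Type) [Fintype κ] : Option (ℕ × κ) → ℕᵒᵈ
  | none => OrderDual.toDual 0
  | some (i, a) => OrderDual.toDual (1 + i * Fintype.card κ + (Fintype.equivFin κ a : ℕ))

theorem grob_arith {c i j a b : ℕ} (ha : a < c) (hb : b < c) (h : i * c + a = j * c + b) :
    i = j ∧ a = b := by
  have h1 : i = j := by
    rcases lt_trichotomy i j with hij | hij | hij
    · have : (i + 1) * c ≤ j * c := Nat.mul_le_mul_right c hij
      rw [Nat.add_mul, one_mul] at this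
      omega
    · exact hij
    · have : (j + 1) * c ≤ i * c := Nat.mul_le_mul_right c hij
      rw [Nat.add_mul, one_mul] at this
      omega
  subst h1
  exact ⟨rfl, by omega⟩

theorem grob_arith_lt {c i j a b : ℕ} (ha : a < c) (h : i * c + a < j * c + b) (hb : b < c) :
    i < j ∨ (i = j ∧ a < b) := by
  rcases lt_trichotomy i j with hij | hij | hij
  · exact Or.inl hij
  · subst hij
    exact Or.inr ⟨rfl, by omega⟩
  · have : (j + 1) * c ≤ i * c := Nat.mul_le_mul_right c hij
    rw [Nat.add_mul, one_mul] at this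
    omega

theorem grobE_injective (κ : Type) [Fintype κ] : Function.Injective (grobE κ) := by
  intro u v h
  cases u with
  | none =>
    cases v with
    | none => rfl
    | some q =>
      have h' : (0 : ℕ) = 1 + q.1 * Fintype.card κ + (Fintype.equivFin κ q.2 : ℕ) :=
        congrArg OrderDual.ofDual h
      omega
  | some p =>
    cases v with
    | none =>
      have h' : 1 + p.1 * Fintype.card κ + (Fintype.equivFin κ p.2 : ℕ) = (0 : ℕ) :=
        congrArg OrderDual.ofDual h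
      omega
    | some q =>
      have h' : 1 + p.1 * Fintype.card κ + (Fintype.equivFin κ p.2 : ℕ) =
          1 + q.1 * Fintype.card κ + (Fintype.equivFin κ q.2 : ℕ) :=
        congrArg OrderDual.ofDual h
      obtain ⟨h1, h2⟩ := grob_arith (Fintype.equivFin κ p.2).2 (Fintype.equivFin κ q.2).2
        (by omega : p.1 * Fintype.card κ + (Fintype.equivFin κ p.2 : ℕ) =
          q.1 * Fintype.card κ + (Fintype.equivFin κ q.2 : ℕ))
      have h3 : p.2 = q.2 := (Fintype.equivFin κ).injective (Fin.ext h2)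
      rw [Prod.ext h1 h3]

theorem grobE_act (κ : Type) [Fintype κ] (τ : ℕ ↪o ℕ) (u v : Option (ℕ × κ))
    (h : grobE κ u < grobE κ v) : grobE κ (actV κ τ u) < grobE κ (actV κ τ v) := by
  cases u with
  | none =>
    cases v with
    | none => exact h
    | some q =>
      have h' : 1 + q.1 * Fintype.card κ + (Fintype.equivFin κ q.2 : ℕ) < 0 := h
      omega
  | some p =>
    cases v with
    | none =>
      show (0 : ℕ) < 1 + τ p.1 * Fintype.card κ + (Fintype.equivFin κ p.2 : ℕ)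
      omega
    | some q =>
      have h' : 1 + q.1 * Fintype.card κ + (Fintype.equivFin κ q.2 : ℕ) <
          1 + p.1 * Fintype.card κ + (Fintype.equivFin κ p.2 : ℕ) := h
      show 1 + τ q.1 * Fintype.card κ + (Fintype.equivFin κ q.2 : ℕ) <
          1 + τ p.1 * Fintype.card κ + (Fintype.equivFin κ p.2 : ℕ)
      have hp := (Fintype.equivFin κ p.2).2
      have hq := (Fintype.equivFin κ q.2).2
      rcases grob_arith_lt hq (by omega : q.1 * Fintype.card κ + (Fintype.equivFin κ q.2 : ℕ) <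
          p.1 * Fintype.card κ + (Fintype.equivFin κ p.2 : ℕ)) hp with h1 | ⟨h1, h2⟩
      · have h3 : τ q.1 + 1 ≤ τ p.1 := τ.strictMono h1
        have h4 := Nat.mul_le_mul_right (Fintype.card κ) h3
        rw [Nat.add_mul, one_mul] at h4
        omega
      · rw [h1]
        omega

theorem noeth_QQ (w : ℕ) (κ : Type) [Fintype κ] (I : Pos w → Ideal (QQ κ))
    (hI : ∀ (φ : Pos w) (τ : ℕ ↪o ℕ) (p : QQ κ), p ∈ I φ → rename (actV κ τ) p ∈ I (φ.trans τ)) :
    ∃ G : Set (Pos w × QQ κ), G.Finite ∧ (∀ g ∈ G, g.2 ∈ I g.1) ∧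
      ∀ φ, I φ ≤ Ideal.span {q | ∃ g ∈ G, ∃ τ : ℕ ↪o ℕ, g.1.trans τ = φ ∧
        q = rename (actV κ τ) g.2} := by
  letI i1 : LinearOrder (Option (ℕ × κ)) := LinearOrder.lift' (grobE κ) (grobE_injective κ)
  haveI i2 : @WellFoundedGT (Option (ℕ × κ)) i1.toLT := by
    refine ⟨?_⟩
    have h : WellFounded (fun a b : ℕᵒᵈ => b < a) := (inferInstance : WellFoundedGT ℕᵒᵈ).wf
    exact InvImage.wf (grobE κ) h
  exact @grob_main w (Option (ℕ × κ)) i1 i2 (fun τ => actV κ τ)
    (fun τ u v huv => grobE_act κ τ u v huv) (fun F => wqo_pos w κ F) I hI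

end MPf70651
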