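import Pool.Agent.Lib_MP_f70651_al.DefsTwo
import Pool.Agent.Lib_MP_f70651_al.Basic

/-! PIECE LEAD: gradients, leading coefficients. -/

namespace MPf70651

open MvPolynomial

/-- The key of an index. -/
def leadKey (D : ℕ → ℕ → Prop) : Idx D → ℕ ×ₗ (ℕ ×ₗ ℕ)
  | none => toLex (0, toLex (0, 0))
  | some p => toLex (max p.1.1 p.1.2 + 1,
      toLex (min p.1.1 p.1.2, if p.1.1 < p.1.2 then 0 else 1))

theorem leadKey_inj (D : ℕ → ℕ → Prop) {v v' : Idx D} (h : leadKey D v = leadKey D v') :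
    v = v' := by
  cases v with
  | none =>
    cases v' with
    | none => rfl
    | some p =>
      exfalso
      have h1 := congrArg (fun x => (ofLex x).1) h
      simp [leadKey] at h1
  | some p =>
    cases v' with
    | none =>
      exfalso
      have h1 := congrArg (fun x => (ofLex x).1) h
      simp [leadKey] at h1
    | some q =>
      have h1 := congrArg (fun x => (ofLex x).1) h
      have h2 := congrArg (fun x => (ofLex (ofLex x).2).1) h
      have h3 := congrArg (fun x => (ofLex (ofLex x).2).2) h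
      simp only [leadKey, ofLex_toLex] at h1 h2 h3
      obtain ⟨⟨i, j⟩, hp⟩ := p
      obtain ⟨⟨k, l⟩, hq⟩ := q
      simp only at h1 h2 h3
      have h4 : i = k ∧ j = l := by
        split_ifs at h3 <;> omega
      obtain ⟨rfl, rfl⟩ := h4
      rfl

theorem actX_injective (D : ℕ → ℕ → Prop) [Inv D] (τ : ℕ ↪o ℕ) :
    Function.Injective (actX D τ) := by
  apply Option.map_injective
  rintro ⟨⟨i, j⟩, hp⟩ ⟨⟨k, l⟩, hq⟩ h
  simp only [Subtype.mk.injEq, Prod.mk.injEq] at h ⊢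
  exact ⟨τ.injective h.1, τ.injective h.2⟩

theorem leadKey_mono (D : ℕ → ℕ → Prop) [Inv D] (τ : ℕ ↪o ℕ) {v v' : Idx D}
    (h : leadKey D v < leadKey D v') : leadKey D (actX D τ v) < leadKey D (actX D τ v') := by
  cases v with
  | none =>
    cases v' with
    | none => exact absurd h (lt_irrefl _)
    | some p =>
      simp only [actX, Option.map, leadKey]
      rw [Prod.Lex.toLex_lt_toLex]
      left
      simp
  | some p =>
    cases v' with
    | none =>
      exfalso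
      simp only [leadKey] at h
      rw [Prod.Lex.toLex_lt_toLex] at h
      rcases h with h | h
      · simp at h
      · simp at h
    | some q =>
      obtain ⟨⟨i, j⟩, hp⟩ := p
      obtain ⟨⟨k, l⟩, hq⟩ := q
      simp only [actX, Option.map, leadKey] at h ⊢
      rw [Prod.Lex.toLex_lt_toLex, Prod.Lex.toLex_lt_toLex] at h ⊢
      simp only at h ⊢
      have e1 : max (τ i) (τ j) = τ (max i j) := (τ.monotone.map_max).symm
      have e2 : max (τ k) (τ l) = τ (max k l) := (τ.monotone.map_max).symm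
      have e3 : min (τ i) (τ j) = τ (min i j) := (τ.monotone.map_min).symm
      have e4 : min (τ k) (τ l) = τ (min k l) := (τ.monotone.map_min).symm
      rw [e1, e2, e3, e4]
      simp only [τ.lt_iff_lt]
      rcases h with h | ⟨h1, h | ⟨h2, h3⟩⟩
      · left
        have := τ.strictMono (show max i j < max k l by omega)
        omega
      · right
        have h1' : max i j = max k l := by omega
        rw [h1']
        exact ⟨rfl, Or.inl h⟩
      · right
        have h1' : max i j = max k l := by omega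
        rw [h1', h2]
        exact ⟨rfl, Or.inr ⟨rfl, h3⟩⟩

theorem pderiv_rename_actX (D : ℕ → ℕ → Prop) [Inv D] (τ : ℕ ↪o ℕ) (v : Idx D)
    (g : MvPolynomial (Idx D) ℂ) :
    pderiv (actX D τ v) (rename (actX D τ) g) = rename (actX D τ) (pderiv v g) :=
  pderiv_rename (actX_injective D τ) v g

theorem pderiv_rename_notMem (D : ℕ → ℕ → Prop) [Inv D] (τ : ℕ ↪o ℕ) (v : Idx D)
    (hv : v ∉ Set.range (actX D τ)) (g : MvPolynomial (Idx D) ℂ) :
    pderiv v (rename (actX D τ) g) = 0 := by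
  classical
  apply pderiv_eq_zero_of_notMem_vars
  intro h
  have h1 := vars_rename (actX D τ) g h
  rw [Finset.mem_image] at h1
  obtain ⟨u, _, hu⟩ := h1
  exact hv ⟨u, hu⟩

/-- Two marks. -/
def leadPos2 (i j : ℕ) (h : i < j) : Pos 2 :=
  OrderEmbedding.ofStrictMono ![i, j] (by
    intro a b hab
    fin_cases a <;> fin_cases b
    · exact absurd hab (lt_irrefl _)
    · exact h
    · exact absurd hab (by simp)
    · exact absurd hab (lt_irrefl _))

/-- One mark. -/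
def leadPos1 (i : ℕ) : Pos 1 :=
  OrderEmbedding.ofStrictMono (fun _ => i) (by
    intro a b hab
    exact absurd hab (by rw [Subsingleton.elim a b]; exact lt_irrefl _))

/-- No mark. -/
def leadPos0 : Pos 0 :=
  OrderEmbedding.ofStrictMono (fun a => a.elim0) (by
    intro a b hab
    exact a.elim0)

section

variable {P : Type} [CommRing P] [Algebra ℂ P] (S : Sit P) (D : ℕ → ℕ → Prop) [Inv D]
    (Φ : MvPolynomial (Idx D) ℂ →ₐ[ℂ] P)

theorem lead_trI (hΦ : ∀ (τ : ℕ ↪o ℕ) g, Φ (rename (actX D τ) g) = S.act τ (Φ g))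
    (G : Set (MvPolynomial (Idx D) ℂ)) (hG : ∀ g ∈ G, Φ g = 0) (g : MvPolynomial (Idx D) ℂ)
    (hg : g ∈ trI D G) : Φ g = 0 := by
  have h : trI D G ≤ RingHom.ker Φ := by
    unfold trI
    rw [Ideal.span_le]
    rintro q ⟨h, hh, τ, rfl⟩
    show Φ _ = 0
    rw [hΦ, hG h hh, map_zero]
  exact h hg

/-- the vanishing above `v` is stable under increasing maps -/
theorem lead_vanish (hΦ : ∀ (τ : ℕ ↪o ℕ) g, Φ (rename (actX D τ) g) = S.act τ (Φ g))
    (τ : ℕ ↪o ℕ) (v : Idx D) (g : MvPolynomial (Idx D) ℂ)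
    (h : ∀ v', leadKey D v < leadKey D v' → Φ (pderiv v' g) = 0) (v' : Idx D)
    (hv' : leadKey D (actX D τ v) < leadKey D v') :
    Φ (pderiv v' (rename (actX D τ) g)) = 0 := by
  by_cases hr : v' ∈ Set.range (actX D τ)
  · obtain ⟨u, rfl⟩ := hr
    rw [pderiv_rename_actX, hΦ]
    rcases lt_trichotomy (leadKey D v) (leadKey D u) with h1 | h1 | h1
    · rw [h u h1, map_zero]
    · have := leadKey_inj D h1
      subst this
      exact absurd hv' (lt_irrefl _)
    · exact absurd (hv'.trans (leadKey_mono D τ h1)) (lt_irrefl _)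
  · rw [pderiv_rename_notMem D τ v' hr, map_zero]

theorem lead_type (hΦ : ∀ (τ : ℕ ↪o ℕ) g, Φ (rename (actX D τ) g) = S.act τ (Φ g))
    (B : Subring P) (hB : ∀ a, a ∈ B ↔ ∃ g, Φ g = a) (hBA : B ≤ S.A')
    (hnoeth : ∀ (w : ℕ) (N : Pos w → AddSubgroup P), IsFam S B N → FG S B ⊥ N)
    (w : ℕ) (V : Pos w → Idx D → Prop)
    (hV1 : ∀ ψ v (τ : ℕ ↪o ℕ), V ψ v → V (ψ.trans τ) (actX D τ v))
    (hV2 : ∀ ψ v v', V ψ v → V ψ v' → v = v') :
    ∃ H : Set (MvPolynomial (Idx D) ℂ), H.Finite ∧ (∀ g ∈ H, Φ g = 0) ∧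
      ∀ ψ v, V ψ v → ∀ g, Φ g = 0 → (∀ v', leadKey D v < leadKey D v' → Φ (pderiv v' g) = 0) →
        ∃ g1 ∈ trI D H, Φ (pderiv v g1) = Φ (pderiv v g) ∧
          ∀ v', leadKey D v < leadKey D v' → Φ (pderiv v' g1) = 0 := by
  -- the family of leading coefficients
  let N : Pos w → AddSubgroup P := fun ψ =>
    { carrier := {x | x = 0 ∨ ∃ v g, V ψ v ∧ Φ g = 0 ∧
        (∀ v', leadKey D v < leadKey D v' → Φ (pderiv v' g) = 0) ∧ x = Φ (pderiv v g)}
      zero_mem' := Or.inl rfl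
      add_mem' := by
        rintro x y (rfl | ⟨v, g, h1, h2, h3, rfl⟩) (rfl | ⟨v', g', h1', h2', h3', rfl⟩)
        · left; rw [add_zero]
        · right; exact ⟨v', g', h1', h2', h3', by rw [zero_add]⟩
        · right; exact ⟨v, g, h1, h2, h3, by rw [add_zero]⟩
        · right
          have e := hV2 ψ v v' h1 h1'
          subst e
          refine ⟨v, g + g', h1, by rw [map_add, h2, h2', add_zero], ?_, by rw [map_add, map_add]⟩
          intro u hu
          rw [map_add, map_add, h3 u hu, h3' u hu, add_zero]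
      neg_mem' := by
        rintro x (rfl | ⟨v, g, h1, h2, h3, rfl⟩)
        · left; rw [neg_zero]
        · right
          refine ⟨v, -g, h1, by rw [map_neg, h2, neg_zero], ?_, by rw [map_neg, map_neg]⟩
          intro u hu
          rw [map_neg, map_neg, h3 u hu, neg_zero] }
  have hmulv : ∀ (c g : MvPolynomial (Idx D) ℂ) (v : Idx D), Φ g = 0 →
      Φ (pderiv v (c * g)) = Φ c * Φ (pderiv v g) := by
    intro c g v hg
    rw [Derivation.leibniz, smul_eq_mul, smul_eq_mul, map_add, map_mul, map_mul, hg, zero_mul,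
      add_zero]
  have hfam : IsFam S B N := by
    refine ⟨?_, ?_, ?_⟩
    · rintro φ x (rfl | ⟨v, g, h1, h2, h3, rfl⟩)
      · exact S.A'.zero_mem
      · exact hBA ((hB _).mpr ⟨_, rfl⟩)
    · rintro φ a x ha (rfl | ⟨v, g, h1, h2, h3, rfl⟩)
      · left; rw [mul_zero]
      · right
        obtain ⟨c, rfl⟩ := (hB a).mp ha
        refine ⟨v, c * g, h1, by rw [map_mul, h2, mul_zero], ?_, (hmulv c g v h2).symm⟩
        intro u hu
        rw [hmulv c g u h2, h3 u hu, mul_zero]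
    · rintro φ τ x (rfl | ⟨v, g, h1, h2, h3, rfl⟩)
      · left; rw [map_zero]
      · right
        refine ⟨actX D τ v, rename (actX D τ) g, hV1 φ v τ h1, by rw [hΦ, h2, map_zero], ?_, ?_⟩
        · intro u hu
          exact lead_vanish S D Φ hΦ τ v g h3 u hu
        · rw [pderiv_rename_actX, hΦ]
  obtain ⟨G, hGf, hGN, hGgen⟩ := hnoeth w N hfam
  -- lifts
  have hlift : ∀ x : Pos w × P, ∃ g : MvPolynomial (Idx D) ℂ, x ∈ G → (Φ g = 0 ∧
      (x.2 = 0 ∨ ∃ v, V x.1 v ∧ (∀ v', leadKey D v < leadKey D v' → Φ (pderiv v' g) = 0) ∧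
        x.2 = Φ (pderiv v g))) := by
    intro x
    by_cases hx : x ∈ G
    · rcases hGN x hx with h | ⟨v, g, h1, h2, h3, h4⟩
      · exact ⟨0, fun _ => ⟨map_zero _, Or.inl h⟩⟩
      · exact ⟨g, fun _ => ⟨h2, Or.inr ⟨v, h1, h3, h4⟩⟩⟩
    · exact ⟨0, fun h => absurd h hx⟩
  choose L hL using hlift
  refine ⟨L '' G, hGf.image L, ?_, ?_⟩
  · rintro _ ⟨x, hx, rfl⟩
    exact (hL x hx).1
  · intro ψ v hv g hg hvan
    have hmem : Φ (pderiv v g) ∈ N ψ := Or.inr ⟨v, g, hv, hg, hvan, rfl⟩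
    have hmem2 := hGgen ψ hmem
    have hbot : (⊥ : Pos w → AddSubgroup P) ψ ⊔ gen S B G ψ = gen S B G ψ := by
      simp
    rw [hbot] at hmem2
    unfold gen at hmem2
    generalize Φ (pderiv v g) = x at hmem2
    induction hmem2 using AddSubgroup.closure_induction with
    | mem x hx =>
      obtain ⟨y, hy, τ, hτ, a, ha, rfl⟩ := hx
      obtain ⟨c, rfl⟩ := (hB a).mp ha
      obtain ⟨h1, h2⟩ := hL y hy
      rcases h2 with h2 | ⟨v0, h2, h3, h4⟩
      · refine ⟨0, Ideal.zero_mem _, ?_, ?_⟩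
        · rw [h2, map_zero, map_zero, map_zero, mul_zero]
        · intro u _
          rw [map_zero, map_zero]
      · have e : actX D τ v0 = v := by
          have := hV1 y.1 v0 τ h2
          rw [hτ] at this
          exact hV2 ψ _ _ this hv
        have hr0 : Φ (rename (actX D τ) (L y)) = 0 := by rw [hΦ, h1, map_zero]
        refine ⟨c * rename (actX D τ) (L y), ?_, ?_, ?_⟩
        · exact Ideal.mul_mem_left _ _ (Ideal.subset_span ⟨L y, ⟨y, hy, rfl⟩, τ, rfl⟩)
        · rw [hmulv _ _ _ hr0, ← e, pderiv_rename_actX, hΦ, h4]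
        · intro u hu
          rw [hmulv _ _ _ hr0, lead_vanish S D Φ hΦ τ v0 (L y) h3 u (by rw [e]; exact hu),
            mul_zero]
    | zero =>
      exact ⟨0, Ideal.zero_mem _, by rw [map_zero, map_zero], fun u _ => by
        rw [map_zero, map_zero]⟩
    | add x y _ _ hx hy =>
      obtain ⟨g1, h1, h2, h3⟩ := hx
      obtain ⟨g2, h4, h5, h6⟩ := hy
      refine ⟨g1 + g2, Ideal.add_mem _ h1 h4, by rw [map_add, map_add, h2, h5], fun u hu => ?_⟩
      rw [map_add, map_add, h3 u hu, h6 u hu, add_zero]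
    | neg x _ hx =>
      obtain ⟨g1, h1, h2, h3⟩ := hx
      refine ⟨-g1, neg_mem h1, by rw [map_neg, map_neg, h2], fun u hu => ?_⟩
      rw [map_neg, map_neg, h3 u hu, neg_zero]

end

theorem trI_mono (D : ℕ → ℕ → Prop) [Inv D] {G H : Set (MvPolynomial (Idx D) ℂ)} (h : G ⊆ H) :
    trI D G ≤ trI D H := by
  unfold trI
  apply Ideal.span_mono
  rintro q ⟨g, hg, τ, rfl⟩
  exact ⟨g, h hg, τ, rfl⟩

theorem grad_fg {P : Type} [CommRing P] [Algebra ℂ P] (S : Sit P) (D : ℕ → ℕ → Prop) [Inv D]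
    (Φ : MvPolynomial (Idx D) ℂ →ₐ[ℂ] P)
    (hΦ : ∀ (τ : ℕ ↪o ℕ) g, Φ (rename (actX D τ) g) = S.act τ (Φ g))
    (B : Subring P) (hB : ∀ a, a ∈ B ↔ ∃ g, Φ g = a) (hBA : B ≤ S.A')
    (hnoeth : ∀ (w : ℕ) (N : Pos w → AddSubgroup P), IsFam S B N → FG S B ⊥ N) :
    ∃ G : Set (MvPolynomial (Idx D) ℂ), G.Finite ∧ (∀ g ∈ G, Φ g = 0) ∧
      ∀ g, Φ g = 0 → ∃ g' ∈ trI D G, ∀ v, Φ (pderiv v (g - g')) = 0 := by
  classical
  -- the four types
  obtain ⟨H0, f0, z0, c0⟩ := lead_type S D Φ hΦ B hB hBA hnoeth 0 (fun _ v => v = none)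
    (by rintro ψ v τ rfl; rfl) (by rintro ψ v v' rfl rfl; rfl)
  obtain ⟨H1, f1, z1, c1⟩ := lead_type S D Φ hΦ B hB hBA hnoeth 2
    (fun ψ v => ∃ h : D (ψ 0) (ψ 1), v = some ⟨(ψ 0, ψ 1), h⟩)
    (by
      rintro ψ v τ ⟨h, rfl⟩
      exact ⟨Inv.inv τ _ _ h, rfl⟩)
    (by rintro ψ v v' ⟨h, rfl⟩ ⟨h', rfl⟩; rfl)
  obtain ⟨H2, f2, z2, c2⟩ := lead_type S D Φ hΦ B hB hBA hnoeth 2
    (fun ψ v => ∃ h : D (ψ 1) (ψ 0), v = some ⟨(ψ 1, ψ 0), h⟩)
    (by
      rintro ψ v τ ⟨h, rfl⟩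
      exact ⟨Inv.inv τ _ _ h, rfl⟩)
    (by rintro ψ v v' ⟨h, rfl⟩ ⟨h', rfl⟩; rfl)
  obtain ⟨H3, f3, z3, c3⟩ := lead_type S D Φ hΦ B hB hBA hnoeth 1
    (fun ψ v => ∃ h : D (ψ 0) (ψ 0), v = some ⟨(ψ 0, ψ 0), h⟩)
    (by
      rintro ψ v τ ⟨h, rfl⟩
      exact ⟨Inv.inv τ _ _ h, rfl⟩)
    (by rintro ψ v v' ⟨h, rfl⟩ ⟨h', rfl⟩; rfl)
  have hz : ∀ g ∈ H0 ∪ H1 ∪ H2 ∪ H3, Φ g = 0 := by
    rintro g (((hg | hg) | hg) | hg)
    · exact z0 g hg
    · exact z1 g hg
    · exact z2 g hg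
    · exact z3 g hg
  -- one step for every index
  have hstep : ∀ (v : Idx D) g, Φ g = 0 →
      (∀ v', leadKey D v < leadKey D v' → Φ (pderiv v' g) = 0) →
        ∃ g1 ∈ trI D (H0 ∪ H1 ∪ H2 ∪ H3), Φ (pderiv v g1) = Φ (pderiv v g) ∧
          ∀ v', leadKey D v < leadKey D v' → Φ (pderiv v' g1) = 0 := by
    intro v g hg hvan
    cases v with
    | none =>
      obtain ⟨g1, h1, h2⟩ := c0 leadPos0 none rfl g hg hvan
      exact ⟨g1, trI_mono D (fun x hx => Or.inl (Or.inl (Or.inl hx))) h1, h2⟩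
    | some p =>
      obtain ⟨⟨i, j⟩, hp⟩ := p
      rcases lt_trichotomy i j with hij | hij | hij
      · obtain ⟨g1, h1, h2⟩ := c1 (leadPos2 i j hij) _ ⟨hp, rfl⟩ g hg hvan
        exact ⟨g1, trI_mono D (fun x hx => Or.inl (Or.inl (Or.inr hx))) h1, h2⟩
      · subst hij
        obtain ⟨g1, h1, h2⟩ := c3 (leadPos1 i) _ ⟨hp, rfl⟩ g hg hvan
        exact ⟨g1, trI_mono D (fun x hx => Or.inr hx) h1, h2⟩
      · obtain ⟨g1, h1, h2⟩ := c2 (leadPos2 j i hij) _ ⟨hp, rfl⟩ g hg hvan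
        exact ⟨g1, trI_mono D (fun x hx => Or.inl (Or.inr hx)) h1, h2⟩
  refine ⟨H0 ∪ H1 ∪ H2 ∪ H3, ((f0.union f1).union f2).union f3, hz, ?_⟩
  -- choice of the largest index
  have hmax : ∀ g : MvPolynomial (Idx D) ℂ, (∀ v, Φ (pderiv v g) = 0) ∨
      ∃ v, Φ (pderiv v g) ≠ 0 ∧ ∀ v', leadKey D v < leadKey D v' → Φ (pderiv v' g) = 0 := by
    intro g
    by_cases h : ∀ v, Φ (pderiv v g) = 0
    · exact Or.inl h
    · right
      push Not at h
      obtain ⟨v0, hv0⟩ := h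
      have hmem : ∀ v, Φ (pderiv v g) ≠ 0 → v ∈ g.vars := by
        intro v hv
        by_contra hc
        exact hv (by rw [pderiv_eq_zero_of_notMem_vars hc, map_zero])
      obtain ⟨v, hv, hvm⟩ := Finset.exists_max_image (g.vars.filter
        (fun v => Φ (pderiv v g) ≠ 0)) (leadKey D) ⟨v0, by
          rw [Finset.mem_filter]; exact ⟨hmem v0 hv0, hv0⟩⟩
      rw [Finset.mem_filter] at hv
      refine ⟨v, hv.2, fun v' hv' => ?_⟩
      by_contra hc
      exact absurd hv' (not_lt.mpr (hvm v' (by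
        rw [Finset.mem_filter]; exact ⟨hmem v' hc, hc⟩)))
  have key : ∀ (k : ℕ ×ₗ (ℕ ×ₗ ℕ)) (v : Idx D), leadKey D v = k → ∀ g, Φ g = 0 →
      (∀ v', leadKey D v < leadKey D v' → Φ (pderiv v' g) = 0) →
      ∃ g' ∈ trI D (H0 ∪ H1 ∪ H2 ∪ H3), ∀ v, Φ (pderiv v (g - g')) = 0 := by
    intro k
    induction k using WellFoundedLT.induction with
    | ind k ih =>
      rintro v rfl g hg hvan
      obtain ⟨g1, h1, h2, h3⟩ := hstep v g hg hvan
      have hg1 := lead_trI S D Φ hΦ _ hz g1 h1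
      rcases hmax (g - g1) with h | ⟨u, hu, hum⟩
      · exact ⟨g1, h1, h⟩
      · have hlt : leadKey D u < leadKey D v := by
          by_contra hc
          push Not at hc
          rcases eq_or_lt_of_le hc with hc | hc
          · have := leadKey_inj D hc
            subst this
            apply hu
            rw [map_sub, map_sub, h2, sub_self]
          · apply hu
            rw [map_sub, map_sub, hvan u hc, h3 u hc, sub_self]
        obtain ⟨g', h4, h5⟩ := ih _ hlt u rfl (g - g1) (by rw [map_sub, hg, hg1, sub_self]) hum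
        refine ⟨g1 + g', Ideal.add_mem _ h1 h4, fun v => ?_⟩
        have := h5 v
        rwa [sub_sub] at this
  intro g hg
  rcases hmax g with h | ⟨v, _, hv⟩
  · exact ⟨0, Ideal.zero_mem _, by simpa using h⟩
  · exact key _ v rfl g hg hv

end MPf70651
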