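import Pool.Agent.Lib_MP_f70651_al.DefsTwo
import Pool.Agent.Lib_MP_f70651_al.Cover
import Pool.Agent.Lib_MP_f70651_al.Det

/-!
# MP_f70651_al, piece SIT
-/

namespace MPf70651

open MvPolynomial

namespace SitF

/-- the number of monomials of `f` -/
noncomputable def rr (f : MvPolynomial (Fin 2) ℂ) : ℕ := f.support.card

/-- the monomials of `f` -/
noncomputable def mo (f : MvPolynomial (Fin 2) ℂ) (a : Fin (rr f)) : Fin 2 →₀ ℕ :=
  (f.support.equivFin.symm a).1

/-- the left factor -/
noncomputable def uu (f : MvPolynomial (Fin 2) ℂ) (i : ℕ) (a : Fin (rr f)) : PP :=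
  zz * X (some i) ^ (mo f a 0)

/-- the right factor -/
noncomputable def vv (f : MvPolynomial (Fin 2) ℂ) (j : ℕ) (a : Fin (rr f)) : PP :=
  C (coeff (mo f a) f) * X (some j) ^ (mo f a 1)

theorem YY_eq (f : MvPolynomial (Fin 2) ℂ) (i j : ℕ) :
    YY f i j = ∑ a, uu f i a * vv f j a := by
  unfold YY fxy
  rw [aeval_def, eval₂_eq', Finset.mul_sum, ← Finset.sum_coe_sort]
  rw [← Equiv.sum_comp f.support.equivFin.symm]
  refine Finset.sum_congr rfl fun a _ => ?_
  unfold uu vv mo
  rw [Fin.prod_univ_two]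
  simp only [Matrix.cons_val_zero, Matrix.cons_val_one, algebraMap_eq]
  ring

/-- the covering map -/
noncomputable def th (f : MvPolynomial (Fin 2) ℂ) : QQ (Fin (rr f) × Bool) →ₐ[ℂ] PP :=
  aeval (fun o : Option (ℕ × (Fin (rr f) × Bool)) => match o with
    | none => zz
    | some (i, (a, true)) => uu f i a
    | some (j, (a, false)) => vv f j a)

theorem th_none (f : MvPolynomial (Fin 2) ℂ) : th f (X none) = zz := by
  unfold th
  rw [aeval_X]

theorem th_true (f : MvPolynomial (Fin 2) ℂ) (i : ℕ) (a : Fin (rr f)) :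
    th f (X (some (i, (a, true)))) = uu f i a := by
  unfold th
  rw [aeval_X]

theorem th_false (f : MvPolynomial (Fin 2) ℂ) (j : ℕ) (a : Fin (rr f)) :
    th f (X (some (j, (a, false)))) = vv f j a := by
  unfold th
  rw [aeval_X]

theorem th_pair (f : MvPolynomial (Fin 2) ℂ) (i j : ℕ) :
    th f (pair (rr f) i j) = YY f i j := by
  unfold pair
  rw [map_sum, YY_eq]
  refine Finset.sum_congr rfl fun a _ => ?_
  rw [map_mul, th_true, th_false]

theorem th_act (f : MvPolynomial (Fin 2) ℂ) (τ : ℕ → ℕ) (q : QQ (Fin (rr f) × Bool)) :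
    th f (rename (actV (Fin (rr f) × Bool) τ) q) = actP τ (th f q) := by
  have h : (th f).comp (rename (actV (Fin (rr f) × Bool) τ)) = (actP τ).comp (th f) := by
    apply MvPolynomial.algHom_ext
    intro o
    rw [AlgHom.comp_apply, AlgHom.comp_apply, rename_X]
    match o with
    | none =>
      have h1 : actV (Fin (rr f) × Bool) τ none = none := rfl
      rw [h1, th_none, actP_zz]
    | some (i, (a, true)) =>
      have h1 : actV (Fin (rr f) × Bool) τ (some (i, (a, true))) = some (τ i, (a, true)) := rfl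
      rw [h1, th_true, th_true]
      unfold uu
      rw [map_mul, map_pow, actP_zz]
      unfold actP
      rw [rename_X]
      rfl
    | some (j, (a, false)) =>
      have h1 : actV (Fin (rr f) × Bool) τ (some (j, (a, false))) = some (τ j, (a, false)) := rfl
      rw [h1, th_false, th_false]
      unfold vv
      rw [map_mul, map_pow]
      unfold actP
      rw [rename_X, rename_C]
      rfl
  exact congrArg (fun g => g q) h

theorem map_Gam (f : MvPolynomial (Fin 2) ℂ) : (Gam (rr f)).map (th f) = AA' f := by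
  unfold Gam AA'
  rw [AlgHom.map_adjoin]
  congr 1
  rw [Set.image_union, Set.image_singleton, th_none]
  congr 1
  ext p
  constructor
  · rintro ⟨q, ⟨i, j, rfl⟩, rfl⟩
    exact ⟨i, j, th_pair f i j⟩
  · rintro ⟨i, j, rfl⟩
    exact ⟨pair (rr f) i j, ⟨i, j, rfl⟩, th_pair f i j⟩

end SitF

theorem na_sit (f : MvPolynomial (Fin 2) ℂ) : NA (sit f) := by
  refine na_of_cover (sit f) (SitF.rr f) (SitF.th f : QQ (Fin (SitF.rr f) × Bool) →+* PP) ?_ ?_ ?_
  · intro τ q
    exact SitF.th_act f τ q
  · intro g hg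
    show SitF.th f g ∈ AA' f
    rw [← SitF.map_Gam]
    exact ⟨g, hg, rfl⟩
  · intro a ha
    have ha' : a ∈ AA' f := ha
    rw [← SitF.map_Gam] at ha'
    obtain ⟨g, hg, h⟩ := ha'
    exact ⟨g, hg, h⟩

theorem minors_sit (f : MvPolynomial (Fin 2) ℂ) : ∃ r, Minors (sit f) r :=
  ⟨SitF.rr f, minors_of_factor (S := sit f) (SitF.rr f) (SitF.uu f) (SitF.vv f)
    (fun i j => SitF.YY_eq f i j)⟩

theorem gen_sit (f : MvPolynomial (Fin 2) ℂ) : (sit f).A' ≤
    Subring.closure (((sit f).A : Set PP) ∪ Set.range fun i => (sit f).y i i) := by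
  intro a ha
  have ha' : a ∈ AA' f := ha
  unfold AA' at ha'
  refine Algebra.adjoin_induction (p := fun a _ => a ∈
    Subring.closure (((sit f).A : Set PP) ∪ Set.range fun i => (sit f).y i i)) ?_ ?_ ?_ ?_ ha'
  · rintro p (hp | ⟨i, j, rfl⟩)
    · apply Subring.subset_closure
      left
      show p ∈ AA f
      exact Algebra.subset_adjoin (Or.inl hp)
    · by_cases hij : i = j
      · subst hij
        exact Subring.subset_closure (Or.inr ⟨i, rfl⟩)
      · exact Subring.subset_closure (Or.inl ((sit f).y_mem i j hij))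
  · intro c
    apply Subring.subset_closure
    left
    show algebraMap ℂ PP c ∈ AA f
    exact (AA f).algebraMap_mem c
  · intro x y _ _ hx hy
    exact Subring.add_mem _ hx hy
  · intro x y _ _ hx hy
    exact Subring.mul_mem _ hx hy

end MPf70651
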