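import Pool.Agent.Lib_MP_f70651_al.Basic

/-!
# MP_f70651_al : PIECE GPROD, the ideal `𝔤(b)` of a bad pair is a symmetric prime
-/

namespace MPf70651

variable {P : Type} [CommRing P] {S : Sit P}

theorem gprod_exists_avoid {w : ℕ} (φ : Pos w) :
    ∃ τ : ℕ → ℕ, Function.Injective τ ∧ ∀ i k, τ i ≠ φ k := by
  obtain ⟨n, hn⟩ := exists_bound φ
  refine ⟨fun i => i + n, fun i j hij => by simpa using hij, fun i k h => ?_⟩
  have := hn k
  simp only at h
  omega

theorem gprod_one {w : ℕ} {b : Pos w → AddSubgroup P} (hb : IsFam S S.A' b) (hPN : ¬ PN S b) :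
    (1 : P) ∉ gid S b := by
  intro h1
  apply hPN
  intro N hN _
  apply FG.of_le
  intro φ x hx
  obtain ⟨τ, hτ, hav⟩ := gprod_exists_avoid φ
  have h2 := h1.2 φ τ hτ hav
  rw [map_one] at h2
  have h3 := hb.smul φ x 1 (hN.le φ x hx) h2
  rwa [mul_one] at h3

theorem gprod_mul {w : ℕ} {b : Pos w → AddSubgroup P} (hGB : GB S b) (a : P) (ha : a ∈ S.A')
    (c : P) (hc : c ∈ S.A') (hag : a ∉ gid S b) (hcg : c ∉ gid S b) (σ τ : ℕ → ℕ)
    (hσ : Function.Injective σ) (hτ : Function.Injective τ) (hd : ∀ i j, σ i ≠ τ j) :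
    S.act σ a * S.act τ c ∉ gid S b := by
  classical
  intro h
  have hcg' : ∃ (φ0 : Pos w) (η : ℕ → ℕ), Function.Injective η ∧ (∀ i k, η i ≠ φ0 k) ∧
      S.act η c ∉ b φ0 := by
    by_contra hne
    apply hcg
    refine ⟨hc, fun φ η h1 h2 => ?_⟩
    by_contra h3
    exact hne ⟨φ, η, h1, h2, h3⟩
  obtain ⟨φ0, η, hη, hav, hx⟩ := hcg'
  obtain ⟨p, hp⟩ := exists_supp (S := S) a
  obtain ⟨q, hq⟩ := exists_supp (S := S) c
  obtain ⟨n0, hn0⟩ := exists_bound φ0
  set m := n0 + ((Finset.range q).sup η + 1) with hm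
  have hmφ : ∀ k, φ0 k < m := fun k => by
    have := hn0 k
    omega
  have hmη : ∀ j, j < q → η j < m := fun j hj => by
    have : η j ≤ (Finset.range q).sup η := Finset.le_sup (Finset.mem_range.mpr hj)
    omega
  obtain ⟨χ, τ', hτ', hav', hnot⟩ := hGB a ha hag φ0 (S.act η c) (S.act_A' η hη c hc) hx m
  set g : ℕ → ℕ := fun n => if n ∈ Set.range σ then τ' (Function.invFun σ n)
    else χ (η (Function.invFun τ n)) with hg
  have gσ : ∀ i, g (σ i) = τ' i := fun i => by
    have h1 : σ i ∈ Set.range σ := ⟨i, rfl⟩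
    rw [hg]
    simp only [h1, if_true]
    rw [Function.leftInverse_invFun hσ i]
  have gτ : ∀ j, g (τ j) = χ (η j) := fun j => by
    have h1 : τ j ∉ Set.range σ := by
      rintro ⟨i, hi⟩
      exact hd i j hi
    rw [hg]
    simp only [h1, if_false]
    rw [Function.leftInverse_invFun hτ j]
  obtain ⟨θ, hθ, hθF, hθK⟩ := exists_inj_extend
    ((Finset.range p).image σ ∪ (Finset.range q).image τ)
    (Finset.univ.image fun k => χ (φ0 k)) g (by
      intro x hx y hy hxy
      simp only [Finset.coe_union, Finset.coe_image, Finset.coe_range, Set.mem_union,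
        Set.mem_image, Set.mem_Iio] at hx hy
      rcases hx with ⟨i, hi, rfl⟩ | ⟨i, hi, rfl⟩ <;> rcases hy with ⟨j, hj, rfl⟩ | ⟨j, hj, rfl⟩
      · rw [gσ, gσ] at hxy
        rw [hτ' hxy]
      · rw [gσ, gτ] at hxy
        exact absurd hxy (hav' i (η j) (hmη j hj))
      · rw [gσ, gτ] at hxy
        exact absurd hxy.symm (hav' j (η i) (hmη i hi))
      · rw [gτ, gτ] at hxy
        rw [hη (χ.injective hxy)]) (by
      intro x hx
      simp only [Finset.mem_union, Finset.mem_image, Finset.mem_range] at hx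
      rw [Finset.mem_image]
      rintro ⟨k, -, hk⟩
      rcases hx with ⟨i, hi, rfl⟩ | ⟨i, hi, rfl⟩
      · rw [gσ] at hk
        exact hav' i (φ0 k) (hmφ k) hk.symm
      · rw [gτ] at hk
        exact hav i k (χ.injective hk).symm)
  have h1 := h.2 (φ0.trans χ) θ hθ (fun i k hik => by
    apply hθK i
    rw [Finset.mem_image]
    exact ⟨k, Finset.mem_univ _, hik.symm⟩)
  apply hnot
  rw [map_mul, act_comp_apply, act_comp_apply] at h1
  have e1 : S.act (fun i => θ (σ i)) a = S.act τ' a := by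
    apply hp
    intro i hi
    rw [hθF (σ i) (Finset.mem_union_left _ (Finset.mem_image_of_mem σ (Finset.mem_range.mpr hi))),
      gσ]
  have e2 : S.act (fun i => θ (τ i)) c = S.act χ (S.act η c) := by
    rw [act_comp_apply]
    apply hq
    intro i hi
    rw [hθF (τ i) (Finset.mem_union_right _ (Finset.mem_image_of_mem τ (Finset.mem_range.mpr hi))),
      gτ]
  rw [e1, e2] at h1
  exact h1

theorem symPrime_gid {w : ℕ} {b : Pos w → AddSubgroup P} (hb : IsFam S S.A' b) (hPN : ¬ PN S b)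
    (hGB : GB S b) : SymPrime S (gid S b) where
  le := fun a ha => ha.1
  smul := fun c hc a ha => ⟨S.A'.mul_mem hc ha.1, fun φ τ h1 h2 => by
    rw [map_mul]
    exact hb.smul φ _ _ (S.act_A' τ h1 c hc) (ha.2 φ τ h1 h2)⟩
  act := fun σ hσ a ha => ⟨S.act_A' σ hσ a ha.1, fun φ τ h1 h2 => by
    rw [act_comp_apply]
    exact ha.2 φ _ (h1.comp hσ) (fun i k => h2 (σ i) k)⟩
  one := gprod_one hb hPN
  mul := fun a ha c hc hag hcg σ τ hσ hτ hd =>
    gprod_mul hGB a ha c hc hag hcg σ τ hσ hτ hd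

end MPf70651
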