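import Pool.Agent.Lib_MP_f70651_al.Val

/-!
# MP_f70651_al, piece INTEG
-/

namespace MPf70651

open MvPolynomial

theorem isIntegral_diag (f : MvPolynomial (Fin 2) ℂ)
    (hf : f.coeff (Finsupp.single 0 f.totalDegree) ≠ 0 ∨
      f.coeff (Finsupp.single 1 f.totalDegree) ≠ 0) :
    IsIntegral (AA f) (YY f 0 0) := by
  let K := FractionRing PP
  have hinj : Function.Injective (algebraMap PP K) := IsFractionRing.injective PP K
  let ψ : AA f →+* K := (algebraMap PP K).comp (AA f).val.toRingHom
  have hψinj : Function.Injective ψ := by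
    intro a b h
    exact Subtype.ext (hinj h)
  set x : K := algebraMap PP K (YY f 0 0) with hx
  have hYY : ∀ i j, algebraMap PP K (YY f i j) = algebraMap PP K zz *
      aeval ![algebraMap PP K (X (some i)), algebraMap PP K (X (some j))] f := by
    intro i j
    unfold YY fxy
    rw [map_mul]
    congr 1
    have : ((IsScalarTower.toAlgHom ℂ PP K).comp (aeval ![X (some i), X (some j)])) =
        (aeval ![algebraMap PP K (X (some i)), algebraMap PP K (X (some j))] :
          MvPolynomial (Fin 2) ℂ →ₐ[ℂ] K) := by
      apply MvPolynomial.algHom_ext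
      intro k
      fin_cases k <;> simp
    exact congrArg (fun g => g f) this
  have hmem : x ∈ (⨅ V : {V : ValuationSubring K // (ψ.range : Set K) ⊆ V.toSubring},
      V.1.toSubring) := by
    rw [Subring.mem_iInf]
    rintro ⟨V, hV⟩
    show x ∈ V
    have hVmem : ∀ a ∈ AA f, algebraMap PP K a ∈ V := fun a ha => hV ⟨⟨a, ha⟩, rfl⟩
    rw [hx, hYY]
    refine val_diag V (fun c => ?_) _ (hVmem _ (Algebra.subset_adjoin (Or.inl rfl)))
      (fun i => algebraMap PP K (X (some i))) (fun i j h => ?_) f hf (fun i j hij => ?_)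
    · rw [IsScalarTower.algebraMap_apply ℂ PP K]
      exact hVmem _ ((AA f).algebraMap_mem c)
    · have h1 := hinj h
      have h2 := MvPolynomial.X_injective h1
      exact Option.some_injective _ h2
    · rw [← hYY]
      exact hVmem _ (Algebra.subset_adjoin (Or.inr ⟨i, j, hij, rfl⟩))
  rw [iInf_valuationSubring_superset] at hmem
  have hint : IsIntegral (Subring.closure (ψ.range : Set K)) x := hmem
  obtain ⟨p, hp, hpe⟩ := hint
  -- transfer
  have hcl : Subring.closure (ψ.range : Set K) = ψ.range := Subring.closure_eq _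
  let e1 : Subring.closure (ψ.range : Set K) →+* ψ.range :=
    Subring.inclusion (le_of_eq hcl)
  let e2 : AA f ≃+* ψ.range := RingEquiv.ofBijective ψ.rangeRestrict
    ⟨fun a b h => hψinj (congrArg Subtype.val h), ψ.rangeRestrict_surjective⟩
  let e : Subring.closure (ψ.range : Set K) →+* AA f := (e2.symm : ψ.range →+* AA f).comp e1
  have he : ∀ c, ψ (e c) = (c : K) := by
    intro c
    have h1 : (e2 (e2.symm (e1 c)) : K) = (e1 c : K) := by rw [RingEquiv.apply_symm_apply]
    exact h1
  have hcomp : ψ.comp e = algebraMap (Subring.closure (ψ.range : Set K)) K := by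
    ext c
    exact he c
  refine ⟨p.map e, hp.map e, ?_⟩
  apply hinj
  rw [map_zero, Polynomial.hom_eval₂, Polynomial.eval₂_map]
  have h3 : ((algebraMap PP K).comp (algebraMap (AA f) PP)).comp e
      = algebraMap (Subring.closure (ψ.range : Set K)) K := hcomp
  rw [h3]
  exact hpe

end MPf70651
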