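import Pool.Agent.Lib_MP_f70651_al.Noeth
import Pool.Agent.Lib_MP_f70651_al.Bound
import Pool.Agent.Lib_MP_f70651_al.SitFacts
import Pool.Agent.Lib_MP_f70651_al.Integ
import Pool.Agent.Lib_MP_f70651_al.Lead
import Pool.Agent.Lib_MP_f70651_al.Euler
import Pool.Agent.Lib_MP_f70651_al.Dehom

/-!
# MP_f70651_al : assembly
-/

namespace MPf70651

open MvPolynomial

/-! ### assembly -/

theorem main (f : MvPolynomial (Fin 2) ℂ)
    (hf : f.coeff (Finsupp.single 0 f.totalDegree) ≠ 0 ∨
      f.coeff (Finsupp.single 1 f.totalDegree) ≠ 0) :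
    ∃ G : Finset RR, (∀ g ∈ G, phi0 f g = 0) ∧
      Ideal.span {q | ∃ σ : Equiv.Perm ℕ, {i | σ i ≠ i}.Finite ∧ ∃ g ∈ G,
        q = rename (permY σ) g} = RingHom.ker (phi0 f) := by
  have hI := isIntegral_diag f hf
  have hbd : ∃ s, Bdd (sit f) s := by
    obtain ⟨r, hr⟩ := minors_sit f
    obtain ⟨p, hp, hp0⟩ := hI
    refine exists_bdd hr p.natDegree (fun k => -((p.coeff k : AA f) : PP)) ?_ ?_ (gen_sit f)
    · intro k
      exact (AA f).neg_mem (p.coeff k).2
    · have h1 : Polynomial.eval₂ (algebraMap (AA f) PP) (YY f 0 0) p = 0 := hp0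
      rw [Polynomial.eval₂_eq_sum_range, Finset.sum_range_succ, hp.coeff_natDegree, map_one,
        one_mul] at h1
      have h2 : (sit f).y 0 0 ^ p.natDegree = - ∑ i ∈ Finset.range p.natDegree,
          (algebraMap (AA f) PP) (p.coeff i) * YY f 0 0 ^ i := by
        exact eq_neg_of_add_eq_zero_right h1
      rw [h2, Finset.sum_range, ← Finset.sum_neg_distrib]
      apply Finset.sum_congr rfl
      intro k _
      rw [neg_mul]
      rfl
  obtain ⟨s, hs⟩ := hbd
  obtain ⟨r, hr⟩ := minors_sit f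
  have hn := fun w N h => noeth (S := sit f) (na_sit f) hs hr w N h
  have hgrad := grad_fg (sit f) Off (phi f) (phi_act f) (sit f).A (phi_range f) (sit f).A_le hn
  refine dehom f (ker_fg_of_grad Off (phi f) (phi_hom f) ?_ ?_ hgrad)
  · intro c hc
    have : (C c : PP) = 0 := by
      have h := hc
      rw [← MvPolynomial.algebraMap_eq, AlgHom.commutes] at h
      exact h
    exact C_eq_zero.mp this
  · intro τ g hg
    rw [phi_act, hg, map_zero]

end MPf70651
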