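import Pool.Agent.Lib_MP_f70651_al.Basic

/-!
# MP_f70651_al : symmetric prime ideals (piece PRIME)
-/

namespace MPf70651

section abstractPart

variable {P : Type} [CommRing P] {S : Sit P}

theorem SuppOn.mul {F F' : Finset ℕ} {a c : P} (h : SuppOn S F a) (h' : SuppOn S F' c) :
    SuppOn S (F ∪ F') (a * c) := by
  intro σ τ hst
  rw [map_mul, map_mul, h σ τ fun i hi => hst i (Finset.mem_union_left _ hi),
    h' σ τ fun i hi => hst i (Finset.mem_union_right _ hi)]

theorem SuppOn.mono {F F' : Finset ℕ} {a : P} (h : SuppOn S F a) (hF : F ⊆ F') :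
    SuppOn S F' a := fun σ τ hst => h σ τ fun i hi => hst i (hF hi)

theorem SymPrime.mul_not_mem {g : AddSubgroup P} (hg : SymPrime S g) {F F' : Finset ℕ} {a c : P}
    (ha : a ∈ S.A') (hc : c ∈ S.A') (hag : a ∉ g) (hcg : c ∉ g) (hFa : SuppOn S F a)
    (hFc : SuppOn S F' c) (hd : Disjoint F F') : a * c ∉ g := by
  intro hac
  refine hg.mul a ha c hc hag hcg (fun i => 2 * i) (fun i => 2 * i + 1)
    (fun i j h => by simpa using h) (fun i j h => by simpa using h)
    (fun i j h => by omega) ?_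
  obtain ⟨θ, hθ, h1, -⟩ := exists_inj_extend (F ∪ F') ∅
    (fun i => if i ∈ F then 2 * i else 2 * i + 1) (by
      intro i _ j _ h
      simp only at h
      split_ifs at h <;> omega) (fun i _ => Finset.notMem_empty _)
  have h2 : S.act (fun i => 2 * i) a = S.act θ a := by
    refine hFa _ _ fun i hi => ?_
    rw [h1 i (Finset.mem_union_left _ hi), if_pos hi]
  have h3 : S.act (fun i => 2 * i + 1) c = S.act θ c := by
    refine hFc _ _ fun i hi => ?_
    rw [h1 i (Finset.mem_union_right _ hi), if_neg (Finset.disjoint_right.mp hd hi)]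
  rw [h2, h3, ← map_mul]
  exact hg.act θ hθ _ hac

theorem SymPrime.prod_not_mem {g : AddSubgroup P} (hg : SymPrime S g) {ι : Type} (s : Finset ι)
    (F : ι → Finset ℕ) (a : ι → P) (ha : ∀ i ∈ s, a i ∈ S.A') (hag : ∀ i ∈ s, a i ∉ g)
    (hF : ∀ i ∈ s, SuppOn S (F i) (a i)) (hd : ∀ i ∈ s, ∀ j ∈ s, i ≠ j → Disjoint (F i) (F j)) :
    ∏ i ∈ s, a i ∉ g := by
  classical
  have key : ∏ i ∈ s, a i ∈ S.A' ∧ ∏ i ∈ s, a i ∉ g ∧ SuppOn S (s.biUnion F) (∏ i ∈ s, a i) := by
    induction s using Finset.induction_on with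
    | empty =>
      refine ⟨by simp, by simpa using hg.one, fun σ τ _ => ?_⟩
      simp
    | insert i s hi ih =>
      obtain ⟨h1, h2, h3⟩ := ih (fun j hj => ha j (Finset.mem_insert_of_mem hj))
        (fun j hj => hag j (Finset.mem_insert_of_mem hj))
        (fun j hj => hF j (Finset.mem_insert_of_mem hj))
        (fun j hj k hk => hd j (Finset.mem_insert_of_mem hj) k (Finset.mem_insert_of_mem hk))
      have hi' := Finset.mem_insert_self i s
      rw [Finset.prod_insert hi, Finset.biUnion_insert]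
      refine ⟨S.A'.mul_mem (ha i hi') h1, ?_, (hF i hi').mul h3⟩
      refine hg.mul_not_mem (ha i hi') h1 (hag i hi') h2 (hF i hi') h3 ?_
      rw [Finset.disjoint_biUnion_right]
      intro j hj
      exact hd i hi' j (Finset.mem_insert_of_mem hj) (fun h => hi (h ▸ hj))
  exact key.2.1

theorem SymPrime.act_not_mem {g : AddSubgroup P} (hg : SymPrime S g) {a : P} (ha : a ∉ g)
    (σ : ℕ → ℕ) (hσ : Function.Injective σ) : S.act σ a ∉ g := by
  intro h
  obtain ⟨n, hn⟩ := exists_supp (S := S) a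
  obtain ⟨θ, hθ, h1, -⟩ := exists_inj_extend ((Finset.range n).image σ) ∅
    (Function.invFun σ) (by
      intro i hi j hj h
      rw [Finset.mem_coe, Finset.mem_image] at hi hj
      obtain ⟨i, _, rfl⟩ := hi
      obtain ⟨j, _, rfl⟩ := hj
      rw [Function.leftInverse_invFun hσ, Function.leftInverse_invFun hσ] at h
      rw [h]) (fun i _ => Finset.notMem_empty _)
  apply ha
  have h2 := hg.act θ hθ _ h
  rw [act_comp_apply] at h2
  have h3 : S.act (fun i => θ (σ i)) a = S.act id a := by
    refine hn _ _ fun i hi => ?_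
    rw [h1 _ (Finset.mem_image_of_mem σ (Finset.mem_range.mpr hi)),
      Function.leftInverse_invFun hσ]
    rfl
  rwa [h3, S.act_id] at h2

end abstractPart

end MPf70651
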