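import Pool.Agent.Lib_MP_f70651_al.Acc
import Pool.Agent.Lib_MP_f70651_al.Four
import Pool.Agent.Lib_MP_f70651_al.Czero
import Pool.Agent.Lib_MP_f70651_al.Dev
import Pool.Agent.Lib_MP_f70651_al.Gprod
import Pool.Agent.Lib_MP_f70651_al.Prime
import Pool.Agent.Lib_MP_f70651_al.Block
import Pool.Agent.Lib_MP_f70651_al.Absorb
import Pool.Agent.Lib_MP_f70651_al.Essen

/-!
# MP_f70651_al : assembly of the abstract theorem
-/

namespace MPf70651

section abstractPart

variable {P : Type} [CommRing P] {S : Sit P}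

/-! ### assembly of the abstract theorem (Noeth.lean) -/

theorem noeth (hN : NA S) {s : ℕ} (hb : Bdd S s) {r : ℕ} (hm : Minors S r) (w : ℕ)
    (N : Pos w → AddSubgroup P) (h : IsFam S S.A N) : FG S S.A ⊥ N := by
  have hall : ∀ (w : ℕ) (b : Pos w → AddSubgroup P), IsFam S S.A' b → PN S b := by
    by_contra hne
    obtain ⟨w, b, hbF, hPN, hc, hGB⟩ := exists_bad hN hne
    have hsp := symPrime_gid hbF hPN hGB
    obtain ⟨m, Δ, L, h1, h2, h3, h4, h5⟩ := exists_block hm hsp
    obtain ⟨b0, hb0A, hb0, habs⟩ := absorb hbF hsp hb h1 h2 h3 h4 h5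
    exact hPN (PN_of_absorb hbF hc hGB (fun J hJ => fg_of_isFam' hN hb J hJ) hb0A hb0 habs)
  exact hall w ⊥ (isFam_bot _ _) N h bot_le

end abstractPart

end MPf70651
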