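import Pool.Agent.Lib_MP_f70651_al.Main

/-!
# MP_f70651_al : finite generation up to symmetry for `f` with a pure power of top degree
-/

namespace Pool.Agent.Results.MP_f70651_al.PurePowerTop

open MvPolynomial

/-- Let `f` be a polynomial in two variables `s, t` of total degree `d` whose coefficient of `s^d`
or of `t^d` is nonzero. Then the kernel of `y_ij ↦ f(x_i, x_j)` (`i ≠ j`) is generated, as an ideal,
by the translates of finitely many of its elements under the finitely supported permutations. -/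
theorem result (f : MvPolynomial (Fin 2) ℂ)
    (hf : f.coeff (Finsupp.single 0 f.totalDegree) ≠ 0 ∨
      f.coeff (Finsupp.single 1 f.totalDegree) ≠ 0) :
    ∃ G : Finset (MvPolynomial {p : ℕ × ℕ // p.1 ≠ p.2} ℂ),
      Ideal.span {q | ∃ σ : Equiv.Perm ℕ, {i | σ i ≠ i}.Finite ∧ ∃ g ∈ G,
        q = rename (fun p : {p : ℕ × ℕ // p.1 ≠ p.2} =>
          (⟨(σ p.1.1, σ p.1.2), fun h => p.2 (σ.injective h)⟩ : {p : ℕ × ℕ // p.1 ≠ p.2})) g} =
      RingHom.ker (aeval (fun p : {p : ℕ × ℕ // p.1 ≠ p.2} =>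
        aeval (![X p.1.1, X p.1.2] : Fin 2 → MvPolynomial ℕ ℂ) f) :
          MvPolynomial {p : ℕ × ℕ // p.1 ≠ p.2} ℂ →ₐ[ℂ] MvPolynomial ℕ ℂ) := by
  obtain ⟨G, _, hG⟩ := MPf70651.main f hf
  exact ⟨G, hG⟩

end Pool.Agent.Results.MP_f70651_al.PurePowerTop
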