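import Pool.Agent.Lib_MP_f70651_al.DefsTwo

/-!
# MP_f70651_al, piece VAL
-/

namespace MPf70651

open MvPolynomial

namespace ValDiag

section mono

variable {Γ : Type*} [LinearOrderedCommGroupWithZero Γ]

theorem mono_lt {A B : Γ} {a b d : ℕ} (hA : 1 < A) (hB : B < A) (hab : a + b ≤ d)
    (hne : ¬ (a = d ∧ b = 0)) : A ^ a * B ^ b < A ^ d := by
  have hA0 : (0 : Γ) < A := zero_lt_one.trans hA
  rcases Nat.eq_zero_or_pos b with hb | hb
  · subst hb
    have had : a < d := by
      rcases lt_or_eq_of_le (show a ≤ d by omega) with h | h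
      · exact h
      · exact absurd ⟨h, rfl⟩ hne
    rw [pow_zero, mul_one]
    exact pow_lt_pow_right₀ hA had
  · have h1 : B ^ b < A ^ b := pow_lt_pow_left₀ hB zero_le hb.ne'
    calc A ^ a * B ^ b < A ^ a * A ^ b := by
          apply mul_lt_mul_of_pos_left h1 (pow_pos hA0 a)
      _ = A ^ (a + b) := (pow_add _ _ _).symm
      _ ≤ A ^ d := pow_le_pow_right₀ hA.le hab

end mono

variable {K : Type} [Field K] [Algebra ℂ K] (V : ValuationSubring K)

theorem val_const (hC : ∀ c : ℂ, algebraMap ℂ K c ∈ V) {c : ℂ} (hc : c ≠ 0) :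
    V.valuation (algebraMap ℂ K c) = 1 := by
  have h1 := (V.valuation_le_one_iff _).2 (hC c)
  have h2 := (V.valuation_le_one_iff _).2 (hC c⁻¹)
  have h3 : V.valuation (algebraMap ℂ K c) * V.valuation (algebraMap ℂ K c⁻¹) = 1 := by
    rw [← map_mul, ← map_mul, mul_inv_cancel₀ hc, map_one, map_one]
  apply le_antisymm h1
  calc (1 : V.ValueGroup) = V.valuation (algebraMap ℂ K c) * V.valuation (algebraMap ℂ K c⁻¹) := h3.symm
    _ ≤ V.valuation (algebraMap ℂ K c) * 1 := by gcongr
    _ = _ := mul_one _

theorem val_uni (hC : ∀ c : ℂ, algebraMap ℂ K c ∈ V) (h : Polynomial ℂ) (hh : h ≠ 0) {x : K}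
    (hx : 1 < V.valuation x) :
    V.valuation (Polynomial.aeval x h) = V.valuation x ^ h.natDegree := by
  have hx0 : (0 : V.ValueGroup) < V.valuation x := zero_lt_one.trans hx
  rw [Polynomial.aeval_eq_sum_range, Finset.sum_range_succ]
  have hlc : h.coeff h.natDegree ≠ 0 := by
    rw [Polynomial.coeff_natDegree]; exact Polynomial.leadingCoeff_ne_zero.2 hh
  have hlast : V.valuation (h.coeff h.natDegree • x ^ h.natDegree)
      = V.valuation x ^ h.natDegree := by
    rw [Algebra.smul_def, map_mul, map_pow, val_const V hC hlc, one_mul]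
  have hrest : V.valuation (∑ i ∈ Finset.range h.natDegree, h.coeff i • x ^ i)
      < V.valuation (h.coeff h.natDegree • x ^ h.natDegree) := by
    rw [hlast]
    apply Valuation.map_sum_lt' _ (pow_pos hx0 _)
    intro i hi
    rw [Algebra.smul_def, map_mul, map_pow]
    have h1 := (V.valuation_le_one_iff _).2 (hC (h.coeff i))
    calc V.valuation (algebraMap ℂ K (h.coeff i)) * V.valuation x ^ i
        ≤ 1 * V.valuation x ^ i := by gcongr
      _ = V.valuation x ^ i := one_mul _
      _ < V.valuation x ^ h.natDegree := pow_lt_pow_right₀ hx (Finset.mem_range.1 hi)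
  rw [Valuation.map_add_eq_of_lt_right _ hrest, hlast]

theorem val_dom (hC : ∀ c : ℂ, algebraMap ℂ K c ∈ V) (f : MvPolynomial (Fin 2) ℂ)
    (y : Fin 2 → K) (i l : Fin 2) (hil : i ≠ l) (hc : f.coeff (Finsupp.single i f.totalDegree) ≠ 0)
    (h1 : 1 < V.valuation (y i)) (h2 : V.valuation (y l) < V.valuation (y i)) :
    V.valuation (aeval y f) = V.valuation (y i) ^ f.totalDegree := by
  set d := f.totalDegree with hd
  have hx0 : (0 : V.ValueGroup) < V.valuation (y i) := zero_lt_one.trans h1
  have huniv : (Finset.univ : Finset (Fin 2)) = {i, l} := by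
    clear_value d
    clear hx0 h1 h2 hc
    revert i l
    decide
  have hexp : aeval y f = ∑ m ∈ f.support, algebraMap ℂ K (f.coeff m) * (y i ^ m i * y l ^ m l) := by
    rw [aeval_def, eval₂_eq']
    apply Finset.sum_congr rfl
    intro m _
    rw [huniv, Finset.prod_pair hil]
  have hmem : Finsupp.single i d ∈ f.support := by
    rw [mem_support_iff]; exact hc
  rw [hexp, ← Finset.add_sum_erase _ _ hmem]
  have hlast : V.valuation (algebraMap ℂ K (f.coeff (Finsupp.single i d)) *
      (y i ^ (Finsupp.single i d) i * y l ^ (Finsupp.single i d) l)) = V.valuation (y i) ^ d := by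
    rw [Finsupp.single_eq_same, Finsupp.single_eq_of_ne (Ne.symm hil), pow_zero, mul_one, map_mul, map_pow,
      val_const V hC hc, one_mul]
  have hrest : V.valuation (∑ m ∈ f.support.erase (Finsupp.single i d),
      algebraMap ℂ K (f.coeff m) * (y i ^ m i * y l ^ m l)) < V.valuation (algebraMap ℂ K (f.coeff (Finsupp.single i d)) *
      (y i ^ (Finsupp.single i d) i * y l ^ (Finsupp.single i d) l)) := by
    rw [hlast]
    apply Valuation.map_sum_lt' _ (pow_pos hx0 _)
    intro m hm
    obtain ⟨hne, hms⟩ := Finset.mem_erase.1 hm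
    have hdeg : m i + m l ≤ d := by
      have := le_totalDegree hms
      rw [Finsupp.sum_fintype _ _ (fun _ => rfl), huniv, Finset.sum_pair hil] at this
      exact this
    rw [map_mul, map_mul, map_pow, map_pow]
    have h3 := (V.valuation_le_one_iff _).2 (hC (f.coeff m))
    have h4 : V.valuation (y i) ^ m i * V.valuation (y l) ^ m l < V.valuation (y i) ^ d := by
      apply mono_lt h1 h2 hdeg
      rintro ⟨ha, hb⟩
      apply hne
      ext t
      have ht : t = i ∨ t = l := by
        have : t ∈ (Finset.univ : Finset (Fin 2)) := Finset.mem_univ t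
        rw [huniv] at this
        simpa using this
      rcases ht with rfl | rfl
      · rw [Finsupp.single_eq_same, ha]
      · rw [Finsupp.single_eq_of_ne (Ne.symm hil), hb]
    calc V.valuation (algebraMap ℂ K (f.coeff m)) * (V.valuation (y i) ^ m i * V.valuation (y l) ^ m l)
        ≤ 1 * (V.valuation (y i) ^ m i * V.valuation (y l) ^ m l) := by gcongr
      _ = _ := one_mul _
      _ < _ := h4
  rw [Valuation.map_add_eq_of_lt_left _ hrest, hlast]

theorem aeval_mem (hC : ∀ c : ℂ, algebraMap ℂ K c ∈ V) (f : MvPolynomial (Fin 2) ℂ)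
    (y : Fin 2 → K) (hy : ∀ i, y i ∈ V) : aeval y f ∈ V := by
  rw [aeval_def, eval₂_eq']
  apply V.toSubring.sum_mem
  intro m _
  apply V.mul_mem _ _ (hC _)
  apply V.toSubring.prod_mem
  intro i _
  exact V.toSubring.pow_mem (hy i) _

/-- the good index: Lagrange interpolation at the other nodes -/
theorem exists_good (z : K) (x : ℕ → K)
    (hx : Function.Injective x) (f : MvPolynomial (Fin 2) ℂ)
    (hoff : ∀ i j, i ≠ j → z * aeval ![x i, x j] f ∈ V) :
    ∃ j, j ≠ 0 ∧ z * aeval ![x j, x j] f ∈ V := by
  classical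
  set d := f.totalDegree with hd
  set S : Finset ℕ := Finset.Icc 1 (d + 2) with hS
  have hcard : S.card = d + 2 := by rw [hS, Nat.card_Icc]; omega
  have hne : S.Nonempty := by rw [← Finset.card_pos, hcard]; omega
  set w : ℕ → V.ValueGroup := fun j => ∏ i ∈ S.erase j, V.valuation (x j - x i) with hw
  obtain ⟨j, hjS, hmin⟩ := Finset.exists_min_image S w hne
  refine ⟨j, ?_, ?_⟩
  · have := (Finset.mem_Icc.1 hjS).1; omega
  set p : Polynomial K := MvPolynomial.aeval (![Polynomial.C (x j), Polynomial.X] : Fin 2 → Polynomial K)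
    (MvPolynomial.map (algebraMap ℂ K) f) with hp
  have hdegp : p.natDegree ≤ d := by
    have := MvPolynomial.aeval_natDegree_le (m := d) (n := 1) (MvPolynomial.map (algebraMap ℂ K) f)
      (Finset.sup_mono (support_map_subset _ _)) (![Polynomial.C (x j), Polynomial.X] : Fin 2 → Polynomial K) (by
        intro i
        fin_cases i
        · simp
        · simp)
    rwa [mul_one] at this
  have hevalp : ∀ t : K, p.eval t = aeval ![x j, t] f := by
    intro t
    have h1 : p.eval t = (Polynomial.evalRingHom t) p := rfl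
    rw [h1, hp, aeval_def, eval₂_map, MvPolynomial.hom_eval₂, aeval_def]
    congr 1
    · ext c
      simp
    · funext i
      fin_cases i
      · simp
      · simp
  have hcardE : (S.erase j).card = d + 1 := by rw [Finset.card_erase_of_mem hjS, hcard]; rfl
  have hp2 := Lagrange.eq_interpolate (s := S.erase j) (v := x) (f := p) (hx.injOn) (by
    rw [hcardE]
    refine lt_of_le_of_lt Polynomial.degree_le_natDegree ?_
    have : p.natDegree < d + 1 := by omega
    exact_mod_cast this)
  rw [← hevalp, hp2, Lagrange.interpolate_apply, Polynomial.eval_finsetSum, Finset.mul_sum]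
  apply V.toSubring.sum_mem
  intro k hk
  obtain ⟨hkj, hkS⟩ := Finset.mem_erase.1 hk
  rw [Polynomial.eval_mul, Polynomial.eval_C, ← mul_assoc, hevalp]
  apply V.mul_mem _ _ (hoff j k (Ne.symm hkj))
  rw [← V.valuation_le_one_iff]
  rw [Lagrange.basis, Polynomial.eval_prod, map_prod]
  simp only [Lagrange.basisDivisor, Polynomial.eval_mul, Polynomial.eval_C, Polynomial.eval_sub,
    Polynomial.eval_X, map_mul, map_inv₀]
  rw [Finset.prod_mul_distrib, Finset.prod_inv_distrib]
  have hkne : ∀ a b, a ≠ b → V.valuation (x a - x b) ≠ 0 := by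
    intro a b hab
    rw [Ne, map_eq_zero, sub_eq_zero]
    exact fun h => hab (hx h)
  have hsymm : ∀ a b, V.valuation (x a - x b) = V.valuation (x b - x a) := fun a b =>
    Valuation.map_sub_swap _ _ _
  have hwk : w k = V.valuation (x k - x j) * ∏ i ∈ (S.erase j).erase k, V.valuation (x k - x i) := by
    have : S.erase k = insert j ((S.erase j).erase k) := by
      ext t
      simp only [Finset.mem_erase, Finset.mem_insert]
      constructor
      · rintro ⟨h1, h2⟩
        by_cases h : t = j
        · left; exact h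
        · right; exact ⟨h1, h, h2⟩
      · rintro (rfl | ⟨h1, h2, h3⟩)
        · exact ⟨Ne.symm hkj, hjS⟩
        · exact ⟨h1, h3⟩
    simp only [hw]
    rw [this, Finset.prod_insert (by simp)]
  have hwj : w j = V.valuation (x j - x k) * ∏ i ∈ (S.erase j).erase k, V.valuation (x j - x i) := by
    simp only [hw]
    rw [← Finset.mul_prod_erase _ _ hk]
  have hle := hmin k hkS
  rw [hwj, hwk, hsymm j k] at hle
  have hle2 := le_of_mul_le_mul_left hle (zero_lt_iff.2 (hkne k j hkj))
  have hpos : (∏ i ∈ (S.erase j).erase k, V.valuation (x k - x i)) ≠ 0 := by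
    rw [Finset.prod_ne_zero_iff]
    intro i hi
    exact hkne k i (Ne.symm (Finset.mem_erase.1 hi).1)
  calc _ ≤ (∏ i ∈ (S.erase j).erase k, V.valuation (x k - x i))⁻¹ *
        ∏ i ∈ (S.erase j).erase k, V.valuation (x k - x i) := by gcongr
    _ = 1 := inv_mul_cancel₀ hpos

end ValDiag

open ValDiag in
theorem val_diag {K : Type} [Field K] [Algebra ℂ K] (V : ValuationSubring K)
    (hC : ∀ c : ℂ, algebraMap ℂ K c ∈ V) (z : K) (hz : z ∈ V) (x : ℕ → K)
    (hx : Function.Injective x) (f : MvPolynomial (Fin 2) ℂ)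
    (hf : f.coeff (Finsupp.single 0 f.totalDegree) ≠ 0 ∨
      f.coeff (Finsupp.single 1 f.totalDegree) ≠ 0)
    (hoff : ∀ i j, i ≠ j → z * aeval ![x i, x j] f ∈ V) : z * aeval ![x 0, x 0] f ∈ V := by
  obtain ⟨j, hj0, hj⟩ := exists_good V z x hx f hoff
  by_contra hcon
  set h : Polynomial ℂ := MvPolynomial.aeval (![Polynomial.X, Polynomial.X] : Fin 2 → Polynomial ℂ) f with hh
  have hev : ∀ t : K, Polynomial.aeval t h = aeval ![t, t] f := by
    intro t
    rw [hh, ← AlgHom.comp_apply, MvPolynomial.comp_aeval]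
    congr 2
    funext i
    fin_cases i
    · simp
    · simp
  have hdeg : h.natDegree ≤ f.totalDegree := by
    have := MvPolynomial.aeval_natDegree_le (m := f.totalDegree) (n := 1) f
      le_rfl (![Polynomial.X, Polynomial.X] : Fin 2 → Polynomial ℂ) (by
        intro i
        fin_cases i
        · simp
        · simp)
    rwa [mul_one] at this
  rw [← V.valuation_le_one_iff, not_le, ← hev] at hcon
  have hh0 : h ≠ 0 := by
    intro h0
    rw [h0, map_zero, mul_zero, map_zero] at hcon
    exact absurd hcon (not_lt.2 zero_le_one)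
  have hx0 : 1 < V.valuation (x 0) := by
    by_contra hle
    rw [not_lt, V.valuation_le_one_iff] at hle
    have h1 : aeval ![x 0, x 0] f ∈ V := aeval_mem V hC f _ (by
      intro i
      fin_cases i
      · exact hle
      · exact hle)
    have h2 := V.mul_mem _ _ hz h1
    rw [← hev, ← V.valuation_le_one_iff] at h2
    exact absurd hcon (not_lt.2 h2)
  have hval0 := val_uni V hC h hh0 hx0
  rw [map_mul, hval0] at hcon
  -- the good index has smaller valuation
  have hlt : V.valuation (x j) < V.valuation (x 0) := by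
    by_contra hge
    rw [not_lt] at hge
    have hxj : 1 < V.valuation (x j) := lt_of_lt_of_le hx0 hge
    have h1 := val_uni V hC h hh0 hxj
    rw [← V.valuation_le_one_iff, ← hev, map_mul, h1] at hj
    have h2 : V.valuation z * V.valuation (x 0) ^ h.natDegree
        ≤ V.valuation z * V.valuation (x j) ^ h.natDegree := by gcongr
    exact absurd (lt_of_lt_of_le hcon h2) (not_lt.2 hj)
  have hpw : V.valuation z * V.valuation (x 0) ^ h.natDegree
      ≤ V.valuation z * V.valuation (x 0) ^ f.totalDegree := by
    gcongr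
    exact hx0.le
  rcases hf with hf | hf
  · have h1 := val_dom V hC f ![x 0, x j] 0 1 (by decide) hf (by simpa using hx0) (by simpa using hlt)
    have h2 := hoff 0 j (Ne.symm hj0)
    rw [← V.valuation_le_one_iff, map_mul, h1] at h2
    have h3 : V.valuation z * V.valuation (x 0) ^ f.totalDegree ≤ 1 := by simpa using h2
    exact absurd (lt_of_lt_of_le hcon (hpw.trans h3)) (lt_irrefl _)
  · have h1 := val_dom V hC f ![x j, x 0] 1 0 (by decide) hf (by simpa using hx0) (by simpa using hlt)
    have h2 := hoff j 0 hj0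
    rw [← V.valuation_le_one_iff, map_mul, h1] at h2
    have h3 : V.valuation z * V.valuation (x 0) ^ f.totalDegree ≤ 1 := by simpa using h2
    exact absurd (lt_of_lt_of_le hcon (hpw.trans h3)) (lt_irrefl _)

end MPf70651
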