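import Pool.Agent.Lib_MP_f70651_al.DefsTwo
import Pool.Agent.Lib_MP_f70651_al.Basic

/-!
# MP_f70651_al : the well quasi order on marked monomials (Higman's lemma)
-/

namespace MPf70651

/-- A sublist up to `R` gives an increasing map of positions. -/
theorem wqo_emb {α β : Type} {R : α → β → Prop} {l₁ : List α} {l₂ : List β}
    (h : List.SublistForall₂ R l₁ l₂) :
    ∃ τ : ℕ → ℕ, StrictMono τ ∧ ∀ i (hi : i < l₁.length),
      ∃ hj : τ i < l₂.length, R l₁[i] l₂[τ i] := by
  induction h with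
  | nil => exact ⟨id, strictMono_id, fun i hi => absurd hi (by simp)⟩
  | @cons a₁ a₂ l₁ l₂ hR _ ih =>
    obtain ⟨τ, hτ, h⟩ := ih
    refine ⟨fun i => Nat.casesOn i 0 (fun j => τ j + 1), ?_, ?_⟩
    · apply strictMono_nat_of_lt_succ
      intro n
      cases n with
      | zero => exact Nat.succ_pos _
      | succ n => exact Nat.succ_lt_succ (hτ (Nat.lt_succ_self n))
    · intro i hi
      cases i with
      | zero => exact ⟨by simp, hR⟩
      | succ i =>
        obtain ⟨hj, hr⟩ := h i (by simpa using hi)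
        exact ⟨by simpa using hj, hr⟩
  | @cons_right a l₁ l₂ _ ih =>
    obtain ⟨τ, hτ, h⟩ := ih
    refine ⟨fun i => τ i + 1, fun i j hij => Nat.succ_lt_succ (hτ hij), ?_⟩
    intro i hi
    obtain ⟨hj, hr⟩ := h i hi
    exact ⟨by simpa using hj, hr⟩

/-- The relation on letters. -/
def wqoR (w : ℕ) (κ : Type) (a b : (Fin w → Bool) × (κ → ℕ)) : Prop :=
  a.1 = b.1 ∧ a.2 ≤ b.2

instance (w : ℕ) (κ : Type) : IsPreorder _ (wqoR w κ) where
  refl := fun _ => ⟨rfl, le_rfl⟩
  trans := fun _ _ _ h1 h2 => ⟨h1.1.trans h2.1, h1.2.trans h2.2⟩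

instance (w : ℕ) (κ : Type) : IsPreorder _ (List.SublistForall₂ (wqoR w κ)) where
  refl := (List.SublistForall₂.is_refl (Rₐ := wqoR w κ)).refl
  trans := (List.SublistForall₂.is_trans (Rₐ := wqoR w κ)).trans

theorem wqo_letters (w : ℕ) (κ : Type) [Finite κ] : WellQuasiOrdered (wqoR w κ) := by
  have h1 : WellQuasiOrdered (fun a b : Fin w → Bool => a = b) := Finite.wellQuasiOrdered _
  have h2 : WellQuasiOrdered (fun a b : κ → ℕ => a ≤ b) := wellQuasiOrdered_le
  exact h1.prod h2

theorem wqo_words (w : ℕ) (κ : Type) [Finite κ] :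
    WellQuasiOrdered (List.SublistForall₂ (wqoR w κ)) := by
  rw [← Set.partiallyWellOrderedOn_univ_iff]
  have h := Set.PartiallyWellOrderedOn.partiallyWellOrderedOn_sublistForall₂ (wqoR w κ)
    (s := Set.univ) (Set.partiallyWellOrderedOn_univ_iff.mpr (wqo_letters w κ))
  refine h.mono ?_
  intro l _ x _
  exact Set.mem_univ x

/-- A bound for the indices involved in a marked monomial. -/
theorem wqo_bound {w : ℕ} {κ : Type} (x : Pos w × (Option (ℕ × κ) →₀ ℕ)) :
    ∃ L : ℕ, (∀ k, x.1 k < L) ∧ ∀ i a, x.2 (some (i, a)) ≠ 0 → i < L := by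
  obtain ⟨n, hn⟩ := exists_bound x.1
  refine ⟨max n (x.2.support.sup (fun o => o.elim 0 (fun p => p.1 + 1))), ?_, ?_⟩
  · intro k
    exact lt_of_lt_of_le (hn k) (le_max_left _ _)
  · intro i a h
    have h1 : some (i, a) ∈ x.2.support := Finsupp.mem_support_iff.mpr h
    have h2 := Finset.le_sup (f := fun o : Option (ℕ × κ) => o.elim 0 (fun p => p.1 + 1)) h1
    exact lt_of_lt_of_le (Nat.lt_succ_self i) (le_trans h2 (le_max_right _ _))

theorem wqo_actV_injective (κ : Type) (τ : ℕ → ℕ) (hτ : Function.Injective τ) :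
    Function.Injective (actV κ τ) :=
  Option.map_injective (hτ.prodMap Function.injective_id)

theorem wqo_pos (w : ℕ) (κ : Type) [Fintype κ] (F : ℕ → Pos w × (Option (ℕ × κ) →₀ ℕ)) :
    ∃ i j, i < j ∧ ∃ τ : ℕ ↪o ℕ, (F i).1.trans τ = (F j).1 ∧
      Finsupp.mapDomain (actV κ τ) (F i).2 ≤ (F j).2 := by
  choose L hL1 hL2 using fun x : Pos w × (Option (ℕ × κ) →₀ ℕ) => wqo_bound x
  let word : Pos w × (Option (ℕ × κ) →₀ ℕ) → List ((Fin w → Bool) × (κ → ℕ)) := fun x =>
    (List.range (L x)).map (fun i => ((fun k => decide (x.1 k = i)), fun a => x.2 (some (i, a))))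
  have hw : WellQuasiOrdered (fun a b : List ((Fin w → Bool) × (κ → ℕ)) × ℕ =>
      List.SublistForall₂ (wqoR w κ) a.1 b.1 ∧ a.2 ≤ b.2) :=
    (wqo_words w κ).prod wellQuasiOrdered_le
  obtain ⟨i, j, hij, h1, h2⟩ := hw (fun n => (word (F n), (F n).2 none))
  obtain ⟨τ, hτ, h⟩ := wqo_emb h1
  have hlen : ∀ x, (word x).length = L x := fun x => by simp [word]
  have hget : ∀ x n (hn : n < (word x).length), (word x)[n] =
      ((fun k => decide (x.1 k = n)), fun a => x.2 (some (n, a))) := fun x n hn => by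
    simp [word]
  have key : ∀ n, n < L (F i) → (∀ k, decide ((F i).1 k = n) = decide ((F j).1 k = τ n)) ∧
      ∀ a, (F i).2 (some (n, a)) ≤ (F j).2 (some (τ n, a)) := by
    intro n hn
    obtain ⟨hj, hr⟩ := h n (by rw [hlen]; exact hn)
    simp only at hr
    rw [hget, hget] at hr
    exact ⟨fun k => congrFun hr.1 k, fun a => hr.2 a⟩
  refine ⟨i, j, hij, OrderEmbedding.ofStrictMono τ hτ, ?_, ?_⟩
  · ext k
    have := (key _ (hL1 (F i) k)).1 k
    simp only [decide_true] at this
    have h3 := (decide_eq_true_iff.mp this.symm)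
    exact h3.symm
  · intro v
    by_cases hv : v ∈ Set.range (actV κ τ)
    · obtain ⟨u, rfl⟩ := hv
      have h3 : Finsupp.mapDomain (actV κ (OrderEmbedding.ofStrictMono τ hτ)) (F i).2
          (actV κ τ u) = (F i).2 u :=
        Finsupp.mapDomain_apply (wqo_actV_injective κ τ hτ.injective) _ _
      rw [h3]
      cases u with
      | none => exact h2
      | some p =>
        obtain ⟨n, a⟩ := p
        by_cases hn : n < L (F i)
        · exact (key n hn).2 a
        · have : (F i).2 (some (n, a)) = 0 := by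
            by_contra hne
            exact hn (hL2 _ n a hne)
          rw [this]
          exact Nat.zero_le _
    · have h3 : Finsupp.mapDomain (actV κ (OrderEmbedding.ofStrictMono τ hτ)) (F i).2 v = 0 :=
        Finsupp.mapDomain_notin_range _ _ hv
      rw [h3]
      exact Nat.zero_le _

end MPf70651
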